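import Mathlib

/-!
Zero estimate and a nonsingular integer matrix (module A1).
-/

namespace Pool.Agent.Helper10.EP

open Polynomial

/-- entries of a determinant of polynomials of degree at most `n`: top coefficient -/
theorem coeff_det_top {ι : Type*} [Fintype ι] [DecidableEq ι] (M : Matrix ι ι ℝ[X]) (n : ℕ)
    (h : ∀ i j, (M i j).natDegree ≤ n) :
    M.det.coeff (Fintype.card ι * n) = (Matrix.of fun i j => (M i j).coeff n).det := by
  rw [Matrix.det_apply, Matrix.det_apply, finsetSum_coeff]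
  refine Finset.sum_congr rfl fun σ _ => ?_
  have h1 : (∏ i, M (σ i) i).coeff (Fintype.card ι * n) = ∏ i, (M (σ i) i).coeff n := by
    have := coeff_prod_of_natDegree_le (s := Finset.univ) (fun i => M (σ i) i) n
      (fun i _ => h _ _)
    rwa [Finset.card_univ] at this
  rcases Int.units_eq_one_or (Equiv.Perm.sign σ) with hs | hs <;> simp [hs, h1]

theorem natDegree_det_le' {ι : Type*} [Fintype ι] [DecidableEq ι] (M : Matrix ι ι ℝ[X]) (n : ℕ)
    (h : ∀ i j, (M i j).natDegree ≤ n) : M.det.natDegree ≤ Fintype.card ι * n := by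
  rw [Matrix.det_apply]
  refine natDegree_sum_le_of_forall_le _ _ fun σ _ => ?_
  have h1 : (∏ i, M (σ i) i).natDegree ≤ Fintype.card ι * n := by
    refine (natDegree_prod_le _ _).trans ?_
    refine (Finset.sum_le_card_nsmul _ _ n fun i _ => h _ _).trans ?_
    rw [Finset.card_univ, smul_eq_mul]
  rcases Int.units_eq_one_or (Equiv.Perm.sign σ) with hs | hs <;> simp [hs, h1]

/-- the zero estimate -/
theorem zero_estimate (p q : ℕ) (hp : p.Prime) (hq : q.Prime) (K L R T b c : ℕ) (hK : 1 ≤ K)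
    (hL : 1 ≤ L) (hLR : L ≤ R) (hcount : L * K ≤ (R + 1 - L) * T)
    (hinj : ∀ r t r' t' : ℕ, r < R → t < T → r' < R → t' < T →
      r * c + t * b = r' * c + t' * b → r = r' ∧ t = t')
    (P : Fin L → ℝ[X]) (hdeg : ∀ l, (P l).natDegree ≤ K - 1)
    (hz : ∀ r t : ℕ, r < R → t < T →
      ∑ l : Fin L, (P l).eval ((r * c + t * b : ℕ) : ℝ) * (((q ^ r * p ^ t : ℕ) : ℝ)) ^ (l : ℕ) = 0)
    (l₀ : Fin L) : P l₀ = 0 := by
  classical
  by_contra hne
  have hqR : (0 : ℝ) < q := by exact_mod_cast hq.pos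
  have hpR : (0 : ℝ) < p := by exact_mod_cast hp.pos
  set P' : Fin L → ℝ[X] := fun l => if P l = 0 then 1 else P l with hP'
  have hP'0 : ∀ l, P' l ≠ 0 := by
    intro l
    simp only [hP']
    split_ifs with h
    · exact one_ne_zero
    · exact h
  have hP'd : ∀ l, (P' l).natDegree ≤ K - 1 := by
    intro l
    simp only [hP']
    split_ifs with h
    · simp
    · exact hdeg l
  set Mx : Matrix (Fin L) (Fin L) ℝ[X] := Matrix.of fun i l =>
    (P' l).comp (X + C (((i : ℕ) * c : ℕ) : ℝ)) * (C ((q : ℝ) ^ ((i : ℕ) * (l : ℕ))) *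
      X ^ (K - 1 - (P' l).natDegree)) with hMx
  have hcompdeg : ∀ (l : Fin L) (a : ℝ), ((P' l).comp (X + C a)).natDegree = (P' l).natDegree := by
    intro l a
    rw [natDegree_comp, natDegree_X_add_C, mul_one]
  have hMd : ∀ i l, (Mx i l).natDegree ≤ K - 1 := by
    intro i l
    simp only [hMx, Matrix.of_apply]
    refine natDegree_mul_le.trans ?_
    rw [hcompdeg]
    have h1 : (C ((q : ℝ) ^ ((i : ℕ) * (l : ℕ))) * X ^ (K - 1 - (P' l).natDegree)).natDegree
        ≤ K - 1 - (P' l).natDegree := natDegree_C_mul_X_pow_le _ _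
    have := hP'd l
    omega
  have hMc : ∀ i l, (Mx i l).coeff (K - 1) =
      (P' l).leadingCoeff * ((q : ℝ) ^ (i : ℕ)) ^ (l : ℕ) := by
    intro i l
    simp only [hMx, Matrix.of_apply]
    have h1 : K - 1 = (P' l).natDegree + (K - 1 - (P' l).natDegree) := by
      have := hP'd l
      omega
    rw [← mul_assoc, mul_comm ((P' l).comp _) (C _), mul_assoc, coeff_C_mul]
    have h1' : ((P' l).comp (X + C (((i : ℕ) * c : ℕ) : ℝ)) *
        X ^ (K - 1 - (P' l).natDegree)).coeff (K - 1) =
        ((P' l).comp (X + C (((i : ℕ) * c : ℕ) : ℝ))).coeff (P' l).natDegree := by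
      generalize K - 1 - (P' l).natDegree = m at h1 ⊢
      rw [h1, coeff_mul_X_pow]
    rw [h1']
    have h2 : ((P' l).comp (X + C (((i : ℕ) * c : ℕ) : ℝ))).coeff (P' l).natDegree =
        (P' l).leadingCoeff := by
      have h3 := leadingCoeff_comp (p := P' l) (q := X + C (((i : ℕ) * c : ℕ) : ℝ))
        (by rw [natDegree_X_add_C]; exact one_ne_zero)
      rw [leadingCoeff_X_add_C, one_pow, mul_one] at h3
      rw [← h3, leadingCoeff, hcompdeg]
    rw [h2, ← pow_mul]
    ring
  have hdet : Mx.det ≠ 0 := by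
    intro h0
    have h1 := coeff_det_top Mx (K - 1) hMd
    rw [h0, coeff_zero] at h1
    have h2 : (Matrix.of fun i l => (Mx i l).coeff (K - 1)) =
        Matrix.of fun i l => (P' l).leadingCoeff *
          (Matrix.vandermonde fun i : Fin L => (q : ℝ) ^ (i : ℕ)) i l := by
      ext i l
      simp only [Matrix.of_apply, hMc, Matrix.vandermonde_apply]
    rw [h2, Matrix.det_mul_row] at h1
    have h3 : (Matrix.vandermonde fun i : Fin L => (q : ℝ) ^ (i : ℕ)).det ≠ 0 := by
      rw [Matrix.det_vandermonde_ne_zero_iff]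
      intro i j hij
      have hq1 : (1 : ℝ) < q := by exact_mod_cast hq.one_lt
      exact Fin.ext (pow_right_injective₀ hqR hq1.ne' hij)
    have h4 : (∏ l, (P' l).leadingCoeff) ≠ 0 :=
      Finset.prod_ne_zero_iff.2 fun l _ => leadingCoeff_ne_zero.2 (hP'0 l)
    exact mul_ne_zero h4 h3 h1.symm
  -- many roots
  set S : Finset (ℕ × ℕ) := Finset.range (R + 1 - L) ×ˢ Finset.range T with hS
  have hSinj : Set.InjOn (fun x : ℕ × ℕ => ((x.1 * c + x.2 * b : ℕ) : ℝ)) S := by
    intro x hx y hy hxy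
    simp only [hS, Finset.coe_product, Finset.coe_range, Set.mem_prod, Set.mem_Iio] at hx hy
    have h1 : x.1 * c + x.2 * b = y.1 * c + y.2 * b := by
      simp only at hxy
      exact_mod_cast hxy
    obtain ⟨h2, h3⟩ := hinj x.1 x.2 y.1 y.2 (by omega) hx.2 (by omega) hy.2 h1
    exact Prod.ext h2 h3
  apply hdet
  refine eq_zero_of_natDegree_lt_card_of_eval_eq_zero' Mx.det
    (S.image fun x : ℕ × ℕ => ((x.1 * c + x.2 * b : ℕ) : ℝ)) ?_ ?_
  · intro x hx
    rw [Finset.mem_image] at hx
    obtain ⟨⟨r, t⟩, hrt, rfl⟩ := hx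
    simp only [hS, Finset.mem_product, Finset.mem_range] at hrt
    obtain ⟨hr, ht⟩ := hrt
    set x : ℝ := ((r * c + t * b : ℕ) : ℝ) with hx
    have h1 : Mx.det.eval x = (Matrix.of fun i l : Fin L =>
        x ^ (K - 1 - (P' l).natDegree) * ((P' l).eval (x + (((i : ℕ) * c : ℕ) : ℝ)) *
          (q : ℝ) ^ ((i : ℕ) * (l : ℕ)))).det := by
      have h2 := RingHom.map_det (evalRingHom x) Mx
      rw [coe_evalRingHom] at h2
      rw [h2]
      congr 1
      ext i l
      simp only [RingHom.mapMatrix_apply, Matrix.map_apply, hMx, Matrix.of_apply, coe_evalRingHom,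
        eval_mul, eval_comp, eval_add, eval_X, eval_C, eval_pow]
      ring
    show Mx.det.eval x = 0
    rw [h1]
    have h5 : (Matrix.of fun i l : Fin L =>
        x ^ (K - 1 - (P' l).natDegree) * ((P' l).eval (x + (((i : ℕ) * c : ℕ) : ℝ)) *
          (q : ℝ) ^ ((i : ℕ) * (l : ℕ)))) = Matrix.of fun i l : Fin L =>
        x ^ (K - 1 - (P' l).natDegree) * (Matrix.of fun i l : Fin L =>
          (P' l).eval (x + (((i : ℕ) * c : ℕ) : ℝ)) * (q : ℝ) ^ ((i : ℕ) * (l : ℕ))) i l := rfl
    rw [h5, Matrix.det_mul_row]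
    refine mul_eq_zero_of_right _ ?_
    rw [← Matrix.exists_mulVec_eq_zero_iff]
    refine ⟨fun l => if P l = 0 then 0 else (((q ^ r * p ^ t : ℕ) : ℝ)) ^ (l : ℕ), ?_, ?_⟩
    · intro h
      have := congrFun h l₀
      simp only [if_neg hne, Pi.zero_apply] at this
      have h7 : (((q ^ r * p ^ t : ℕ) : ℝ)) ≠ 0 := by
        have : 0 < q ^ r * p ^ t := Nat.mul_pos (pow_pos hq.pos _) (pow_pos hp.pos _)
        exact_mod_cast this.ne'
      exact pow_ne_zero _ h7 this
    · funext i
      rw [Matrix.mulVec, Pi.zero_apply]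
      show ∑ l : Fin L, _ = 0
      have h6 := hz (r + i) t (by have := i.2; omega) ht
      refine Eq.trans (Finset.sum_congr rfl fun l _ => ?_) h6
      simp only [Matrix.of_apply]
      split_ifs with h
      · rw [h, eval_zero, zero_mul, mul_zero]
      · have h8 : P' l = P l := by simp only [hP', if_neg h]
        rw [h8]
        have h9 : x + (((i : ℕ) * c : ℕ) : ℝ) = (((r + i) * c + t * b : ℕ) : ℝ) := by
          rw [hx]; push_cast; ring
        rw [h9]
        push_cast
        rw [mul_assoc]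
        congr 1
        rw [mul_pow, mul_pow, pow_add, mul_pow, pow_mul]
        ring
  · rw [Finset.card_image_of_injOn hSinj, hS, Finset.card_product, Finset.card_range,
      Finset.card_range]
    refine (natDegree_det_le' Mx (K - 1) hMd).trans_lt ?_
    rw [Fintype.card_fin]
    refine lt_of_lt_of_le ?_ hcount
    exact Nat.mul_lt_mul_of_pos_left (by omega) (by omega)

theorem exists_det_ne_zero (p q : ℕ) (hp : p.Prime) (hq : q.Prime) (K L R T b c : ℕ)
    (hK : 1 ≤ K) (hL : 1 ≤ L) (hLR : L ≤ R) (_hc : 1 ≤ c) (hcount : L * K ≤ (R + 1 - L) * T)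
    (hinj : ∀ r t r' t' : ℕ, r < R → t < T → r' < R → t' < T →
      r * c + t * b = r' * c + t' * b → r = r' ∧ t = t') :
    ∃ f : Fin K × Fin L → ℕ × ℕ, (∀ i, (f i).1 < R ∧ (f i).2 < T) ∧
      (Matrix.of fun i j : Fin K × Fin L =>
        ((((f j).1 * c + (f j).2 * b : ℕ) : ℤ)) ^ (i.1 : ℕ) *
          (((q ^ (f j).1 * p ^ (f j).2 : ℕ) : ℤ)) ^ (i.2 : ℕ)).det ≠ 0 := by
  classical
  -- the vectors
  let v : Fin R × Fin T → (Fin K × Fin L → ℝ) := fun x i =>
    ((((x.1 : ℕ) * c + (x.2 : ℕ) * b : ℕ) : ℝ)) ^ (i.1 : ℕ) *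
      (((q ^ (x.1 : ℕ) * p ^ (x.2 : ℕ) : ℕ) : ℝ)) ^ (i.2 : ℕ)
  have hspan : Submodule.span ℝ (Set.range v) = ⊤ := by
    by_contra hne
    obtain ⟨φ, hφ, hφ0⟩ := Submodule.exists_le_ker_of_lt_top _ (lt_top_iff_ne_top.2 hne)
    apply hφ
    -- coefficients of the functional
    let a : Fin K × Fin L → ℝ := fun i => φ (Pi.single i 1)
    have hφa : ∀ w : Fin K × Fin L → ℝ, φ w = ∑ i, a i * w i := by
      intro w
      have h1 : w = ∑ i, w i • (Pi.single i (1 : ℝ) : Fin K × Fin L → ℝ) := by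
        funext j
        simp [Finset.sum_apply, Pi.single_apply]
      conv_lhs => rw [h1]
      rw [map_sum]
      refine Finset.sum_congr rfl fun i _ => ?_
      rw [map_smul, smul_eq_mul, mul_comm]
    let P : Fin L → ℝ[X] := fun l => ∑ k : Fin K, C (a (k, l)) * X ^ (k : ℕ)
    have hPdeg : ∀ l, (P l).natDegree ≤ K - 1 := by
      intro l
      refine natDegree_sum_le_of_forall_le _ _ fun k _ => ?_
      refine (natDegree_C_mul_X_pow_le _ _).trans ?_
      have := k.2
      omega
    have hP : ∀ l, P l = 0 := by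
      refine zero_estimate p q hp hq K L R T b c hK hL hLR hcount hinj P hPdeg ?_
      intro r t hr ht
      have h1 : φ (v (⟨r, hr⟩, ⟨t, ht⟩)) = 0 :=
        hφ0 (Submodule.subset_span ⟨_, rfl⟩)
      rw [hφa, Fintype.sum_prod_type_right] at h1
      rw [← h1]
      refine Finset.sum_congr rfl fun l _ => ?_
      simp only [P, eval_finsetSum, eval_mul, eval_C, eval_pow, eval_X, v, Finset.sum_mul]
      refine Finset.sum_congr rfl fun k _ => ?_
      ring
    have ha : ∀ i, a i = 0 := by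
      rintro ⟨k, l⟩
      have h1 := congrArg (fun p => p.coeff (k : ℕ)) (hP l)
      simp only [P, finsetSum_coeff, coeff_C_mul, coeff_X_pow, coeff_zero] at h1
      rw [Finset.sum_eq_single k] at h1
      · simpa using h1
      · intro k' _ hk'
        rw [if_neg, mul_zero]
        intro h
        exact hk' (Fin.ext h.symm)
      · intro h; exact absurd (Finset.mem_univ k) h
    ext i
    simp [a] at ha
    simpa using ha i.1 i.2
  -- choose a basis among the vectors
  obtain ⟨κ, e, he, hκspan, hκ⟩ := exists_linearIndependent' ℝ v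
  rw [hspan] at hκspan
  let B := Module.Basis.mk hκ hκspan.ge
  have : Finite κ := Module.Finite.finite_basis B
  have : Fintype κ := Fintype.ofFinite κ
  have hcard : Fintype.card κ = Fintype.card (Fin K × Fin L) := by
    rw [← Module.finrank_eq_card_basis B, Module.finrank_fintype_fun_eq_card]
  let g : Fin K × Fin L ≃ κ := (Fintype.equivOfCardEq hcard).symm
  refine ⟨fun i => (((e (g i)).1 : ℕ), ((e (g i)).2 : ℕ)), fun i => ⟨(e (g i)).1.2, (e (g i)).2.2⟩,
    ?_⟩
  have hind : LinearIndependent ℝ (fun i => v (e (g i))) := hκ.comp g g.injective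
  have hunit : IsUnit (Matrix.of fun i => v (e (g i))) :=
    Matrix.linearIndependent_rows_iff_isUnit.1 hind
  have hdet : (Matrix.of fun i => v (e (g i))).det ≠ 0 := by
    rw [Matrix.isUnit_iff_isUnit_det] at hunit
    exact hunit.ne_zero
  intro h0
  apply hdet
  have h1 := congrArg (Int.castRingHom ℝ) h0
  rw [RingHom.map_det, map_zero, ← Matrix.det_transpose] at h1
  rw [← h1]
  congr 1
  ext i j
  simp [v]

end Pool.Agent.Helper10.EP
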