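import Mathlib

/-!
Interpolation determinants of entire functions: the bound obtained from the Schwarz lemma.
-/

set_option autoImplicit false

namespace Pool.Agent.Helper10.EP

open Finset

/-- Finite Taylor expansion of an entire function with an entire remainder. -/
lemma exists_taylor (f : ℂ → ℂ) (hf : Differentiable ℂ f) (m : ℕ) :
    ∃ (c : ℕ → ℂ) (r : ℂ → ℂ), Differentiable ℂ r ∧
      ∀ z, f z = ∑ n ∈ range m, c n * z ^ n + z ^ m * r z := by
  induction m with
  | zero => exact ⟨fun _ => 0, f, hf, fun z => by simp⟩
  | succ m ih =>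
    obtain ⟨c, r, hr, h⟩ := ih
    refine ⟨fun n => if n = m then r 0 else c n, dslope r 0, ?_, fun z => ?_⟩
    · rw [← differentiableOn_univ]
      exact (Complex.differentiableOn_dslope Filter.univ_mem).2 hr.differentiableOn
    · have h1 : z * dslope r 0 z = r z - r 0 := by
        have := sub_smul_dslope r 0 z
        simpa using this
      have h2 : r z = r 0 + z * dslope r 0 z := by rw [h1]; ring
      rw [h z, sum_range_succ]
      beta_reduce
      rw [if_pos rfl]
      have h3 : ∑ n ∈ range m, (if n = m then r 0 else c n) * z ^ n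
          = ∑ n ∈ range m, c n * z ^ n := by
        refine sum_congr rfl fun n hn => ?_
        rw [if_neg (by have := mem_range.1 hn; omega)]
      rw [h3]
      conv_lhs => rw [h2]
      ring

/-- The sum of the values of an injective function to the naturals. -/
lemma sum_injective_ge {ι : Type*} [Fintype ι] [DecidableEq ι] (φ : ι → ℕ)
    (h : Function.Injective φ) :
    Fintype.card ι * (Fintype.card ι - 1) / 2 ≤ ∑ i, φ i := by
  rw [← Finset.sum_range_id]
  let s : Finset ℤ := univ.image fun i => (φ i : ℤ)
  have hinj : Function.Injective fun i => (φ i : ℤ) := fun i j hij => h (by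
    have h0 : (φ i : ℤ) = (φ j : ℤ) := hij
    exact_mod_cast h0)
  have hc : s.card = Fintype.card ι := by
    rw [Finset.card_image_of_injective _ hinj, Finset.card_univ]
  have h1 := Finset.sum_range_le_sum (s := s) (c := 0) (by
    intro x hx
    obtain ⟨i, _, rfl⟩ := Finset.mem_image.1 hx
    positivity)
  rw [hc] at h1
  have h2 : ∑ x ∈ s, x = ∑ i, (φ i : ℤ) := by
    rw [Finset.sum_image (fun i _ j _ hij => hinj hij)]
  rw [h2] at h1
  have h3 : ((∑ i ∈ range (Fintype.card ι), i : ℕ) : ℤ) ≤ ((∑ i, φ i : ℕ) : ℤ) := by
    push_cast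
    simpa using h1
  exact_mod_cast h3

section

variable {ι : Type*} [Fintype ι] [DecidableEq ι]

/-- The degree attached to a choice. -/
def dg (m : ℕ) : Option (Fin m) → ℕ
  | none => m
  | some n => n

/-- Row vectors attached to a choice. -/
noncomputable def rowv (m : ℕ) (c : ι → ℕ → ℂ) (r : ι → ℂ → ℂ) (w : ℂ) :
    Option (Fin m) → ι → ℂ
  | none => fun i => r i w
  | some n => fun i => c i n

/-- Differentiability of determinants. -/
lemma differentiable_det (A : ℂ → Matrix ι ι ℂ) (h : ∀ i j, Differentiable ℂ fun z => A z i j) :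
    Differentiable ℂ fun z => (A z).det := by
  simp only [Matrix.det_apply]
  refine Differentiable.fun_sum fun σ _ => ?_
  refine Differentiable.const_smul ?_ _
  exact Differentiable.fun_finsetProd fun i _ => h _ _

/-- The interpolation determinant `det g_i (z x_j)` is divisible by `z ^ (N (N-1) / 2)`. -/
lemma exists_factor (g : ι → ℂ → ℂ) (hg : ∀ i, Differentiable ℂ (g i)) (x : ι → ℂ) :
    ∃ Ψ : ℂ → ℂ, Differentiable ℂ Ψ ∧ ∀ z,
      (Matrix.of fun i j => g i (z * x j)).det
        = z ^ (Fintype.card ι * (Fintype.card ι - 1) / 2) * Ψ z := by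
  classical
  set m := Fintype.card ι * (Fintype.card ι - 1) / 2 with hm
  choose c r hr hcr using fun i => exists_taylor (g i) (hg i) m
  -- the determinant as a multilinear expansion
  let D := (Matrix.detRowAlternating (n := ι) (R := ℂ)).toMultilinearMap
  have hD : ∀ v : ι → ι → ℂ, D v = (Matrix.of v).det := fun v => rfl
  have hrow : ∀ z (j : ι), (fun i => g i (z * x j))
      = ∑ o : Option (Fin m), (z * x j) ^ dg m o • rowv m c r (z * x j) o := by
    intro z j
    funext i
    rw [Fintype.sum_option, Pi.add_apply, Finset.sum_apply]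
    simp only [Pi.smul_apply, smul_eq_mul, dg, rowv]
    rw [hcr i (z * x j), add_comm, Finset.sum_range]
    congr 1
    exact Finset.sum_congr rfl fun n _ => by ring
  have hdet : ∀ z, (Matrix.of fun i j => g i (z * x j)).det
      = ∑ φ : ι → Option (Fin m), (∏ j, (z * x j) ^ dg m (φ j)) *
          (Matrix.of fun j => rowv m c r (z * x j) (φ j)).det := by
    intro z
    rw [← Matrix.det_transpose]
    have h1 : (Matrix.of fun i j => g i (z * x j)).transpose
        = Matrix.of fun j => ∑ o : Option (Fin m), (z * x j) ^ dg m o • rowv m c r (z * x j) o := by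
      ext j i
      rw [Matrix.transpose_apply, Matrix.of_apply, Matrix.of_apply, ← hrow z j]
    rw [h1, ← hD, MultilinearMap.map_sum]
    refine Finset.sum_congr rfl fun φ _ => ?_
    rw [MultilinearMap.map_smul_univ, hD, smul_eq_mul]
  refine ⟨fun z => ∑ φ : ι → Option (Fin m),
    if m ≤ ∑ j, dg m (φ j) then
      z ^ (∑ j, dg m (φ j) - m) * (∏ j, x j ^ dg m (φ j)) *
        (Matrix.of fun j => rowv m c r (z * x j) (φ j)).det
    else 0, ?_, fun z => ?_⟩
  · refine Differentiable.fun_sum fun φ _ => ?_
    split_ifs with h
    · refine Differentiable.fun_mul (Differentiable.fun_mul (by fun_prop) (by fun_prop)) ?_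
      refine differentiable_det _ fun j i => ?_
      show Differentiable ℂ fun z => rowv m c r (z * x j) (φ j) i
      cases φ j with
      | none => exact (hr i).comp (differentiable_id.mul_const (x j))
      | some n => exact differentiable_const _
    · exact differentiable_const _
  · rw [hdet z, Finset.mul_sum]
    refine Finset.sum_congr rfl fun φ _ => ?_
    split_ifs with h
    · have h2 : ∏ j, (z * x j) ^ dg m (φ j)
          = z ^ m * (z ^ (∑ j, dg m (φ j) - m) * ∏ j, x j ^ dg m (φ j)) := by
        simp_rw [mul_pow]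
        rw [Finset.prod_mul_distrib, Finset.prod_pow_eq_pow_sum, ← mul_assoc, ← pow_add,
          Nat.add_sub_cancel' h]
      rw [h2]
      ring
    · -- no remainder and not injective: two equal rows
      rw [mul_zero]
      have hns : ∀ j, ∃ n : Fin m, φ j = some n := by
        intro j
        cases hj : φ j with
        | none =>
          exfalso
          apply h
          have : dg m (φ j) ≤ ∑ j, dg m (φ j) :=
            Finset.single_le_sum (f := fun j => dg m (φ j)) (fun _ _ => Nat.zero_le _)
              (Finset.mem_univ j)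
          rw [hj] at this
          exact this
        | some n => exact ⟨n, rfl⟩
      choose ν hν using hns
      have hninj : ¬ Function.Injective fun j => (ν j : ℕ) := by
        intro hinj
        apply h
        have h3 := sum_injective_ge _ hinj
        calc m ≤ ∑ j, (ν j : ℕ) := h3
          _ = ∑ j, dg m (φ j) := Finset.sum_congr rfl fun j _ => by rw [hν j]; rfl
      rw [Function.not_injective_iff] at hninj
      obtain ⟨a, b, hab, hne⟩ := hninj
      have hab' : φ a = φ b := by rw [hν a, hν b, Fin.ext hab]
      have hz : (Matrix.of fun j => rowv m c r (z * x j) (φ j)).det = 0 := by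
        refine Matrix.det_zero_of_row_eq hne ?_
        funext i
        show rowv m c r (z * x a) (φ a) i = rowv m c r (z * x b) (φ b) i
        rw [hν a, hν b]
        show c i (ν a) = c i (ν b)
        rw [show (ν a : ℕ) = ν b from hab]
      rw [hz, mul_zero]

/-- Interpolation determinant bound (Schwarz lemma). -/
theorem norm_det_le {ι : Type*} [Fintype ι] [DecidableEq ι] (g : ι → ℂ → ℂ)
    (hg : ∀ i, Differentiable ℂ (g i)) (x : ι → ℂ) (ρ E M : ℝ)
    (_hρ : 0 ≤ ρ) (hE : 1 ≤ E) (hx : ∀ j, ‖x j‖ ≤ ρ) (hM : ∀ i z, ‖z‖ ≤ E * ρ → ‖g i z‖ ≤ M) :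
    ‖(Matrix.of fun i j => g i (x j)).det‖ ≤
      (Fintype.card ι).factorial * M ^ (Fintype.card ι)
        / E ^ (Fintype.card ι * (Fintype.card ι - 1) / 2) := by
  obtain ⟨Ψ, hΨ, hfac⟩ := exists_factor g hg x
  set m := Fintype.card ι * (Fintype.card ι - 1) / 2 with hm
  have hE0 : 0 < E := lt_of_lt_of_le one_pos hE
  have hbound : ∀ z : ℂ, ‖z‖ ≤ E → ‖(Matrix.of fun i j => g i (z * x j)).det‖
      ≤ (Fintype.card ι).factorial * M ^ (Fintype.card ι) := by
    intro z hz
    have := Matrix.det_le (A := Matrix.of fun i j => g i (z * x j))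
      (abv := NormedField.toAbsoluteValue ℂ) (x := M) (by
        intro i j
        show ‖g i (z * x j)‖ ≤ M
        refine hM i _ ?_
        rw [norm_mul]
        exact mul_le_mul hz (hx j) (norm_nonneg _) hE0.le)
    rw [nsmul_eq_mul] at this
    exact this
  have h1 : (Matrix.of fun i j => g i (x j)).det = Ψ 1 := by
    have := hfac 1
    simpa using this
  rw [h1]
  refine Complex.norm_le_of_forall_mem_frontier_norm_le (U := Metric.ball (0 : ℂ) E)
    Metric.isBounded_ball hΨ.diffContOnCl ?_ ?_
  · intro z hz
    rw [frontier_ball (0 : ℂ) hE0.ne'] at hz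
    have hz' : ‖z‖ = E := by simpa using hz
    rw [le_div_iff₀ (pow_pos hE0 _), mul_comm]
    have h2 := hbound z hz'.le
    rw [hfac z, norm_mul, norm_pow, hz'] at h2
    exact h2
  · rw [closure_ball (0 : ℂ) hE0.ne']
    simpa using hE

end

end Pool.Agent.Helper10.EP
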