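import Mathlib

/-!
Auxiliary facts for the Gelfond type bound: perturbation of determinants, roots of integers.
-/

namespace Pool.Agent.Helper10.EP

open Finset

/-- Difference of two products with factors bounded by `H ≥ 1`. -/
theorem abs_prod_sub_prod_le {ι : Type*} [DecidableEq ι] (s : Finset ι) (a b : ι → ℝ) (H e : ℝ)
    (hH : 1 ≤ H) (he : 0 ≤ e) (ha : ∀ i ∈ s, |a i| ≤ H) (hb : ∀ i ∈ s, |b i| ≤ H)
    (hd : ∀ i ∈ s, |a i - b i| ≤ e) :
    |∏ i ∈ s, a i - ∏ i ∈ s, b i| ≤ s.card * (H ^ s.card * e) := by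
  induction s using Finset.induction_on with
  | empty => simp
  | insert i s hi ih =>
    rw [prod_insert hi, prod_insert hi, card_insert_of_notMem hi]
    have ih' := ih (fun j hj => ha j (mem_insert_of_mem hj)) (fun j hj => hb j (mem_insert_of_mem hj))
      (fun j hj => hd j (mem_insert_of_mem hj))
    have h1 : |∏ j ∈ s, b j| ≤ H ^ s.card := by
      rw [abs_prod]
      calc ∏ j ∈ s, |b j| ≤ ∏ _j ∈ s, H :=
            prod_le_prod (fun j _ => abs_nonneg _) (fun j hj => hb j (mem_insert_of_mem hj))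
        _ = H ^ s.card := by rw [prod_const]
    have h2 : a i * ∏ j ∈ s, a j - b i * ∏ j ∈ s, b j =
        a i * (∏ j ∈ s, a j - ∏ j ∈ s, b j) + (a i - b i) * ∏ j ∈ s, b j := by ring
    rw [h2]
    have h3 := abs_add_le (a i * (∏ j ∈ s, a j - ∏ j ∈ s, b j)) ((a i - b i) * ∏ j ∈ s, b j)
    rw [abs_mul, abs_mul] at h3
    have h4 : |a i| * |∏ j ∈ s, a j - ∏ j ∈ s, b j| ≤ H * (s.card * (H ^ s.card * e)) :=
      mul_le_mul (ha i (mem_insert_self i s)) ih' (abs_nonneg _) (by linarith)
    have h5 : |a i - b i| * |∏ j ∈ s, b j| ≤ e * H ^ s.card :=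
      mul_le_mul (hd i (mem_insert_self i s)) h1 (abs_nonneg _) he
    have h6 : e * H ^ s.card ≤ H ^ (s.card + 1) * e := by
      rw [mul_comm, pow_succ]
      have : (0 : ℝ) ≤ H ^ s.card := by positivity
      nlinarith [mul_nonneg this he]
    calc _ ≤ _ := h3
      _ ≤ H * (s.card * (H ^ s.card * e)) + H ^ (s.card + 1) * e := by linarith
      _ = ((s.card + 1 : ℕ) : ℝ) * (H ^ (s.card + 1) * e) := by push_cast; ring

/-- Perturbation of a determinant. -/
theorem abs_det_sub_det_le {ι : Type*} [Fintype ι] [DecidableEq ι] (A B : Matrix ι ι ℝ) (H e : ℝ)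
    (hH : 1 ≤ H) (he : 0 ≤ e) (hA : ∀ i j, |A i j| ≤ H) (hB : ∀ i j, |B i j| ≤ H)
    (hd : ∀ i j, |A i j - B i j| ≤ e) :
    |A.det - B.det| ≤ (Fintype.card ι).factorial * (Fintype.card ι * (H ^ Fintype.card ι * e)) := by
  rw [Matrix.det_apply, Matrix.det_apply, ← Finset.sum_sub_distrib]
  refine (abs_sum_le_sum_abs _ _).trans ?_
  have h : ∀ σ ∈ (univ : Finset (Equiv.Perm ι)),
      |Equiv.Perm.sign σ • ∏ i, A (σ i) i - Equiv.Perm.sign σ • ∏ i, B (σ i) i| ≤
        Fintype.card ι * (H ^ Fintype.card ι * e) := by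
    intro σ _
    rw [← smul_sub]
    have h1 : |Equiv.Perm.sign σ • (∏ i, A (σ i) i - ∏ i, B (σ i) i)| =
        |∏ i, A (σ i) i - ∏ i, B (σ i) i| := by
      rcases Int.units_eq_one_or (Equiv.Perm.sign σ) with h | h
      · rw [h, one_smul]
      · rw [h, Units.neg_smul, one_smul, abs_neg]
    rw [h1]
    have := abs_prod_sub_prod_le univ (fun i => A (σ i) i) (fun i => B (σ i) i) H e hH he
      (fun i _ => hA _ _) (fun i _ => hB _ _) (fun i _ => hd _ _)
    simpa using this
  refine (Finset.sum_le_card_nsmul _ _ _ h).trans ?_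
  rw [Finset.card_univ, Fintype.card_perm, nsmul_eq_mul]

/-- Integer roots. -/
theorem exists_nat_root (c m : ℕ) (hm : 1 ≤ m) : ∃ G : ℕ, G ^ m ≤ c ∧ c < (G + 1) ^ m := by
  classical
  refine ⟨Nat.findGreatest (fun g => g ^ m ≤ c) c, ?_, ?_⟩
  · have h0 : (fun g => g ^ m ≤ c) 0 := by
      show 0 ^ m ≤ c
      rw [zero_pow (by omega)]; exact Nat.zero_le _
    exact Nat.findGreatest_spec (P := fun g => g ^ m ≤ c) (Nat.zero_le c) h0
  · by_contra h
    push Not at h
    have h1 : Nat.findGreatest (fun g => g ^ m ≤ c) c + 1 ≤ c := by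
      calc Nat.findGreatest (fun g => g ^ m ≤ c) c + 1
          ≤ (Nat.findGreatest (fun g => g ^ m ≤ c) c + 1) ^ m := Nat.le_self_pow (by omega) _
        _ ≤ c := h
    have h2 := Nat.le_findGreatest (P := fun g => g ^ m ≤ c) h1 h
    omega

/-- Two different positive integers have logarithms at distance at least `1 / (2 u)`. -/
theorem abs_log_sub_log_ge (u v : ℕ) (hu : 1 ≤ u) (hv : 1 ≤ v) (h : u ≠ v) :
    1 / (2 * (u : ℝ)) ≤ |Real.log u - Real.log v| := by
  have hu' : (1 : ℝ) ≤ u := by exact_mod_cast hu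
  have hv' : (1 : ℝ) ≤ v := by exact_mod_cast hv
  rcases lt_or_gt_of_ne h with hlt | hlt
  · have h1 : (u : ℝ) + 1 ≤ v := by exact_mod_cast hlt
    have h2 : Real.log u - Real.log v ≤ -(1 / (2 * (u : ℝ))) := by
      have h3 : Real.log ((u : ℝ) + 1) ≤ Real.log v := Real.log_le_log (by linarith) h1
      have h4 : Real.log ((u : ℝ) / (u + 1)) ≤ (u : ℝ) / (u + 1) - 1 :=
        Real.log_le_sub_one_of_pos (by positivity)
      rw [Real.log_div (by positivity) (by positivity)] at h4
      have h5 : (u : ℝ) / (u + 1) - 1 = -(1 / (u + 1)) := by field_simp; ring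
      have h6 : 1 / (2 * (u : ℝ)) ≤ 1 / (u + 1) := by
        apply one_div_le_one_div_of_le (by positivity) (by linarith)
      linarith
    rw [abs_of_nonpos (by have : 0 ≤ 1 / (2 * (u : ℝ)) := by positivity
                          linarith)]
    linarith
  · have h1 : (v : ℝ) + 1 ≤ u := by exact_mod_cast hlt
    have h2 : 1 / (2 * (u : ℝ)) ≤ Real.log u - Real.log v := by
      have h4 : Real.log ((v : ℝ) / u) ≤ (v : ℝ) / u - 1 :=
        Real.log_le_sub_one_of_pos (by positivity)
      rw [Real.log_div (by positivity) (by positivity)] at h4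
      have h5 : (v : ℝ) / u - 1 ≤ -(1 / u) := by
        rw [div_sub_one (by positivity), ← neg_div]
        apply div_le_div_of_nonneg_right (by linarith) (by positivity)
      have h6 : 1 / (2 * (u : ℝ)) ≤ 1 / u := by
        apply one_div_le_one_div_of_le (by positivity) (by linarith)
      linarith
    rw [abs_of_nonneg (by have : 0 ≤ 1 / (2 * (u : ℝ)) := by positivity
                          linarith)]
    exact h2

end Pool.Agent.Helper10.EP
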