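import Pool.Agent.Helper10.EP.A1
import Pool.Agent.Helper10.EP.A2
import Pool.Agent.Helper10.EP.A3a

/-!
A Gelfond type lower bound for `|c log p - b log q|`.
-/

namespace Pool.Agent.Helper10.EP

open Finset

/-- `log (G + 1)` is small compared with `G`. -/
theorem log_small (G : ℕ) (hG : 10 ^ 9 ≤ G) : 1200 * Real.log ((G : ℝ) + 1) + 1 ≤ G / 2 := by
  have hG' : (10 : ℝ) ^ 9 ≤ G := by exact_mod_cast hG
  have hpos : (0 : ℝ) < (G : ℝ) + 1 := by positivity
  have h1 : Real.log ((G : ℝ) + 1) = 2 * Real.log (Real.sqrt ((G : ℝ) + 1)) := by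
    rw [Real.log_sqrt hpos.le]; ring
  have h2 : Real.log (Real.sqrt ((G : ℝ) + 1)) ≤ Real.sqrt ((G : ℝ) + 1) - 1 :=
    Real.log_le_sub_one_of_pos (Real.sqrt_pos.mpr hpos)
  have h3 : Real.sqrt ((G : ℝ) + 1) * Real.sqrt ((G : ℝ) + 1) = (G : ℝ) + 1 :=
    Real.mul_self_sqrt hpos.le
  have h4 : (10000 : ℝ) ≤ Real.sqrt ((G : ℝ) + 1) := by
    apply Real.le_sqrt_of_sq_le
    nlinarith
  rw [h1]
  nlinarith

/-- the easy case: a small multiple of `b / c` is an integer -/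
theorem easy_case (p q : ℕ) (hp : p.Prime) (hq : q.Prime) (hpq : p ≠ q) (b c t : ℕ) (hb : 1 ≤ b)
    (hc : 1 ≤ c) (ht : 1 ≤ t) (htc : t ≤ c) (hdvd : c ∣ t * b) :
    1 / (2 * (p : ℝ) ^ t) ≤ |(c : ℝ) * Real.log p - b * Real.log q| := by
  obtain ⟨k, hk⟩ := hdvd
  have hk1 : 1 ≤ k := by
    rcases Nat.eq_zero_or_pos k with h | h
    · exfalso
      rw [h, mul_zero] at hk
      have : 0 < t * b := by positivity
      omega
    · exact h
  have hne : p ^ t ≠ q ^ k := by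
    intro h
    have h1 : p ∣ q ^ k := h ▸ dvd_pow_self p (by omega)
    have h2 := hp.dvd_of_dvd_pow h1
    exact hpq ((Nat.prime_dvd_prime_iff_eq hp hq).mp h2)
  have hA := abs_log_sub_log_ge (p ^ t) (q ^ k) (Nat.one_le_pow _ _ hp.pos)
    (Nat.one_le_pow _ _ hq.pos) hne
  push_cast at hA
  rw [Real.log_pow, Real.log_pow] at hA
  have hcR : (0 : ℝ) < c := by exact_mod_cast hc
  have htR : (0 : ℝ) < t := by exact_mod_cast ht
  have hkR : (t : ℝ) * b = c * k := by exact_mod_cast hk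
  have h3 : (t : ℝ) * Real.log p - k * Real.log q =
      (t / c) * ((c : ℝ) * Real.log p - b * Real.log q) := by
    have : (k : ℝ) = t * b / c := by field_simp; linarith
    rw [this]
    field_simp
  rw [h3, abs_mul, abs_of_pos (by positivity)] at hA
  have h4 : (t : ℝ) / c ≤ 1 := by
    rw [div_le_one hcR]; exact_mod_cast htc
  calc 1 / (2 * (p : ℝ) ^ t) ≤ t / c * |(c : ℝ) * Real.log p - b * Real.log q| := hA
    _ ≤ 1 * |(c : ℝ) * Real.log p - b * Real.log q| :=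
        mul_le_mul_of_nonneg_right h4 (abs_nonneg _)
    _ = _ := one_mul _

/-- `|exp y - 1| ≤ 2 |y|` for `|y| ≤ 1`. -/
theorem abs_exp_sub_one_le' (y : ℝ) (hy : |y| ≤ 1) : |Real.exp y - 1| ≤ 2 * |y| :=
  Real.abs_exp_sub_one_le hy

/-- lower bound for the determinant with rational entries -/
theorem det_lower {K L : ℕ} (c : ℕ) (hc : 1 ≤ c) (A : Matrix (Fin K × Fin L) (Fin K × Fin L) ℤ)
    (hA : A.det ≠ 0) (a : Matrix (Fin K × Fin L) (Fin K × Fin L) ℝ)
    (h : ∀ i j, (A i j : ℝ) = (c : ℝ) ^ (i.1 : ℕ) * a i j) :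
    1 ≤ ((c : ℝ) ^ K) ^ (K * L) * |a.det| := by
  have h1 : ((A.det : ℤ) : ℝ) = (∏ i : Fin K × Fin L, (c : ℝ) ^ (i.1 : ℕ)) * a.det := by
    rw [← Matrix.det_mul_column]
    have h0 := (Int.castRingHom ℝ).map_det A
    rw [eq_intCast] at h0
    rw [h0]
    congr 1
    ext i j
    simp [h i j]
  have h2 : (1 : ℝ) ≤ |((A.det : ℤ) : ℝ)| := by
    have := Int.one_le_abs hA
    exact_mod_cast this
  have hcR : (1 : ℝ) ≤ c := by exact_mod_cast hc
  have h3 : (∏ i : Fin K × Fin L, (c : ℝ) ^ (i.1 : ℕ)) ≤ ((c : ℝ) ^ K) ^ (K * L) := by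
    calc (∏ i : Fin K × Fin L, (c : ℝ) ^ (i.1 : ℕ)) ≤ ∏ _i : Fin K × Fin L, (c : ℝ) ^ K := by
          apply Finset.prod_le_prod
          · intro i _; positivity
          · intro i _
            exact pow_le_pow_right₀ hcR i.1.isLt.le
      _ = ((c : ℝ) ^ K) ^ (K * L) := by
          rw [Finset.prod_const, Finset.card_univ, Fintype.card_prod, Fintype.card_fin,
            Fintype.card_fin]
  have h4 : 0 ≤ (∏ i : Fin K × Fin L, (c : ℝ) ^ (i.1 : ℕ)) := by positivity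
  rw [h1, abs_mul, abs_of_nonneg h4] at h2
  calc (1 : ℝ) ≤ _ := h2
    _ ≤ _ := mul_le_mul_of_nonneg_right h3 (abs_nonneg _)

/-- upper bound for the unperturbed determinant -/
theorem det_upper {K L : ℕ} (x : Fin K × Fin L → ℝ) (w ρ E : ℝ) (hw : 0 ≤ w) (hρ : 1 ≤ ρ)
    (hE : 1 ≤ E) (hx : ∀ j, |x j| ≤ ρ) :
    |(Matrix.of fun i j : Fin K × Fin L =>
        x j ^ (i.1 : ℕ) * Real.exp ((i.2 : ℕ) * w * x j)).det| ≤
      (K * L).factorial * ((E * ρ) ^ K * Real.exp (L * w * (E * ρ))) ^ (K * L) /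
        E ^ (K * L * (K * L - 1) / 2) := by
  have h := norm_det_le (ι := Fin K × Fin L)
    (fun i z => z ^ (i.1 : ℕ) * Complex.exp (((i.2 : ℕ) : ℂ) * (w : ℂ) * z))
    (fun i => by fun_prop) (fun j => (x j : ℂ)) ρ E ((E * ρ) ^ K * Real.exp (L * w * (E * ρ)))
    (by linarith) hE (fun j => by simpa using hx j) ?_
  · rw [Fintype.card_prod, Fintype.card_fin, Fintype.card_fin] at h
    refine le_trans (le_of_eq ?_) h
    have h2 : (Matrix.of fun i j : Fin K × Fin L =>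
        ((x j : ℂ)) ^ (i.1 : ℕ) * Complex.exp (((i.2 : ℕ) : ℂ) * (w : ℂ) * (x j : ℂ))).det =
        (((Matrix.of fun i j : Fin K × Fin L =>
        x j ^ (i.1 : ℕ) * Real.exp ((i.2 : ℕ) * w * x j)).det : ℝ) : ℂ) := by
      have h0 := Complex.ofRealHom.map_det (Matrix.of fun i j : Fin K × Fin L =>
        x j ^ (i.1 : ℕ) * Real.exp ((i.2 : ℕ) * w * x j))
      rw [Complex.ofRealHom_eq_coe] at h0
      rw [h0]
      congr 1
      ext i j
      simp
    rw [h2, Complex.norm_real, Real.norm_eq_abs]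
  · intro i z hz
    have hEρ : 1 ≤ E * ρ := by nlinarith
    rw [norm_mul, norm_pow, Complex.norm_exp]
    have h1 : ‖z‖ ^ (i.1 : ℕ) ≤ (E * ρ) ^ K :=
      (pow_le_pow_left₀ (norm_nonneg _) hz _).trans (pow_le_pow_right₀ hEρ i.1.isLt.le)
    have h2 : (((i.2 : ℕ) : ℂ) * (w : ℂ) * z).re ≤ L * w * (E * ρ) := by
      have h3 : (((i.2 : ℕ) : ℂ) * (w : ℂ) * z).re = (i.2 : ℕ) * w * z.re := by
        simp [Complex.mul_re]
      rw [h3]
      have h4 : z.re ≤ E * ρ := (Complex.re_le_norm z).trans hz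
      have h5 : ((i.2 : ℕ) : ℝ) * w ≤ L * w :=
        mul_le_mul_of_nonneg_right (by exact_mod_cast i.2.isLt.le) hw
      have h6 : (0 : ℝ) ≤ ((i.2 : ℕ) : ℝ) * w := by positivity
      calc ((i.2 : ℕ) : ℝ) * w * z.re ≤ ((i.2 : ℕ) : ℝ) * w * (E * ρ) :=
            mul_le_mul_of_nonneg_left h4 h6
        _ ≤ L * w * (E * ρ) := mul_le_mul_of_nonneg_right h5 (by linarith)
    exact mul_le_mul h1 (Real.exp_le_exp.mpr h2) (Real.exp_pos _).le (by positivity)

end Pool.Agent.Helper10.EP
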