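import Pool.Agent.Helper10.EP.A3

/-!
The main argument for the Gelfond type bound.
-/

namespace Pool.Agent.Helper10.EP

open Finset

/-- `exp n ≤ G ^ n` for `G ≥ 3`. -/
theorem exp_nat_le (G : ℝ) (hG : 3 ≤ G) (n : ℕ) : Real.exp (n : ℝ) ≤ G ^ n := by
  have h1 : Real.exp (n : ℝ) = Real.exp 1 ^ n := by
    rw [← Real.exp_nat_mul, mul_one]
  rw [h1]
  refine pow_le_pow_left₀ (Real.exp_pos _).le ?_ n
  linarith [Real.exp_one_lt_d9]

/-- exponent bookkeeping, first inequality -/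
theorem expo_one (G : ℕ) (hG : 2 ^ 120 ≤ G) :
    121 * G ^ 8 * (G ^ 8 * 1024) + 9 * (G ^ 8 * 1024) +
      (7 * G ^ 8 + 2048 * G ^ 7) * (G ^ 8 * 1024) + 1 ≤
      (G ^ 8 * 1024) * (G ^ 8 * 1024 - 1) / 2 := by
  have hG1 : 1 ≤ G := le_trans (by norm_num) hG
  have hG2 : 2048 ≤ G := le_trans (by norm_num) hG
  have h8 : 1 ≤ G ^ 8 := Nat.one_le_pow _ _ hG1
  have h87 : 2048 * G ^ 7 ≤ G ^ 8 := by
    calc 2048 * G ^ 7 ≤ G * G ^ 7 := Nat.mul_le_mul_right _ hG2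
      _ = G ^ 8 := by ring
  rw [Nat.le_div_iff_mul_le (by norm_num)]
  generalize hA : G ^ 8 = A at *
  generalize G ^ 7 = B at *
  have h1 : A * 1024 - 1 ≥ 1023 * A := by omega
  calc (121 * A * (A * 1024) + 9 * (A * 1024) + (7 * A + 2048 * B) * (A * 1024) + 1) * 2
      ≤ (121 * A * (A * 1024) + 9 * A * (A * 1024) + (7 * A + A) * (A * 1024) +
          A * (A * 1024)) * 2 := by
        apply Nat.mul_le_mul_right
        have e1 : 9 * (A * 1024) ≤ 9 * A * (A * 1024) := by nlinarith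
        have e2 : (7 * A + 2048 * B) * (A * 1024) ≤ (7 * A + A) * (A * 1024) :=
          Nat.mul_le_mul_right _ (by omega)
        have e3 : 1 ≤ A * (A * 1024) := by nlinarith
        omega
    _ ≤ (A * 1024) * (1023 * A) := by nlinarith
    _ ≤ (A * 1024) * (A * 1024 - 1) := Nat.mul_le_mul_left _ h1

/-- exponent bookkeeping, second inequality -/
theorem expo_two (G : ℕ) (hG : 2 ^ 120 ≤ G) :
    121 * G ^ 8 * (G ^ 8 * 1024) + 9 * (G ^ 8 * 1024) + 9 +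
      (1 + 6 * G ^ 8 + 2048 * G ^ 6) * (G ^ 8 * 1024) + (1 + 6 * G ^ 8 + 2048 * G ^ 6) + 1 ≤
      G ^ 19 := by
  have hG1 : 1 ≤ G := le_trans (by norm_num) hG
  have hG2 : 2048 ≤ G := le_trans (by norm_num) hG
  have h8 : 1 ≤ G ^ 8 := Nat.one_le_pow _ _ hG1
  have h86 : 2048 * G ^ 6 ≤ G ^ 8 := by
    calc 2048 * G ^ 6 ≤ G * G ^ 6 := Nat.mul_le_mul_right _ hG2
      _ = G ^ 7 := by ring
      _ ≤ G ^ 8 := Nat.pow_le_pow_right hG1 (by norm_num)
  have h19 : 1000000 * (G ^ 8 * G ^ 8) ≤ G ^ 19 := by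
    calc 1000000 * (G ^ 8 * G ^ 8) ≤ G ^ 3 * (G ^ 8 * G ^ 8) := by
          apply Nat.mul_le_mul_right
          calc 1000000 ≤ 2048 ^ 3 := by norm_num
            _ ≤ G ^ 3 := Nat.pow_le_pow_left hG2 3
      _ = G ^ 19 := by ring
  refine le_trans ?_ h19
  generalize G ^ 8 = A at *
  generalize G ^ 6 = B at *
  have e1 : 9 * (A * 1024) ≤ 9216 * (A * A) := by nlinarith
  have e2 : (1 + 6 * A + 2048 * B) * (A * 1024) ≤ 8192 * (A * A) := by nlinarith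
  have e3 : 9 ≤ 9 * (A * A) := by nlinarith
  have e4 : 1 + 6 * A + 2048 * B + 1 ≤ 9 * (A * A) := by nlinarith
  have e5 : 121 * A * (A * 1024) = 123904 * (A * A) := by ring
  omega

end Pool.Agent.Helper10.EP
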