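import Pool.Agent.Helper10.EP.A4

/-!
The Gelfond type bound.
-/

namespace Pool.Agent.Helper10.EP

open Finset

/-- The main case: no small multiple of `b / c` is an integer. -/
theorem gelfond_main (G : ℕ) (hG : 2 ^ 120 ≤ G) (p q : ℕ) (hp : p.Prime) (hq : q.Prime)
    (b c : ℕ) (hb : 1 ≤ b) (hc1 : G ^ 120 ≤ c) (hc2 : c < (G + 1) ^ 120)
    (hlp : Real.log p ≤ G) (hlq : Real.log q ≤ G) (hbc : (b : ℝ) ≤ c * G)
    (hdiv : ∀ t : ℕ, 1 ≤ t → t < G ^ 4 → ¬ c ∣ t * b)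
    (hL : |(c : ℝ) * Real.log p - b * Real.log q| < Real.exp (-(G : ℝ) ^ 20)) : False := by
  have hG1 : 1 ≤ G := le_trans (by norm_num) hG
  have hG2048 : 2048 ≤ G := le_trans (by norm_num) hG
  have hGR : (2048 : ℝ) ≤ G := by exact_mod_cast hG2048
  have hGR1 : (1 : ℝ) ≤ G := by linarith
  have hc : 1 ≤ c := le_trans (Nat.one_le_pow _ _ hG1) hc1
  have hcR : (1 : ℝ) ≤ c := by exact_mod_cast hc
  have hcR0 : (0 : ℝ) < c := by linarith
  set Λ : ℝ := (c : ℝ) * Real.log p - b * Real.log q with hΛ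
  set w : ℝ := Real.log q with hw
  have hw0 : 0 ≤ w := Real.log_nonneg (by exact_mod_cast hq.one_le)
  -- the bound for `c`
  have hcG : (c : ℝ) ≤ (G : ℝ) ^ 121 := by
    have h1 : c ≤ G ^ 121 := by
      calc c ≤ (G + 1) ^ 120 := hc2.le
        _ ≤ (2 * G) ^ 120 := Nat.pow_le_pow_left (by omega) _
        _ = 2 ^ 120 * G ^ 120 := by rw [mul_pow]
        _ ≤ G * G ^ 120 := Nat.mul_le_mul_right _ hG
        _ = G ^ 121 := by ring
    exact_mod_cast h1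
  have hc1024 : 1024 * (G : ℝ) ^ 4 ≤ c := by
    have : 1024 * G ^ 4 ≤ c := by
      refine le_trans ?_ hc1
      calc 1024 * G ^ 4 ≤ G * G ^ 4 := Nat.mul_le_mul_right _ (by omega)
        _ = G ^ 5 := by ring
        _ ≤ G ^ 120 := Nat.pow_le_pow_right hG1 (by norm_num)
    exact_mod_cast this
  have hexpo1 := expo_one G hG
  have hexpo2 := expo_two G hG
  clear hc1 hc2 hG
  have hΛ1 : |Λ| ≤ 1 := by
    refine hL.le.trans ?_
    rw [Real.exp_le_one_iff]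
    have : (0 : ℝ) ≤ (G : ℝ) ^ 20 := by positivity
    linarith
  -- the integer matrix
  have hcount : 1024 * G ^ 8 ≤ (G ^ 5 + 1 - 1024) * G ^ 4 := by
    have h4 : 1 ≤ G ^ 4 := Nat.one_le_pow _ _ hG1
    have h5 : 2048 * G ^ 4 ≤ G ^ 5 := by
      calc 2048 * G ^ 4 ≤ G * G ^ 4 := Nat.mul_le_mul_right _ hG2048
        _ = G ^ 5 := by ring
    have h6 : 1024 * G ^ 4 ≤ G ^ 5 + 1 - 1024 := by omega
    calc 1024 * G ^ 8 = (1024 * G ^ 4) * G ^ 4 := by ring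
      _ ≤ _ := Nat.mul_le_mul_right _ h6
  have hinj : ∀ r t r' t' : ℕ, r < G ^ 5 → t < G ^ 4 → r' < G ^ 5 → t' < G ^ 4 →
      r * c + t * b = r' * c + t' * b → r = r' ∧ t = t' := by
    have key : ∀ r t r' t' : ℕ, t < G ^ 4 → t' < G ^ 4 → t ≤ t' →
        r * c + t * b = r' * c + t' * b → r = r' ∧ t = t' := by
      intro r t r' t' ht ht' htt h
      obtain ⟨d, rfl⟩ := Nat.exists_eq_add_of_le htt
      have h1 : r * c = r' * c + d * b := by
        have : r * c + t * b = (r' * c + d * b) + t * b := by rw [h]; ring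
        exact Nat.add_right_cancel this
      have hd : d = 0 := by
        by_contra hd
        refine hdiv d (by omega) (by omega) ?_
        have h2 : c ∣ r' * c + d * b := ⟨r, by rw [← h1]; ring⟩
        exact (Nat.dvd_add_right (Dvd.intro_left _ rfl)).mp h2
      subst hd
      refine ⟨?_, by simp⟩
      have : r * c = r' * c := by simpa using h1
      exact Nat.eq_of_mul_eq_mul_right (by omega) this
    intro r t r' t' _ ht _ ht' h
    rcases le_total t t' with h1 | h1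
    · exact key r t r' t' ht ht' h1 h
    · have := key r' t' r t ht' ht h1 h.symm
      exact ⟨this.1.symm, this.2.symm⟩
  have hK1 : 1 ≤ G ^ 8 := Nat.one_le_pow _ _ hG1
  have hLR0 : 1024 ≤ G ^ 5 := le_trans (show 1024 ≤ G by omega) (Nat.le_self_pow (by norm_num) G)
  have hN9 : G ^ 8 * 1024 ≤ G ^ 9 := by
    calc G ^ 8 * 1024 ≤ G ^ 8 * G := Nat.mul_le_mul_left _ (by omega)
      _ = G ^ 9 := by ring
  obtain ⟨L, hL1024⟩ : ∃ L : ℕ, L = 1024 := ⟨_, rfl⟩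
  obtain ⟨K, hK8⟩ : ∃ K : ℕ, K = G ^ 8 := ⟨_, rfl⟩
  rw [← hK8, ← hL1024] at hcount hN9 hexpo1 hexpo2
  rw [← hK8] at hK1
  rw [← hL1024] at hLR0
  have hL1 : 1 ≤ L := by omega
  have hLle : (L : ℝ) ≤ 1024 := by rw [hL1024]; norm_num
  have hLle' : (L : ℝ) = 1024 := by rw [hL1024]; norm_num
  obtain ⟨f, hf, hdet⟩ := exists_det_ne_zero p q hp hq K L (G ^ 5) (G ^ 4) b c
    hK1 hL1 hLR0 hc hcount hinj
  set x : Fin K × Fin L → ℝ := fun j => (((f j).1 : ℝ) * c + (f j).2 * b) / c with hx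
  set ρ : ℝ := 2 * (G : ℝ) ^ 5 with hρ
  have hρ1 : 1 ≤ ρ := by
    have : (1 : ℝ) ≤ (G : ℝ) ^ 5 := one_le_pow₀ hGR1
    rw [hρ]; linarith
  have hx0 : ∀ j, 0 ≤ x j := fun j => by rw [hx]; positivity
  have hxρ : ∀ j, x j ≤ ρ := by
    intro j
    rw [hx]
    show (((f j).1 : ℝ) * c + (f j).2 * b) / c ≤ ρ
    rw [div_le_iff₀ hcR0, hρ]
    have h1 : ((f j).1 : ℝ) ≤ (G : ℝ) ^ 5 := by exact_mod_cast (hf j).1.le
    have h2 : ((f j).2 : ℝ) ≤ (G : ℝ) ^ 4 := by exact_mod_cast (hf j).2.le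
    have h3 : ((f j).1 : ℝ) * c ≤ (G : ℝ) ^ 5 * c := mul_le_mul_of_nonneg_right h1 hcR0.le
    have h4 : ((f j).2 : ℝ) * b ≤ (G : ℝ) ^ 4 * (c * G) :=
      mul_le_mul h2 hbc (by positivity) (by positivity)
    calc ((f j).1 : ℝ) * c + (f j).2 * b ≤ (G : ℝ) ^ 5 * c + (G : ℝ) ^ 4 * (c * G) := by linarith
      _ = 2 * (G : ℝ) ^ 5 * c := by ring
  set a : Matrix (Fin K × Fin L) (Fin K × Fin L) ℝ :=
    Matrix.of fun i j => x j ^ (i.1 : ℕ) * ((q : ℝ) ^ (f j).1 * (p : ℝ) ^ (f j).2) ^ (i.2 : ℕ)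
    with ha
  set a0 : Matrix (Fin K × Fin L) (Fin K × Fin L) ℝ :=
    Matrix.of fun i j => x j ^ (i.1 : ℕ) * Real.exp ((i.2 : ℕ) * w * x j) with ha0
  have hlow := det_lower c hc _ hdet a (by
    intro i j
    rw [ha]
    simp only [Matrix.of_apply]
    push_cast
    have h1 : ((f j).1 : ℝ) * c + (f j).2 * b = c * x j := by
      rw [hx]; field_simp
    rw [h1, mul_pow]
    ring)
  -- relation of the two matrices
  have hrel : ∀ i j, a i j = a0 i j * Real.exp ((i.2 : ℕ) * ((f j).2 * Λ / c)) := by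
    intro i j
    rw [ha, ha0]
    simp only [Matrix.of_apply]
    rw [mul_assoc, ← Real.exp_add]
    congr 1
    have hqpos : (0 : ℝ) < q := by exact_mod_cast hq.pos
    have hppos : (0 : ℝ) < p := by exact_mod_cast hp.pos
    have h1 : ((q : ℝ) ^ (f j).1 * (p : ℝ) ^ (f j).2) =
        Real.exp ((f j).1 * Real.log q + (f j).2 * Real.log p) := by
      rw [Real.exp_add, Real.exp_nat_mul, Real.exp_nat_mul, Real.exp_log hqpos,
        Real.exp_log hppos]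
    rw [h1, ← Real.exp_nat_mul]
    congr 1
    rw [hx, hΛ, hw]
    field_simp
    ring
  set H0 : ℝ := ρ ^ K * Real.exp (1024 * w * ρ) with hH0
  have hH01 : 1 ≤ H0 := by
    rw [hH0]
    have h1 : (1 : ℝ) ≤ ρ ^ K := one_le_pow₀ hρ1
    have h2 : (1 : ℝ) ≤ Real.exp (1024 * w * ρ) := Real.one_le_exp (by positivity)
    nlinarith
  have ha0H : ∀ i j, |a0 i j| ≤ H0 := by
    intro i j
    rw [ha0]
    simp only [Matrix.of_apply]
    rw [abs_of_nonneg (mul_nonneg (pow_nonneg (hx0 j) _) (Real.exp_pos _).le), hH0]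
    apply mul_le_mul
    · exact (pow_le_pow_left₀ (hx0 j) (hxρ j) _).trans (pow_le_pow_right₀ hρ1 i.1.isLt.le)
    · apply Real.exp_le_exp.mpr
      have h1 : ((i.2 : ℕ) : ℝ) ≤ 1024 := le_trans (by exact_mod_cast i.2.isLt.le) hLle
      have h2 : ((i.2 : ℕ) : ℝ) * w ≤ 1024 * w := mul_le_mul_of_nonneg_right h1 hw0
      exact mul_le_mul h2 (hxρ j) (hx0 j) (by positivity)
    · exact (Real.exp_pos _).le
    · positivity
  have hy : ∀ i j : Fin K × Fin L, |((i.2 : ℕ) : ℝ) * ((f j).2 * Λ / c)| ≤ |Λ| := by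
    intro i j
    rw [abs_mul, abs_div, abs_mul, abs_of_nonneg (by positivity : (0 : ℝ) ≤ ((i.2 : ℕ) : ℝ)),
      abs_of_nonneg (by positivity : (0 : ℝ) ≤ ((f j).2 : ℝ)), abs_of_pos hcR0]
    have h1 : ((i.2 : ℕ) : ℝ) ≤ 1024 := le_trans (by exact_mod_cast i.2.isLt.le) hLle
    have h2 : ((f j).2 : ℝ) ≤ (G : ℝ) ^ 4 := by exact_mod_cast (hf j).2.le
    have h3 : 1024 * (G : ℝ) ^ 4 ≤ c := hc1024
    have h4 : ((i.2 : ℕ) : ℝ) * (((f j).2 : ℝ) * |Λ| / c) =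
        (((i.2 : ℕ) : ℝ) * ((f j).2 : ℝ) / c) * |Λ| := by ring
    rw [h4]
    have h5 : ((i.2 : ℕ) : ℝ) * ((f j).2 : ℝ) / c ≤ 1 := by
      rw [div_le_one hcR0]
      calc ((i.2 : ℕ) : ℝ) * ((f j).2 : ℝ) ≤ 1024 * (G : ℝ) ^ 4 :=
            mul_le_mul h1 h2 (by positivity) (by norm_num)
        _ ≤ c := h3
    calc _ ≤ 1 * |Λ| := mul_le_mul_of_nonneg_right h5 (abs_nonneg _)
      _ = |Λ| := one_mul _
  have haH : ∀ i j, |a i j| ≤ 3 * H0 := by
    intro i j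
    rw [hrel, abs_mul, Real.abs_exp]
    have h1 : Real.exp (((i.2 : ℕ) : ℝ) * ((f j).2 * Λ / c)) ≤ 3 := by
      have h2 : ((i.2 : ℕ) : ℝ) * ((f j).2 * Λ / c) ≤ 1 :=
        (le_abs_self _).trans ((hy i j).trans hΛ1)
      have h3 : Real.exp (((i.2 : ℕ) : ℝ) * ((f j).2 * Λ / c)) ≤ Real.exp 1 :=
        Real.exp_le_exp.mpr h2
      linarith [Real.exp_one_lt_d9]
    calc |a0 i j| * Real.exp _ ≤ H0 * 3 :=
          mul_le_mul (ha0H i j) h1 (Real.exp_pos _).le (by linarith)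
      _ = 3 * H0 := by ring
  have hdiff : ∀ i j, |a i j - a0 i j| ≤ 3 * H0 * |Λ| := by
    intro i j
    have h1 : a i j - a0 i j = a0 i j * (Real.exp ((i.2 : ℕ) * ((f j).2 * Λ / c)) - 1) := by
      rw [hrel]; ring
    rw [h1, abs_mul]
    have h2 := abs_exp_sub_one_le' _ ((hy i j).trans hΛ1)
    have h3 := hy i j
    calc |a0 i j| * |Real.exp ((i.2 : ℕ) * ((f j).2 * Λ / c)) - 1| ≤ H0 * (2 * |Λ|) :=
          mul_le_mul (ha0H i j) (by linarith) (abs_nonneg _) (by linarith)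
      _ ≤ 3 * H0 * |Λ| := by nlinarith [abs_nonneg Λ]
  have hpert := abs_det_sub_det_le a a0 (3 * H0) (3 * H0 * |Λ|) (by linarith) (by positivity)
    haH (fun i j => (ha0H i j).trans (by linarith)) hdiff
  have hup := det_upper (K := K) (L := L) x w ρ (G : ℝ) hw0 hρ1 hGR1
    (fun j => by rw [abs_of_nonneg (hx0 j)]; exact hxρ j)
  rw [Fintype.card_prod, Fintype.card_fin, Fintype.card_fin] at hpert
  change |a0.det| ≤ _ at hup
  -- powers of `G`
  have hGpos : (0 : ℝ) < G := by linarith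
  obtain ⟨N, hN⟩ : ∃ N : ℕ, N = K * L := ⟨_, rfl⟩
  rw [← hN] at hup hpert hlow hN9 hexpo1 hexpo2
  rw [hLle'] at hup
  have hNG : (N : ℝ) ≤ (G : ℝ) ^ 9 := by exact_mod_cast hN9
  have hfac : (N.factorial : ℝ) ≤ (G : ℝ) ^ (9 * N) := by
    calc (N.factorial : ℝ) ≤ (N : ℝ) ^ N := by exact_mod_cast Nat.factorial_le_pow N
      _ ≤ ((G : ℝ) ^ 9) ^ N := pow_le_pow_left₀ (Nat.cast_nonneg _) hNG N
      _ = (G : ℝ) ^ (9 * N) := by rw [pow_mul]
  have hcpow : ((c : ℝ) ^ K) ^ N ≤ (G : ℝ) ^ (121 * K * N) := by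
    calc ((c : ℝ) ^ K) ^ N ≤ (((G : ℝ) ^ 121) ^ K) ^ N :=
          pow_le_pow_left₀ (by positivity) (pow_le_pow_left₀ hcR0.le hcG _) _
      _ = (G : ℝ) ^ (121 * K * N) := by rw [← pow_mul, ← pow_mul, mul_assoc]
  have hρG : ρ ≤ (G : ℝ) ^ 6 := by
    rw [hρ]
    calc 2 * (G : ℝ) ^ 5 ≤ G * (G : ℝ) ^ 5 := by
          apply mul_le_mul_of_nonneg_right (by linarith) (by positivity)
      _ = (G : ℝ) ^ 6 := by ring
  have hGρ : (G : ℝ) * ρ ≤ (G : ℝ) ^ 7 := by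
    calc (G : ℝ) * ρ ≤ G * (G : ℝ) ^ 6 := mul_le_mul_of_nonneg_left hρG hGpos.le
      _ = (G : ℝ) ^ 7 := by ring
  have hexp1 : Real.exp (1024 * w * ((G : ℝ) * ρ)) ≤ (G : ℝ) ^ (2048 * G ^ 7) := by
    have h1 : 1024 * w * ((G : ℝ) * ρ) ≤ ((2048 * G ^ 7 : ℕ) : ℝ) := by
      push_cast
      rw [hρ]
      calc 1024 * w * ((G : ℝ) * (2 * (G : ℝ) ^ 5)) ≤ 1024 * G * ((G : ℝ) * (2 * (G : ℝ) ^ 5)) := by
            apply mul_le_mul_of_nonneg_right (by linarith) (by positivity)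
        _ = 2048 * (G : ℝ) ^ 7 := by ring
    exact (Real.exp_le_exp.mpr h1).trans (exp_nat_le _ (by linarith) _)
  have hexp2 : Real.exp (1024 * w * ρ) ≤ (G : ℝ) ^ (2048 * G ^ 6) := by
    have h1 : 1024 * w * ρ ≤ ((2048 * G ^ 6 : ℕ) : ℝ) := by
      push_cast
      rw [hρ]
      calc 1024 * w * (2 * (G : ℝ) ^ 5) ≤ 1024 * G * (2 * (G : ℝ) ^ 5) := by
            apply mul_le_mul_of_nonneg_right (by linarith) (by positivity)
        _ = 2048 * (G : ℝ) ^ 6 := by ring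
    exact (Real.exp_le_exp.mpr h1).trans (exp_nat_le _ (by linarith) _)
  -- first estimate
  have hest1 : ((c : ℝ) ^ K) ^ N * |a0.det| ≤ 1 / 4 := by
    set m0 : ℕ := N * (N - 1) / 2 with hm0
    have h1 : (((G : ℝ) * ρ) ^ K * Real.exp (1024 * w * (G * ρ))) ^ N ≤
        (G : ℝ) ^ ((7 * K + 2048 * G ^ 7) * N) := by
      calc (((G : ℝ) * ρ) ^ K * Real.exp (1024 * w * (G * ρ))) ^ N
          ≤ (((G : ℝ) ^ 7) ^ K * (G : ℝ) ^ (2048 * G ^ 7)) ^ N := by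
            apply pow_le_pow_left₀ (by positivity)
            exact mul_le_mul (pow_le_pow_left₀ (by positivity) hGρ _) hexp1
              (Real.exp_pos _).le (by positivity)
        _ = (G : ℝ) ^ ((7 * K + 2048 * G ^ 7) * N) := by
            rw [← pow_mul, ← pow_add, ← pow_mul]
    have h2 : |a0.det| ≤ (G : ℝ) ^ (9 * N) * (G : ℝ) ^ ((7 * K + 2048 * G ^ 7) * N) /
        (G : ℝ) ^ m0 := by
      refine hup.trans ?_
      apply div_le_div_of_nonneg_right _ (by positivity)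
      exact mul_le_mul hfac h1 (by positivity) (by positivity)
    have h3 : ((c : ℝ) ^ K) ^ N * |a0.det| ≤
        (G : ℝ) ^ (121 * K * N) * ((G : ℝ) ^ (9 * N) *
          (G : ℝ) ^ ((7 * K + 2048 * G ^ 7) * N) / (G : ℝ) ^ m0) :=
      mul_le_mul hcpow h2 (abs_nonneg _) (by positivity)
    refine h3.trans ?_
    rw [mul_div_assoc', ← pow_add, ← pow_add, div_le_iff₀ (by positivity)]
    have h4 := hexpo1
    have h5 : (G : ℝ) ^ (121 * K * N + (9 * N + (7 * K + 2048 * G ^ 7) * N)) * G ≤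
        (G : ℝ) ^ m0 := by
      rw [← pow_succ]
      apply pow_le_pow_right₀ hGR1
      omega
    have h6 : (0 : ℝ) ≤ (G : ℝ) ^ (121 * K * N + (9 * N + (7 * K + 2048 * G ^ 7) * N)) := by
      positivity
    nlinarith
  -- second estimate
  have hest2 : ((c : ℝ) ^ K) ^ N * |a.det - a0.det| ≤ 1 / 4 := by
    obtain ⟨e2, he2⟩ : ∃ e2 : ℕ, e2 = 1 + 6 * K + 2048 * G ^ 6 := ⟨_, rfl⟩
    have h1 : 3 * H0 ≤ (G : ℝ) ^ e2 := by
      rw [hH0, he2]
      calc 3 * (ρ ^ K * Real.exp (1024 * w * ρ))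
          ≤ G * (((G : ℝ) ^ 6) ^ K * (G : ℝ) ^ (2048 * G ^ 6)) := by
            apply mul_le_mul (by linarith) _ (by positivity) (by positivity)
            exact mul_le_mul (pow_le_pow_left₀ (by linarith) hρG _) hexp2
              (Real.exp_pos _).le (by positivity)
        _ = (G : ℝ) ^ (1 + 6 * K + 2048 * G ^ 6) := by
            rw [← pow_mul, ← pow_add, ← pow_succ']
            congr 1
            ring
    have h2 : |Λ| ≤ 1 / (G : ℝ) ^ (G ^ 19) := by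
      refine hL.le.trans ?_
      rw [Real.exp_neg, ← one_div]
      apply one_div_le_one_div_of_le (by positivity)
      have h3 : (G : ℝ) ≤ Real.exp (G : ℝ) := by
        have := Real.add_one_le_exp (G : ℝ)
        linarith
      calc (G : ℝ) ^ (G ^ 19) ≤ (Real.exp (G : ℝ)) ^ (G ^ 19) :=
            pow_le_pow_left₀ hGpos.le h3 _
        _ = Real.exp ((G : ℝ) ^ 20) := by
            rw [← Real.exp_nat_mul]
            congr 1
            push_cast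
            ring
    have h3 : (3 * H0) ^ N * (3 * H0 * |Λ|) ≤
        (G : ℝ) ^ (e2 * N) * ((G : ℝ) ^ e2 * (1 / (G : ℝ) ^ (G ^ 19))) := by
      apply mul_le_mul _ _ (by positivity) (by positivity)
      · calc (3 * H0) ^ N ≤ ((G : ℝ) ^ e2) ^ N := pow_le_pow_left₀ (by linarith) h1 _
          _ = (G : ℝ) ^ (e2 * N) := by rw [← pow_mul]
      · exact mul_le_mul h1 h2 (abs_nonneg _) (by positivity)
    have h4 : |a.det - a0.det| ≤ (G : ℝ) ^ (9 * N) * ((G : ℝ) ^ 9 *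
        ((G : ℝ) ^ (e2 * N) * ((G : ℝ) ^ e2 * (1 / (G : ℝ) ^ (G ^ 19))))) := by
      refine hpert.trans ?_
      apply mul_le_mul hfac _ (by positivity) (by positivity)
      exact mul_le_mul hNG h3 (by positivity) (by positivity)
    have h5 : ((c : ℝ) ^ K) ^ N * |a.det - a0.det| ≤ (G : ℝ) ^ (121 * K * N) *
        ((G : ℝ) ^ (9 * N) * ((G : ℝ) ^ 9 *
        ((G : ℝ) ^ (e2 * N) * ((G : ℝ) ^ e2 * (1 / (G : ℝ) ^ (G ^ 19)))))) :=
      mul_le_mul hcpow h4 (abs_nonneg _) (by positivity)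
    refine h5.trans ?_
    have h6 : (G : ℝ) ^ (121 * K * N) *
        ((G : ℝ) ^ (9 * N) * ((G : ℝ) ^ 9 *
        ((G : ℝ) ^ (e2 * N) * ((G : ℝ) ^ e2 * (1 / (G : ℝ) ^ (G ^ 19)))))) =
        (G : ℝ) ^ (121 * K * N + 9 * N + 9 + e2 * N + e2) / (G : ℝ) ^ (G ^ 19) := by
      rw [pow_add, pow_add, pow_add, pow_add]
      ring
    rw [h6, div_le_iff₀ (by positivity)]
    have h7 := hexpo2
    rw [← he2] at h7
    have h8 : (G : ℝ) ^ (121 * K * N + 9 * N + 9 + e2 * N + e2) * G ≤ (G : ℝ) ^ (G ^ 19) := by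
      rw [← pow_succ]
      apply pow_le_pow_right₀ hGR1
      omega
    have h9 : (0 : ℝ) ≤ (G : ℝ) ^ (121 * K * N + 9 * N + 9 + e2 * N + e2) := by positivity
    nlinarith
  have habs : |a.det| ≤ |a.det - a0.det| + |a0.det| := by
    have := abs_add_le (a.det - a0.det) a0.det
    simpa using this
  have hfin : ((c : ℝ) ^ K) ^ N * |a.det| ≤ 1 / 4 + 1 / 4 := by
    calc ((c : ℝ) ^ K) ^ N * |a.det|
        ≤ ((c : ℝ) ^ K) ^ N * (|a.det - a0.det| + |a0.det|) :=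
          mul_le_mul_of_nonneg_left habs (by positivity)
      _ = ((c : ℝ) ^ K) ^ N * |a.det - a0.det| + ((c : ℝ) ^ K) ^ N * |a0.det| := by
          ring
      _ ≤ _ := add_le_add hest2 hest1
  have : (1 : ℝ) ≤ 1 / 4 + 1 / 4 := hlow.trans hfin
  norm_num at this

/-- the easy case, conclusion -/
theorem gelfond_easy (G p t : ℕ) (hGR : (2048 : ℝ) ≤ G) (hp : p.Prime) (hlp : Real.log p ≤ G)
    (ht : t < G ^ 4) (Λ : ℝ) (h1 : 1 / (2 * (p : ℝ) ^ t) ≤ Λ) (hL : Λ < Real.exp (-(G : ℝ) ^ 20)) :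
    False := by
  have hppos : (0 : ℝ) < p := by exact_mod_cast hp.pos
  have h2 : (p : ℝ) ^ t ≤ Real.exp ((G : ℝ) ^ 5) := by
    have h3 : (p : ℝ) ^ t = Real.exp (t * Real.log p) := by
      rw [Real.exp_nat_mul, Real.exp_log hppos]
    rw [h3]
    apply Real.exp_le_exp.mpr
    have h4 : (t : ℝ) ≤ (G : ℝ) ^ 4 := by exact_mod_cast ht.le
    have h6 : 0 ≤ Real.log p := Real.log_nonneg (by exact_mod_cast hp.one_le)
    calc (t : ℝ) * Real.log p ≤ (G : ℝ) ^ 4 * G := mul_le_mul h4 hlp h6 (by positivity)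
      _ = (G : ℝ) ^ 5 := by ring
  have h3 : 1 / (2 * (p : ℝ) ^ t) < Real.exp (-(G : ℝ) ^ 20) := lt_of_le_of_lt h1 hL
  have hppos : (0 : ℝ) < (p : ℝ) ^ t := by positivity
  rw [Real.exp_neg, ← one_div] at h3
  have h4 := lt_of_one_div_lt_one_div (by positivity) h3
  have h5 : Real.exp ((G : ℝ) ^ 20) ≥ Real.exp ((G : ℝ) ^ 5 + 1) := by
    apply Real.exp_le_exp.mpr
    have h6 : (G : ℝ) ^ 5 + 1 ≤ (G : ℝ) ^ 5 * G := by
      have : (1 : ℝ) ≤ (G : ℝ) ^ 5 := one_le_pow₀ (by linarith)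
      nlinarith
    calc (G : ℝ) ^ 5 + 1 ≤ (G : ℝ) ^ 5 * G := h6
      _ = (G : ℝ) ^ 6 := by ring
      _ ≤ (G : ℝ) ^ 20 := pow_le_pow_right₀ (by linarith) (by norm_num)
  rw [Real.exp_add] at h5
  have h7 : (2 : ℝ) ≤ Real.exp 1 := by linarith [Real.exp_one_gt_d9]
  have h8 : 0 < Real.exp ((G : ℝ) ^ 5) := Real.exp_pos _
  generalize Real.exp ((G : ℝ) ^ 20) = A at *
  generalize Real.exp ((G : ℝ) ^ 5) = B at *
  nlinarith

theorem exp_neg_le_one (g : ℝ) (hg : 0 ≤ g) : Real.exp (-g ^ 20) ≤ 1 := by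
  rw [Real.exp_le_one_iff, neg_nonpos]
  positivity

theorem half_le_log_prime (q : ℕ) (hq : q.Prime) : (1 : ℝ) / 2 ≤ Real.log q := by
  have h2 : Real.log 2 ≤ Real.log q :=
    Real.log_le_log (by norm_num) (by exact_mod_cast hq.two_le)
  refine le_trans ?_ h2
  linarith [Real.log_two_gt_d9]

theorem le_of_small (x S g : ℝ) (hx : x ≤ S) (hg : 0 ≤ g) (hS : S + 1 ≤ g / 2) : x ≤ g := by
  linarith

/-- the bound `b ≤ c G` -/
theorem bc_bound (b c g lp lq S : ℝ) (hb : 0 ≤ b) (hc : 1 ≤ c) (hlp : lp ≤ S) (hlq : 1 / 2 ≤ lq)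
    (hS : S + 1 ≤ g / 2) (h : |c * lp - b * lq| ≤ 1) : b ≤ c * g := by
  have h1 : b * lq ≤ c * lp + 1 := by
    have := (abs_le.mp h).1
    linarith
  have h4 : b * (1 / 2) ≤ b * lq := mul_le_mul_of_nonneg_left hlq hb
  have h5 : c * lp ≤ c * S := mul_le_mul_of_nonneg_left hlp (by linarith)
  have h6 : c * (S + 1) ≤ c * (g / 2) := mul_le_mul_of_nonneg_left hS (by linarith)
  nlinarith

/-- rpow computation -/
theorem rpow_root (G c : ℕ) (h : G ^ 120 ≤ c) : (G : ℝ) ^ 20 ≤ (c : ℝ) ^ ((1 : ℝ) / 6) := by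
  have h1 : ((G : ℝ) ^ 120) ≤ c := by exact_mod_cast h
  have h2 : ((G : ℝ) ^ 120) ^ ((1 : ℝ) / 6) ≤ (c : ℝ) ^ ((1 : ℝ) / 6) :=
    Real.rpow_le_rpow (by positivity) h1 (by norm_num)
  have h3 : ((G : ℝ) ^ 120) ^ ((1 : ℝ) / 6) = (G : ℝ) ^ 20 := by
    rw [← Real.rpow_natCast, ← Real.rpow_mul (Nat.cast_nonneg _)]
    rw [← Real.rpow_natCast]
    congr 1
    norm_num
  rw [h3] at h2
  exact h2

/-- bound of logarithms -/
theorem log_bound (G c r : ℕ) (hc : 1 ≤ c) (h : c < (G + 1) ^ 120) (hr : r.Prime)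
    (hrc : r ≤ c ^ 10) : Real.log r ≤ 1200 * Real.log ((G : ℝ) + 1) := by
  have hcR0 : (0 : ℝ) < c := by exact_mod_cast hc
  have hlogc : Real.log c ≤ 120 * Real.log ((G : ℝ) + 1) := by
    have h1 : (c : ℝ) ≤ ((G : ℝ) + 1) ^ 120 := by exact_mod_cast h.le
    have h2 := Real.log_le_log hcR0 h1
    rw [Real.log_pow] at h2
    exact_mod_cast h2
  have h1 : (r : ℝ) ≤ (c : ℝ) ^ 10 := by exact_mod_cast hrc
  have h2 := Real.log_le_log (by exact_mod_cast hr.pos) h1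
  rw [Real.log_pow] at h2
  push_cast at h2
  generalize Real.log ((G : ℝ) + 1) = l at *
  linarith

/-- **A Gelfond type bound.** -/
theorem gelfond : ∃ C₀ : ℕ, ∀ p q : ℕ, p.Prime → q.Prime → p ≠ q → ∀ b c : ℕ, 1 ≤ b → C₀ ≤ c →
    p ≤ c ^ 10 → q ≤ c ^ 10 →
    Real.exp (-(c : ℝ) ^ ((1 : ℝ) / 6)) ≤ |(c : ℝ) * Real.log p - b * Real.log q| := by
  refine ⟨(2 ^ 120) ^ 120, ?_⟩
  intro p q hp hq hpq b c hb hC hpc hqc
  by_contra hcon
  push Not at hcon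
  obtain ⟨G, hG1, hG2⟩ := exists_nat_root c 120 (by norm_num)
  have hG : 2 ^ 120 ≤ G := by
    by_contra h
    push Not at h
    exact absurd (lt_of_lt_of_le hG2 (Nat.pow_le_pow_left h 120)) (not_lt.mpr hC)
  clear hC
  have hGone : 1 ≤ G := le_trans (by norm_num) hG
  have hG9 : 10 ^ 9 ≤ G := le_trans (by norm_num) hG
  have hGR : (2048 : ℝ) ≤ G := by exact_mod_cast le_trans (show 2048 ≤ 10 ^ 9 by norm_num) hG9
  have hc : 1 ≤ c := le_trans (Nat.one_le_pow _ _ hGone) hG1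
  have hcR : (1 : ℝ) ≤ c := by exact_mod_cast hc
  have hL20 : |(c : ℝ) * Real.log p - b * Real.log q| < Real.exp (-(G : ℝ) ^ 20) :=
    lt_of_lt_of_le hcon (Real.exp_le_exp.mpr (neg_le_neg (rpow_root G c hG1)))
  have hsmall := log_small G hG9
  have hlp := log_bound G c p hc hG2 hp hpc
  have hlq := log_bound G c q hc hG2 hq hqc
  have hexp1 : Real.exp (-(G : ℝ) ^ 20) ≤ 1 := exp_neg_le_one _ (Nat.cast_nonneg _)
  have hΛ1 : |(c : ℝ) * Real.log p - b * Real.log q| ≤ 1 := hL20.le.trans hexp1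
  have hlq2 : (1 : ℝ) / 2 ≤ Real.log q := half_le_log_prime q hq
  have hbc : (b : ℝ) ≤ c * G :=
    bc_bound b c G (Real.log p) (Real.log q) _ (Nat.cast_nonneg _) hcR hlp hlq2 hsmall hΛ1
  have hlpG : Real.log p ≤ G := le_of_small _ _ _ hlp (Nat.cast_nonneg _) hsmall
  have hlqG : Real.log q ≤ G := le_of_small _ _ _ hlq (Nat.cast_nonneg _) hsmall
  by_cases hdiv : ∃ t : ℕ, 1 ≤ t ∧ t < G ^ 4 ∧ c ∣ t * b
  · obtain ⟨t, ht1, ht2, ht3⟩ := hdiv
    have htc : t ≤ c :=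
      le_trans ht2.le (le_trans (Nat.pow_le_pow_right hGone (by norm_num)) hG1)
    exact gelfond_easy G p t hGR hp hlpG ht2 _ (easy_case p q hp hq hpq b c t hb hc ht1 htc ht3)
      hL20
  · push Not at hdiv
    exact gelfond_main G hG p q hp hq b c hb hG1 hG2 hlpG hlqG hbc
      (fun t h1 h2 => hdiv t h1 h2) hL20

end Pool.Agent.Helper10.EP
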