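import Mathlib

set_option autoImplicit false

open Finset

namespace Pool.Agent.Helper10.EP

/-- A Chebyshev lower bound for the number of primes in `(Y, 4Y]`. -/
theorem card_primes_ge : ∃ Y₀ : ℕ, ∀ Y : ℕ, Y₀ ≤ Y →
    (Y : ℝ) / Real.log (4 * Y) ≤ (((Finset.Ioc Y (4 * Y)).filter Nat.Prime).card : ℝ) := by
  refine ⟨10 ^ 8, fun Y hY => ?_⟩
  have hYr : (10 : ℝ) ^ 8 ≤ Y := by exact_mod_cast hY
  have hY0 : (0 : ℝ) < Y := by linarith [show (0 : ℝ) < 10 ^ 8 by norm_num]
  -- fourth root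
  set z : ℝ := Real.sqrt (Real.sqrt (4 * Y)) with hz
  have hz2 : z ^ 2 = Real.sqrt (4 * Y) := Real.sq_sqrt (Real.sqrt_nonneg _)
  have hz4 : z ^ 4 = 4 * Y := by
    have : z ^ 4 = (z ^ 2) ^ 2 := by ring
    rw [this, hz2, Real.sq_sqrt (by positivity)]
  have hz0 : 0 < z := Real.sqrt_pos.mpr (Real.sqrt_pos.mpr (by positivity))
  have hz100 : 100 ≤ z := by
    by_contra hcon
    push Not at hcon
    have : z ^ 4 < 100 ^ 4 := pow_lt_pow_left₀ hcon hz0.le (by norm_num)
    rw [hz4] at this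
    have h100 : (100 : ℝ) ^ 4 = 10 ^ 8 := by norm_num
    linarith
  have hlogz : Real.log z ≤ z := by
    have := Real.log_le_sub_one_of_pos hz0
    linarith
  have hlog4Y : Real.log (4 * Y) = 4 * Real.log z := by
    rw [← hz4, Real.log_pow]; norm_num
  have hlpos : 0 < Real.log (4 * Y) := Real.log_pos (by linarith [show (1:ℝ) < 10 ^ 8 by norm_num])
  have h1 := Chebyshev.theta_ge (4 * Y)
  have h2 := Chebyshev.theta_le_log4_mul_x (x := (Y : ℝ)) hY0.le
  have hlog4 : Real.log 4 = 2 * Real.log 2 := by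
    rw [show (4 : ℝ) = 2 ^ 2 by norm_num, Real.log_pow]; norm_num
  have hl2 := Real.log_two_gt_d9
  push_cast at h1
  rw [← hz2, hlog4Y] at h1
  have h3 : Real.log (4 * Y + 1) ≤ 4 * z + 1 := by
    have h4 : Real.log (4 * Y + 1) ≤ Real.log (2 * (4 * Y)) :=
      Real.log_le_log (by positivity) (by linarith [show (1:ℝ) < 10 ^ 8 by norm_num])
    rw [Real.log_mul (by norm_num) (by positivity), hlog4Y] at h4
    have := Real.log_two_lt_d9
    linarith
  have h5 : 2 * z ^ 2 * (4 * Real.log z) ≤ 8 * z ^ 3 := by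
    have : z ^ 2 * Real.log z ≤ z ^ 2 * z := by gcongr
    nlinarith
  have h6 : (Y : ℝ) ≤ Chebyshev.theta ((4 * Y : ℕ) : ℝ) - Chebyshev.theta Y := by
    push_cast
    have hYz : (Y : ℝ) = z ^ 4 / 4 := by rw [hz4]; ring
    have h7 : 8 * z ^ 3 ≤ 0.08 * z ^ 4 := by
      have : z ^ 3 * 100 ≤ z ^ 3 * z := by gcongr
      nlinarith
    have h8 : 4 * z + 1 ≤ 0.001 * z ^ 4 := by
      have h9 : (100 : ℝ) ^ 3 * z ≤ z ^ 3 * z := by gcongr
      nlinarith
    nlinarith
  -- the difference of theta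
  have h7 : Chebyshev.theta ((4 * Y : ℕ) : ℝ) - Chebyshev.theta Y
      = ∑ p ∈ (Finset.Ioc Y (4 * Y)).filter Nat.Prime, Real.log p := by
    unfold Chebyshev.theta
    rw [Nat.floor_natCast, Nat.floor_natCast]
    have hsub : (Finset.Ioc 0 (4 * Y)).filter Nat.Prime
        = (Finset.Ioc 0 Y).filter Nat.Prime ∪ (Finset.Ioc Y (4 * Y)).filter Nat.Prime := by
      rw [← filter_union, Finset.Ioc_union_Ioc_eq_Ioc (by omega) (by omega)]
    have hdis : Disjoint ((Finset.Ioc 0 Y).filter Nat.Prime)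
        ((Finset.Ioc Y (4 * Y)).filter Nat.Prime) := by
      rw [Finset.disjoint_left]
      intro p hp hp2
      have a1 := mem_Ioc.mp (mem_filter.mp hp).1
      have a2 := mem_Ioc.mp (mem_filter.mp hp2).1
      omega
    rw [hsub, sum_union hdis]
    ring
  have h8 : ∑ p ∈ (Finset.Ioc Y (4 * Y)).filter Nat.Prime, Real.log p
      ≤ (((Finset.Ioc Y (4 * Y)).filter Nat.Prime).card : ℝ) * Real.log (4 * Y) := by
    rw [← nsmul_eq_mul]
    apply sum_le_card_nsmul
    intro p hp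
    have a1 := mem_Ioc.mp (mem_filter.mp hp).1
    apply Real.log_le_log
    · exact_mod_cast (by omega : 0 < p)
    · exact_mod_cast a1.2
  rw [div_le_iff₀ hlpos]
  linarith

theorem card_log_near (Y : ℕ) (x l : ℝ) (hl : 0 < l) (_hl2 : l ≤ 1 / 2) :
    (((Finset.Ioc Y (4 * Y)).filter fun n : ℕ => |Real.log n - x| < l).card : ℝ)
      ≤ 16 * Y * l + 1 := by
  classical
  set S := (Finset.Ioc Y (4 * Y)).filter fun n : ℕ => |Real.log n - x| < l with hS
  rcases S.eq_empty_or_nonempty with h | h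
  · rw [h]
    simp only [card_empty, Nat.cast_zero]
    positivity
  · set a := S.min' h with ha
    set b := S.max' h with hb
    have haS : a ∈ S := S.min'_mem h
    have hbS : b ∈ S := S.max'_mem h
    have hab : a ≤ b := S.min'_le _ hbS
    have ha1 := mem_Ioc.mp (mem_filter.mp haS).1
    have hb1 := mem_Ioc.mp (mem_filter.mp hbS).1
    have ha2 := abs_lt.mp (mem_filter.mp haS).2
    have hb2 := abs_lt.mp (mem_filter.mp hbS).2
    have hsub : S ⊆ Finset.Icc a b := by
      intro n hn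
      exact mem_Icc.mpr ⟨S.min'_le _ hn, S.le_max' _ hn⟩
    have hcard := card_le_card hsub
    rw [Nat.card_Icc] at hcard
    have ha0 : (0 : ℝ) < a := by exact_mod_cast (by omega : 0 < a)
    have hb0 : (0 : ℝ) < b := by exact_mod_cast (by omega : 0 < b)
    have hlog : Real.log a - Real.log b > -(2 * l) := by linarith
    -- a ≥ b * exp(-2l) ≥ b (1 - 2 l)
    have h1 : (b : ℝ) * (1 - 2 * l) ≤ a := by
      have h2 := Real.add_one_le_exp (-(2 * l))
      have h3 : Real.exp (-(2 * l)) ≤ a / b := by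
        rw [← Real.exp_log (div_pos ha0 hb0), Real.log_div ha0.ne' hb0.ne']
        exact Real.exp_le_exp.mpr hlog.le
      have h4 : 1 - 2 * l ≤ a / b := by linarith
      rw [le_div_iff₀ hb0] at h4
      linarith
    have hb4 : (b : ℝ) ≤ 4 * Y := by exact_mod_cast hb1.2
    have h5 : ((b + 1 - a : ℕ) : ℝ) ≤ 8 * Y * l + 1 := by
      rw [Nat.cast_sub (by omega)]
      push_cast
      nlinarith
    have h6 : (S.card : ℝ) ≤ ((b + 1 - a : ℕ) : ℝ) := by exact_mod_cast hcard
    have h7 : (0 : ℝ) ≤ Y * l := by positivity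
    linarith

open scoped Classical in
/-- The number of `n` in `(Y, 4Y]` such that `c log n` is close to a multiple of `w`. -/
theorem card_bad_exponents' (Y : ℕ) (hY : 3 ≤ Y) (w : ℝ) (hw : Real.log 2 ≤ w) (c : ℕ) (hc : 1 ≤ c)
    (d : ℝ) (hd : 0 < d) (hd2 : d ≤ 1 / 2) :
    (((Finset.Ioc Y (4 * Y)).filter fun n : ℕ =>
      ∃ b : ℕ, |(c : ℝ) * Real.log n - b * w| < d).card : ℝ) ≤ 144 * Y * d + 9 * c := by
  classical
  have hl2 := Real.log_two_gt_d9
  have hl2' := Real.log_two_lt_d9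
  have hw0 : 0 < w := by linarith
  have hYr : (3 : ℝ) ≤ Y := by exact_mod_cast hY
  have hcr : (1 : ℝ) ≤ c := by exact_mod_cast hc
  have hlogY : 1 ≤ Real.log Y := by
    rw [Real.le_log_iff_exp_le (by linarith)]
    have := Real.exp_one_lt_d9
    linarith
  set lo : ℝ := (c * Real.log Y - d) / w with hlo
  set hi : ℝ := (c * Real.log (4 * Y) + d) / w with hhi
  have hlog4Y : Real.log (4 * Y) = 2 * Real.log 2 + Real.log Y := by
    rw [Real.log_mul (by norm_num) (by positivity), show (4 : ℝ) = 2 ^ 2 by norm_num, Real.log_pow]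
    norm_num
  have hhi0 : 0 ≤ hi := by
    rw [hhi, hlog4Y]
    apply div_nonneg _ hw0.le
    positivity
  have hdiff : hi - lo ≤ 2 * c + 1.5 := by
    rw [hhi, hlo, ← sub_div, hlog4Y, div_le_iff₀ hw0]
    have : (2 * c + 1.5) * Real.log 2 ≤ (2 * c + 1.5) * w := by gcongr
    nlinarith
  have hlohi : lo ≤ hi := by
    rw [hlo, hhi, hlog4Y]
    apply div_le_div_of_nonneg_right _ hw0.le
    have : 0 ≤ (c : ℝ) * (2 * Real.log 2) := by positivity
    linarith
  set Bs : Finset ℕ := Finset.Icc ⌈lo⌉₊ ⌊hi⌋₊ with hBs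
  have hBcard : (Bs.card : ℝ) ≤ 2 * c + 2.5 := by
    rw [hBs, Nat.card_Icc]
    rcases le_total ⌈lo⌉₊ (⌊hi⌋₊ + 1) with h | h
    · rw [Nat.cast_sub h]
      push_cast
      have h1 := Nat.floor_le hhi0
      have h2 := Nat.le_ceil lo
      linarith
    · rw [Nat.sub_eq_zero_of_le h]
      push_cast
      positivity
  set T : ℕ → Finset ℕ := fun b =>
    (Finset.Ioc Y (4 * Y)).filter fun n : ℕ => |Real.log n - b * w / c| < d / c with hT
  have hsub : ((Finset.Ioc Y (4 * Y)).filter fun n : ℕ =>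
      ∃ b : ℕ, |(c : ℝ) * Real.log n - b * w| < d) ⊆ Bs.biUnion T := by
    intro n hn
    obtain ⟨hn1, b, hb⟩ := mem_filter.mp hn
    have hn2 := mem_Ioc.mp hn1
    have hn0 : (Y : ℝ) < n := by exact_mod_cast hn2.1
    have hn4 : (n : ℝ) ≤ 4 * Y := by exact_mod_cast hn2.2
    have hb' := abs_lt.mp hb
    have g1 : Real.log Y ≤ Real.log n := Real.log_le_log (by linarith) hn0.le
    have g2 : Real.log n ≤ Real.log (4 * Y) := Real.log_le_log (by linarith) hn4
    rw [mem_biUnion]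
    refine ⟨b, ?_, ?_⟩
    · rw [hBs, mem_Icc]
      constructor
      · apply Nat.ceil_le.mpr
        rw [hlo, div_le_iff₀ hw0]
        have : (c : ℝ) * Real.log Y ≤ c * Real.log n := by gcongr
        linarith
      · apply Nat.le_floor
        rw [hhi, le_div_iff₀ hw0]
        have : (c : ℝ) * Real.log n ≤ c * Real.log (4 * Y) := by gcongr
        linarith
    · rw [hT]
      refine mem_filter.mpr ⟨hn1, ?_⟩
      have hc0 : (0 : ℝ) < c := by linarith
      have e : Real.log n - b * w / c = (c * Real.log n - b * w) / c := by field_simp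
      rw [e, abs_div, abs_of_pos hc0]
      gcongr
  have hTcard : ∀ b ∈ Bs, ((T b).card : ℝ) ≤ 16 * Y * (d / c) + 1 := by
    intro b _
    apply card_log_near
    · positivity
    · rw [div_le_iff₀ (by linarith)]
      linarith
  calc (((Finset.Ioc Y (4 * Y)).filter fun n : ℕ =>
      ∃ b : ℕ, |(c : ℝ) * Real.log n - b * w| < d).card : ℝ)
      ≤ ((Bs.biUnion T).card : ℝ) := by exact_mod_cast card_le_card hsub
    _ ≤ ∑ b ∈ Bs, ((T b).card : ℝ) := by exact_mod_cast card_biUnion_le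
    _ ≤ ∑ b ∈ Bs, (16 * Y * (d / c) + 1) := sum_le_sum hTcard
    _ = Bs.card * (16 * Y * (d / c) + 1) := by rw [sum_const, nsmul_eq_mul]
    _ ≤ (2 * c + 2.5) * (16 * Y * (d / c) + 1) := by gcongr
    _ ≤ (4.5 * c) * (16 * Y * (d / c) + 1) := by
        gcongr
        linarith
    _ = 72 * Y * d + 4.5 * c := by
        have hc0 : (c : ℝ) ≠ 0 := by positivity
        have e : (c : ℝ) * (d / c) = d := by field_simp
        linear_combination (72 * (Y : ℝ)) * e
    _ ≤ 144 * Y * d + 9 * c := by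
        have : (0 : ℝ) ≤ Y * d := by positivity
        nlinarith

open scoped Classical in
theorem card_bad_exponents (Y : ℕ) (hY : 3 ≤ Y) (q : ℕ) (hq : 2 ≤ q) (c : ℕ) (hc : 1 ≤ c) (d : ℝ)
    (hd : 0 < d) (hd2 : d ≤ 1 / 2) :
    (((Finset.Ioc Y (4 * Y)).filter fun n : ℕ =>
      ∃ b : ℕ, |(c : ℝ) * Real.log n - b * Real.log q| < d).card : ℝ) ≤ 144 * Y * d + 9 * c :=
  card_bad_exponents' Y hY (Real.log q)
    (Real.log_le_log (by norm_num) (by exact_mod_cast hq)) c hc d hd hd2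

end Pool.Agent.Helper10.EP
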