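import Mathlib

set_option autoImplicit false

/-!
Module B2: the abstract pigeonhole lemma.
-/

namespace Pool.Agent.Helper10.EP

open Finset

open Classical in
theorem pigeon {ι : Type*} (M : Finset ι) (C : ι → Finset ℕ) (cell : ι → ℕ → ℤ)
    (cells : Finset ℤ) (hcell : ∀ i ∈ M, ∀ s ∈ C i, cell i s ∈ cells) (Bad : ℕ → ℕ → Prop)
    (A B : ι → ℝ) (hA : ∀ i ∈ M, 0 < A i) (hB0 : ∀ i ∈ M, 0 ≤ B i)
    (hA2 : ∀ i ∈ M, ∀ k, (((C i).filter fun s => cell i s = k).card : ℝ) ≤ A i)
    (hB : ∀ i ∈ M, ∀ j ∈ M, i ≠ j → ∀ s ∈ C i,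
      (((C j).filter fun s' => Bad s s').card : ℝ) ≤ B j)
    (hbig : (cells.card : ℝ) < ∑ i ∈ M, (((C i).card : ℝ) - cells.card * B i) / A i) :
    ∃ i ∈ M, ∃ j ∈ M, i ≠ j ∧ ∃ s ∈ C i, ∃ s' ∈ C j, cell i s = cell j s' ∧ ¬ Bad s s' := by
  by_contra hcon
  push Not at hcon
  let F : ι → ℤ → Finset ℕ := fun i k => (C i).filter fun s => cell i s = k
  let R : ι → Finset ℤ := fun i => cells.filter fun k => B i < ((F i k).card : ℝ)
  have hdisj : ∀ i ∈ M, ∀ j ∈ M, i ≠ j → Disjoint (R i) (R j) := by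
    intro i hi j hj hij
    rw [Finset.disjoint_left]
    intro k hki hkj
    have h1 : B i < ((F i k).card : ℝ) := (mem_filter.mp hki).2
    have h2 : B j < ((F j k).card : ℝ) := (mem_filter.mp hkj).2
    have h3 : (0 : ℝ) < ((F i k).card : ℝ) := lt_of_le_of_lt (hB0 i hi) h1
    have h4 : 0 < (F i k).card := by exact_mod_cast h3
    obtain ⟨s, hs⟩ := card_pos.mp h4
    obtain ⟨hsC, hsk⟩ := mem_filter.mp hs
    have h5 : F j k ⊆ (C j).filter fun s' => Bad s s' := by
      intro s' hs'
      obtain ⟨hs'C, hs'k⟩ := mem_filter.mp hs'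
      exact mem_filter.mpr ⟨hs'C, hcon i hi j hj hij s hsC s' hs'C (by rw [hsk, hs'k])⟩
    have h6 : ((F j k).card : ℝ) ≤ (((C j).filter fun s' => Bad s s').card : ℝ) := by
      exact_mod_cast card_le_card h5
    have h7 := hB i hi j hj hij s hsC
    linarith
  have hsum : ∑ i ∈ M, (R i).card ≤ cells.card := by
    rw [← card_biUnion hdisj]
    exact card_le_card (biUnion_subset.mpr fun i _ => filter_subset _ _)
  have hC : ∀ i ∈ M, (((C i).card : ℝ) - cells.card * B i) / A i ≤ (R i).card := by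
    intro i hi
    rw [div_le_iff₀ (hA i hi)]
    have h1 : (C i).card = ∑ k ∈ cells, (F i k).card :=
      card_eq_sum_card_fiberwise (fun s hs => hcell i hi s hs)
    have h2 : ∀ k ∈ cells, ((F i k).card : ℝ) ≤
        (if B i < ((F i k).card : ℝ) then A i else 0) + B i := by
      intro k _
      split_ifs with h
      · have := hA2 i hi k
        have h3 := hB0 i hi
        change ((F i k).card : ℝ) ≤ A i at this
        linarith
      · linarith [not_lt.mp h]
    have h3 : ((C i).card : ℝ) ≤ (R i).card * A i + cells.card * B i := by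
      rw [h1]
      push_cast
      refine (sum_le_sum h2).trans ?_
      rw [sum_add_distrib, ← sum_filter, sum_const, sum_const, nsmul_eq_mul, nsmul_eq_mul]
    linarith
  have h8 : ∑ i ∈ M, (((C i).card : ℝ) - cells.card * B i) / A i ≤ cells.card := by
    refine (sum_le_sum hC).trans ?_
    exact_mod_cast hsum
  linarith

end Pool.Agent.Helper10.EP
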