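import Mathlib

set_option autoImplicit false

/-!
Module B3, part a: estimates for `D h c = exp (-(c h)^(1/5))` and the asymptotic inequalities.
-/

namespace Pool.Agent.Helper10.EP

open Finset Filter

/-- The separation bound at level `h` for the exponent `c`. -/
noncomputable def D (h c : ℕ) : ℝ := Real.exp (-((c : ℝ) * h) ^ ((1 : ℝ) / 5))

lemma D_pos (h c : ℕ) : 0 < D h c := Real.exp_pos _

lemma D_le_half {h c : ℕ} (hh : 1 ≤ h) (hc : 1 ≤ c) : D h c ≤ 1 / 2 := by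
  have h1 : (1 : ℝ) ≤ (c : ℝ) * h := by
    have : (1 : ℕ) ≤ c * h := Nat.one_le_iff_ne_zero.mpr (by positivity)
    exact_mod_cast this
  have h2 : (1 : ℝ) ≤ ((c : ℝ) * h) ^ ((1 : ℝ) / 5) := Real.one_le_rpow h1 (by norm_num)
  have h3 : D h c ≤ Real.exp (-1) := Real.exp_le_exp.mpr (by linarith)
  have h4 : (2 : ℝ) ≤ Real.exp 1 := by
    have := Real.add_one_le_exp (1 : ℝ)
    linarith
  have h5 : Real.exp (-1) ≤ 1 / 2 := by
    rw [Real.exp_neg, inv_eq_one_div]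
    exact one_div_le_one_div_of_le (by norm_num) h4
  linarith

lemma D_le_pow {h c : ℕ} (hh : 1 ≤ h) (hc : 1 ≤ c) :
    D h c ≤ (Nat.factorial 100 : ℝ) / ((c : ℝ) * h) ^ 20 := by
  have h0 : (0 : ℝ) < (c : ℝ) * h := by positivity
  set x := ((c : ℝ) * h) ^ ((1 : ℝ) / 5) with hx
  have hx0 : 0 < x := Real.rpow_pos_of_pos h0 _
  have h1 : x ^ 100 = ((c : ℝ) * h) ^ 20 := by
    rw [hx, ← Real.rpow_natCast, ← Real.rpow_mul h0.le, ← Real.rpow_natCast]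
    norm_num
  have h2 : x ^ 100 / (Nat.factorial 100 : ℝ) ≤ Real.exp x :=
    Real.pow_div_factorial_le_exp x hx0.le 100
  rw [h1] at h2
  have hf : (0 : ℝ) < (Nat.factorial 100 : ℝ) := by exact_mod_cast Nat.factorial_pos 100
  have h3 : 0 < ((c : ℝ) * h) ^ 20 := by positivity
  change Real.exp (-x) ≤ _
  rw [Real.exp_neg, inv_eq_one_div, div_le_div_iff₀ (Real.exp_pos x) h3, one_mul]
  rw [div_le_iff₀ hf] at h2
  linarith [mul_comm (Real.exp x) (Nat.factorial 100 : ℝ)]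

lemma D_le_sq {h c : ℕ} (hc : h ^ 9 < c) : D h c ≤ Real.exp (-((h : ℝ) ^ 2)) := by
  apply Real.exp_le_exp.mpr
  rw [neg_le_neg_iff]
  have h0 : (0 : ℝ) ≤ h := Nat.cast_nonneg h
  have h1 : ((h : ℝ) ^ 10) ≤ (c : ℝ) * h := by
    have : h ^ 10 ≤ c * h := by
      rw [pow_succ]
      exact Nat.mul_le_mul_right _ hc.le
    exact_mod_cast this
  have h2 : ((h : ℝ) ^ 10) ^ ((1 : ℝ) / 5) = (h : ℝ) ^ 2 := by
    rw [← Real.rpow_natCast, ← Real.rpow_mul h0, ← Real.rpow_natCast]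
    norm_num
  rw [← h2]
  exact Real.rpow_le_rpow (by positivity) h1 (by norm_num)

lemma sum_inv_pow (n : ℕ) : ∑ c ∈ Icc 1 n, 1 / (c : ℝ) ^ 20 ≤ 2 := by
  have key : ∀ n : ℕ, 1 ≤ n → ∑ c ∈ Icc 1 n, 1 / (c : ℝ) ^ 20 ≤ 2 - 1 / (n : ℝ) := by
    intro n hn
    induction n, hn using Nat.le_induction with
    | base => norm_num
    | succ n hn ih =>
      rw [sum_Icc_succ_top (by omega)]
      have hn0 : (0 : ℝ) < n := by exact_mod_cast hn
      have h1 : 1 / ((n + 1 : ℕ) : ℝ) ^ 20 ≤ 1 / (n : ℝ) - 1 / ((n + 1 : ℕ) : ℝ) := by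
        push_cast
        have h2 : 1 / (n : ℝ) - 1 / ((n : ℝ) + 1) = 1 / (n * (n + 1)) := by
          field_simp
          ring
        rw [h2]
        apply one_div_le_one_div_of_le (by positivity)
        have h3 : (n : ℝ) * (n + 1) ≤ (n + 1) ^ 2 := by nlinarith
        have h4 : ((n : ℝ) + 1) ^ 2 ≤ (n + 1) ^ 20 :=
          pow_le_pow_right₀ (by linarith) (by norm_num)
        linarith
      linarith
  rcases Nat.eq_zero_or_pos n with rfl | hn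
  · simp
  · have := key n hn
    have h2 : (0 : ℝ) ≤ 1 / n := by positivity
    linarith

lemma sum_D_le {h : ℕ} (hh : 1 ≤ h) (n : ℕ) :
    ∑ c ∈ Icc 1 n, D h c ≤ 2 * (Nat.factorial 100 : ℝ) / (h : ℝ) ^ 20 := by
  have h0 : (0 : ℝ) < (h : ℝ) ^ 20 := by positivity
  calc ∑ c ∈ Icc 1 n, D h c ≤ ∑ c ∈ Icc 1 n, (Nat.factorial 100 : ℝ) / (h : ℝ) ^ 20 *
        (1 / (c : ℝ) ^ 20) := by
        apply sum_le_sum
        intro c hc
        have hc1 := (mem_Icc.mp hc).1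
        refine (D_le_pow hh hc1).trans (le_of_eq ?_)
        rw [mul_pow]
        have hc0 : (0 : ℝ) < (c : ℝ) ^ 20 := by
          have : (0 : ℝ) < c := by exact_mod_cast hc1
          positivity
        field_simp
    _ = (Nat.factorial 100 : ℝ) / (h : ℝ) ^ 20 * ∑ c ∈ Icc 1 n, 1 / (c : ℝ) ^ 20 := by
        rw [mul_sum]
    _ ≤ (Nat.factorial 100 : ℝ) / (h : ℝ) ^ 20 * 2 := by
        apply mul_le_mul_of_nonneg_left (sum_inv_pow n)
        positivity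
    _ = _ := by ring

lemma sum_D_tail {h : ℕ} (hh : 5 ≤ h) :
    ∑ c ∈ Ioc (h ^ 9) (2 ^ (3 * h)), D h c ≤ 1 / 2 ^ (3 * h) := by
  have h1 : ∑ c ∈ Ioc (h ^ 9) (2 ^ (3 * h)), D h c ≤
      (2 : ℝ) ^ (3 * h) * Real.exp (-((h : ℝ) ^ 2)) := by
    calc ∑ c ∈ Ioc (h ^ 9) (2 ^ (3 * h)), D h c ≤
          ∑ c ∈ Ioc (h ^ 9) (2 ^ (3 * h)), Real.exp (-((h : ℝ) ^ 2)) :=
          sum_le_sum fun c hc => D_le_sq (mem_Ioc.mp hc).1
      _ = ((2 ^ (3 * h) - h ^ 9 : ℕ) : ℝ) * Real.exp (-((h : ℝ) ^ 2)) := by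
          rw [sum_const, Nat.card_Ioc, nsmul_eq_mul]
      _ ≤ _ := by
          apply mul_le_mul_of_nonneg_right _ (Real.exp_pos _).le
          have : 2 ^ (3 * h) - h ^ 9 ≤ 2 ^ (3 * h) := Nat.sub_le _ _
          exact_mod_cast this
  refine h1.trans ?_
  have h2 : (2 : ℝ) ^ (6 * h) ≤ Real.exp ((h : ℝ) ^ 2) := by
    have h3 : (2 : ℝ) ^ (6 * h) = Real.exp ((6 * h : ℕ) * Real.log 2) := by
      rw [Real.exp_nat_mul, Real.exp_log (by norm_num)]
    rw [h3]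
    apply Real.exp_le_exp.mpr
    have h4 := Real.log_two_lt_d9
    have h5 : (5 : ℝ) ≤ h := by exact_mod_cast hh
    push_cast
    nlinarith
  rw [Real.exp_neg, ← div_eq_mul_inv, div_le_div_iff₀ (Real.exp_pos _) (by positivity), one_mul,
    ← pow_add]
  have : 3 * h + 3 * h = 6 * h := by ring
  rw [this]
  exact h2

/-- Exponentials beat powers. -/
lemma eventually_pow_le (k : ℕ) (C : ℝ) : ∀ᶠ h : ℕ in atTop, C * (h : ℝ) ^ k ≤ 2 ^ h := by
  have h1 : Tendsto (fun n : ℕ => (n : ℝ) ^ k / (2 : ℝ) ^ n) atTop (nhds 0) :=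
    tendsto_pow_const_div_const_pow_of_one_lt k (by norm_num)
  have h2 : Tendsto (fun n : ℕ => C * ((n : ℝ) ^ k / (2 : ℝ) ^ n)) atTop (nhds (C * 0)) :=
    h1.const_mul C
  rw [mul_zero] at h2
  filter_upwards [h2.eventually (eventually_le_nhds (show (0 : ℝ) < 1 by norm_num))] with n hn
  have h3 : (0 : ℝ) < 2 ^ n := by positivity
  rw [← mul_div_assoc, div_le_one h3] at hn
  exact hn

lemma eventually_const_le (k : ℕ) (hk : k ≠ 0) (C : ℝ) :
    ∀ᶠ h : ℕ in atTop, C ≤ (h : ℝ) ^ k := by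
  have h1 : Tendsto (fun n : ℕ => (n : ℝ) ^ k) atTop atTop :=
    (tendsto_pow_atTop hk).comp tendsto_natCast_atTop_atTop
  exact h1.eventually_ge_atTop C

/-- The quantity `exp (-h^(1/5))` tends to zero. -/
lemma eventually_D_le (κ : ℝ) (hκ : 0 < κ) : ∀ᶠ h : ℕ in atTop, ∀ c : ℕ, 1 ≤ c → D h c ≤ κ := by
  filter_upwards [eventually_const_le 20 (by norm_num) ((Nat.factorial 100 : ℝ) / κ),
    eventually_ge_atTop 1] with h hh h1 c hc
  refine (D_le_pow h1 hc).trans ?_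
  have h0 : (0 : ℝ) < (h : ℝ) ^ 20 := by positivity
  have hc1 : (1 : ℝ) ≤ (c : ℝ) ^ 20 := one_le_pow₀ (by exact_mod_cast hc)
  rw [div_le_iff₀ (by positivity), mul_pow]
  rw [div_le_iff₀ hκ] at hh
  nlinarith [mul_le_mul_of_nonneg_left hc1 (mul_pos hκ h0).le]

end Pool.Agent.Helper10.EP
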