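import Mathlib
import Pool.Agent.Helper10.EP.B1
import Pool.Agent.Helper10.EP.B3a

set_option autoImplicit false

/-!
Module B3, part b: the multipliers `mul i = 2^(i/1000) * 3^(i%1000)` and the counts of bad numbers.
-/

namespace Pool.Agent.Helper10.EP

open Finset Filter

/-- The `i`-th multiplier. -/
def mul (i : ℕ) : ℕ := 2 ^ (i / 1000) * 3 ^ (i % 1000)

lemma mul_pos' (i : ℕ) : 0 < mul i := by
  unfold mul
  positivity

lemma pow_two_three_inj {a b c d : ℕ} (h : 2 ^ a * 3 ^ b = 2 ^ c * 3 ^ d) : a = c ∧ b = d := by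
  have h2 : (2 ^ a * 3 ^ b).factorization 2 = (2 ^ c * 3 ^ d).factorization 2 := by rw [h]
  have h3 : (2 ^ a * 3 ^ b).factorization 3 = (2 ^ c * 3 ^ d).factorization 3 := by rw [h]
  rw [Nat.factorization_mul (by positivity) (by positivity),
    Nat.factorization_mul (by positivity) (by positivity)] at h2 h3
  rw [Nat.Prime.factorization_pow Nat.prime_two, Nat.Prime.factorization_pow Nat.prime_three,
    Nat.Prime.factorization_pow Nat.prime_two, Nat.Prime.factorization_pow Nat.prime_three]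
    at h2 h3
  simp at h2 h3
  exact ⟨h2, h3⟩

lemma mul_inj {i j : ℕ} (h : mul i = mul j) : i = j := by
  obtain ⟨h1, h2⟩ := pow_two_three_inj h
  have := Nat.div_add_mod i 1000
  have := Nat.div_add_mod j 1000
  omega

lemma three_pow_le {k : ℕ} (hk : k < 1000) : 3 ^ k ≤ 2 ^ 1600 := by
  calc 3 ^ k ≤ 3 ^ (5 * 200) := Nat.pow_le_pow_right (by norm_num) (by omega)
    _ = (3 ^ 5) ^ 200 := by rw [pow_mul]
    _ ≤ (2 ^ 8) ^ 200 := Nat.pow_le_pow_left (by norm_num) _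
    _ = 2 ^ 1600 := by rw [← pow_mul]

lemma mul_le {h i : ℕ} (hh : 1600 ≤ h) (hi : i < 4000 * h) : mul i ≤ 2 ^ (5 * h - 1) := by
  have h1 : i / 1000 ≤ 4 * h - 1 := by omega
  have h2 : i % 1000 < 1000 := Nat.mod_lt _ (by norm_num)
  calc mul i ≤ 2 ^ (4 * h - 1) * 2 ^ 1600 :=
        Nat.mul_le_mul (Nat.pow_le_pow_right (by norm_num) h1) (three_pow_le h2)
    _ ≤ 2 ^ (4 * h - 1) * 2 ^ h := by
        apply Nat.mul_le_mul_left
        exact Nat.pow_le_pow_right (by norm_num) hh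
    _ = 2 ^ (5 * h - 1) := by
        rw [← pow_add]
        congr 1
        omega

/-- Distinct multipliers are multiplicatively separated. -/
lemma log_mul_gap_aux {N : ℕ} (hN : ∀ k < 1000, 3 ^ k ≤ N) {i j : ℕ} (hij : mul j < mul i) :
    1 / (N + 1 : ℝ) ≤ Real.log (mul i) - Real.log (mul j) := by
  have hi2 : i % 1000 < 1000 := Nat.mod_lt _ (by norm_num)
  have hj2 : j % 1000 < 1000 := Nat.mod_lt _ (by norm_num)
  -- cancel the common power of two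
  obtain ⟨g, u, v, hg, hu, hv, hvle⟩ : ∃ g u v : ℕ, 0 < g ∧ mul i = g * u ∧ mul j = g * v ∧
      (v ≤ N ∨ u ≤ N) := by
    rcases le_total (j / 1000) (i / 1000) with h1 | h1
    · refine ⟨2 ^ (j / 1000), 2 ^ (i / 1000 - j / 1000) * 3 ^ (i % 1000), 3 ^ (j % 1000),
        by positivity, ?_, rfl, Or.inl (hN _ hj2)⟩
      rw [← mul_assoc, ← pow_add]
      unfold mul
      congr 2
      omega
    · refine ⟨2 ^ (i / 1000), 3 ^ (i % 1000), 2 ^ (j / 1000 - i / 1000) * 3 ^ (j % 1000),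
        by positivity, rfl, ?_, Or.inr (hN _ hi2)⟩
      rw [← mul_assoc, ← pow_add]
      unfold mul
      congr 2
      omega
  have hvu : v < u := by
    rw [hu, hv] at hij
    exact lt_of_mul_lt_mul_left hij (Nat.zero_le _)
  have hv2 : v ≤ N := by
    rcases hvle with h | h
    · exact h
    · exact (hvu.le).trans h
  have hv0 : 0 < v := by
    rcases Nat.eq_zero_or_pos v with h | h
    · have := mul_pos' j
      rw [hv, h] at this
      simp at this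
    · exact h
  have hu0 : 0 < u := hv0.trans hvu
  have hgR : (0 : ℝ) < g := by exact_mod_cast hg
  have huR : (0 : ℝ) < u := by exact_mod_cast hu0
  have hvR : (0 : ℝ) < v := by exact_mod_cast hv0
  rw [hu, hv]
  push_cast
  rw [Real.log_mul hgR.ne' huR.ne', Real.log_mul hgR.ne' hvR.ne']
  have h1 : Real.log u - Real.log v = Real.log ((u : ℝ) / v) := by
    rw [Real.log_div huR.ne' hvR.ne']
  have h2 := Real.one_sub_inv_le_log_of_pos (show (0 : ℝ) < (u : ℝ) / v by positivity)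
  have h3 : (1 : ℝ) / (N + 1) ≤ 1 - ((u : ℝ) / v)⁻¹ := by
    rw [inv_div]
    have h4 : (v : ℝ) + 1 ≤ u := by exact_mod_cast hvu
    have h5 : (v : ℝ) ≤ N := by exact_mod_cast hv2
    have h6 : (v : ℝ) / u ≤ v / (v + 1) :=
      div_le_div_of_nonneg_left hvR.le (by positivity) h4
    have h7 : (1 : ℝ) - v / (v + 1) = 1 / (v + 1) := by
      field_simp
      ring
    have h8 : (1 : ℝ) / (N + 1) ≤ 1 / (v + 1) := by
      apply one_div_le_one_div_of_le (by positivity)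
      linarith
    linarith
  linarith

lemma exists_log_mul_gap : ∃ κ : ℝ, 0 < κ ∧ ∀ i j : ℕ, i ≠ j →
    κ ≤ |Real.log (mul i) - Real.log (mul j)| := by
  obtain ⟨N, hN⟩ : ∃ N : ℕ, ∀ k < 1000, 3 ^ k ≤ N :=
    ⟨2 ^ 1600, fun k hk => three_pow_le hk⟩
  refine ⟨1 / (N + 1), by positivity, fun i j hij => ?_⟩
  rcases lt_trichotomy (mul i) (mul j) with h | h | h
  · have := log_mul_gap_aux hN h
    rw [abs_sub_comm]
    exact this.trans (le_abs_self _)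
  · exact absurd (mul_inj h) hij
  · exact (log_mul_gap_aux hN h).trans (le_abs_self _)

lemma log_mul_nonneg (i : ℕ) : 0 ≤ Real.log (mul i) :=
  Real.log_natCast_nonneg _

lemma log_mul_le {h i : ℕ} (hh : 1600 ≤ h) (hi : i < 4000 * h) :
    Real.log (mul i) ≤ 3.5 * h := by
  have h1 : Real.log (mul i) ≤ Real.log ((2 : ℝ) ^ (5 * h - 1)) := by
    apply Real.log_le_log (by exact_mod_cast mul_pos' i)
    exact_mod_cast mul_le hh hi
  rw [Real.log_pow] at h1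
  have h2 := Real.log_two_lt_d9
  have h3 : ((5 * h - 1 : ℕ) : ℝ) ≤ 5 * h := by
    have : 5 * h - 1 ≤ 5 * h := Nat.sub_le _ _
    exact_mod_cast this
  have h4 : (0 : ℝ) ≤ h := Nat.cast_nonneg h
  have h5 : ((5 * h - 1 : ℕ) : ℝ) * Real.log 2 ≤ 5 * h * Real.log 2 :=
    mul_le_mul_of_nonneg_right h3 (Real.log_nonneg (by norm_num))
  nlinarith

open Classical in
/-- The number of elements of `S` with the property `P`. -/
noncomputable def cnt (S : Finset ℕ) (P : ℕ → Prop) : ℝ := ((S.filter P).card : ℝ)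

lemma cnt_eq (S : Finset ℕ) (P : ℕ → Prop) [DecidablePred P] :
    cnt S P = ((S.filter P).card : ℝ) := by
  unfold cnt
  congr!

lemma cnt_mono (S : Finset ℕ) {P R : ℕ → Prop} (h : ∀ n ∈ S, P n → R n) :
    cnt S P ≤ cnt S R := by
  classical
  rw [cnt_eq, cnt_eq]
  have : S.filter P ⊆ S.filter R := by
    intro n hn
    obtain ⟨h1, h2⟩ := mem_filter.mp hn
    exact mem_filter.mpr ⟨h1, h n h1 h2⟩
  exact_mod_cast card_le_card this

lemma cnt_exists_le {α : Type*} (S : Finset ℕ) (I : Finset α) (P : α → ℕ → Prop)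
    (B : α → ℝ) (hB : ∀ i ∈ I, cnt S (P i) ≤ B i) :
    cnt S (fun n => ∃ i ∈ I, P i n) ≤ ∑ i ∈ I, B i := by
  classical
  refine le_trans ?_ (sum_le_sum hB)
  simp only [cnt_eq]
  have h1 : (S.filter fun n => ∃ i ∈ I, P i n) ⊆ I.biUnion fun i => S.filter (P i) := by
    intro n hn
    obtain ⟨h1, i, hi, h2⟩ := mem_filter.mp hn
    exact mem_biUnion.mpr ⟨i, hi, mem_filter.mpr ⟨h1, h2⟩⟩
  calc ((S.filter fun n => ∃ i ∈ I, P i n).card : ℝ)
      ≤ ((I.biUnion fun i => S.filter (P i)).card : ℝ) := by exact_mod_cast card_le_card h1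
    _ ≤ ∑ i ∈ I, ((S.filter (P i)).card : ℝ) := by exact_mod_cast card_biUnion_le

/-- `n ^ c` is multiplicatively close to a power of `q`. -/
def P1 (h q c n : ℕ) : Prop := ∃ b : ℕ, |(c : ℝ) * Real.log n - b * Real.log q| < D h c

lemma cnt_P1 {h Y : ℕ} (hh : 1 ≤ h) (hY : 3 ≤ Y) {q : ℕ} (hq : 2 ≤ q) {c : ℕ} (hc : 1 ≤ c) :
    cnt (Ioc Y (4 * Y)) (P1 h q c) ≤ 144 * Y * D h c + 9 * c := by
  classical
  rw [cnt_eq]
  convert card_bad_exponents Y hY q hq c hc (D h c) (D_pos h c) (D_le_half hh hc)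
  rfl

/-- Condition (G1) fails: `n` is multiplicatively too close to an old prime. -/
def Bad1 (h : ℕ) (Q : Finset ℕ) (n : ℕ) : Prop :=
  ∃ q ∈ Q, ∃ c ∈ Icc 1 (2 ^ (3 * h)), P1 h q c n

lemma sum_Icc_cast_le (h : ℕ) : ∑ c ∈ Icc (1 : ℕ) (2 ^ (3 * h)), (c : ℝ) ≤ 2 ^ (6 * h) := by
  calc ∑ c ∈ Icc (1 : ℕ) (2 ^ (3 * h)), (c : ℝ)
      ≤ ∑ c ∈ Icc (1 : ℕ) (2 ^ (3 * h)), (2 : ℝ) ^ (3 * h) := by
        apply sum_le_sum
        intro c hc
        exact_mod_cast (mem_Icc.mp hc).2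
    _ = 2 ^ (6 * h) := by
        rw [sum_const, Nat.card_Icc, nsmul_eq_mul, add_tsub_cancel_right]
        push_cast
        rw [← pow_add]
        congr 1
        ring

lemma cnt_bad1 {h Y : ℕ} (hh : 1 ≤ h) (hY : 3 ≤ Y) (Q : Finset ℕ) (hQ : ∀ q ∈ Q, q.Prime)
    (hQc : Q.card ≤ 4 * h) :
    cnt (Ioc Y (4 * Y)) (Bad1 h Q) ≤
      4 * h * (144 * Y * (2 * (Nat.factorial 100 : ℝ) / (h : ℝ) ^ 20) + 9 * 2 ^ (6 * h)) := by
  have h1 : ∀ q ∈ Q, cnt (Ioc Y (4 * Y)) (fun n => ∃ c ∈ Icc 1 (2 ^ (3 * h)), P1 h q c n) ≤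
      144 * Y * (2 * (Nat.factorial 100 : ℝ) / (h : ℝ) ^ 20) + 9 * 2 ^ (6 * h) := by
    intro q hq
    refine (cnt_exists_le (Ioc Y (4 * Y)) (Icc 1 (2 ^ (3 * h))) (fun c n => P1 h q c n)
      (fun c => 144 * Y * D h c + 9 * (c : ℝ))
      (fun c hc => cnt_P1 hh hY (hQ q hq).two_le (mem_Icc.mp hc).1)).trans ?_
    rw [sum_add_distrib, ← mul_sum, ← mul_sum]
    have h2 := sum_D_le hh (2 ^ (3 * h))
    have h3 := sum_Icc_cast_le h
    have h4 : (0 : ℝ) ≤ 144 * Y := by positivity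
    have h5 := mul_le_mul_of_nonneg_left h2 h4
    linarith
  refine (cnt_exists_le (Ioc Y (4 * Y)) Q
    (fun q n => ∃ c ∈ Icc 1 (2 ^ (3 * h)), P1 h q c n) (fun _ => _) h1).trans ?_
  rw [sum_const, nsmul_eq_mul]
  apply mul_le_mul_of_nonneg_right
  · exact_mod_cast hQc
  · positivity

/-- `n ^ e` is multiplicatively close to the `c`-th power of a quotient of two multipliers. -/
def P2 (h : ℕ) (x : (ℕ × ℕ) × ℕ) (c n : ℕ) : Prop :=
  |(x.2 : ℝ) * Real.log n - c * (Real.log (mul x.1.1) - Real.log (mul x.1.2))| <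
      (h : ℝ) ^ 9 * (1 / 2 ^ h) + D h c

lemma cnt_log_near (Y : ℕ) (x l : ℝ) (hl : 0 < l) (hl2 : l ≤ 1 / 2) :
    cnt (Ioc Y (4 * Y)) (fun n : ℕ => |Real.log n - x| < l) ≤ 16 * Y * l + 1 := by
  classical
  rw [cnt_eq]
  convert card_log_near Y x l hl hl2

lemma cnt_P2 {h Y : ℕ} (hsmall : ∀ c : ℕ, 1 ≤ c → (h : ℝ) ^ 9 * (1 / 2 ^ h) + D h c ≤ 1 / 2)
    {x : (ℕ × ℕ) × ℕ} (hx : 1 ≤ x.2) {c : ℕ} (hc : 1 ≤ c) :
    cnt (Ioc Y (4 * Y)) (P2 h x c) ≤
      16 * Y * ((h : ℝ) ^ 9 * (1 / 2 ^ h) + D h c) + 1 := by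
  have hx2R : (1 : ℝ) ≤ (x.2 : ℝ) := by exact_mod_cast hx
  have h0 : 0 < (h : ℝ) ^ 9 * (1 / 2 ^ h) + D h c := by
    have := D_pos h c
    positivity
  refine le_trans ?_ (cnt_log_near Y
    (c * (Real.log (mul x.1.1) - Real.log (mul x.1.2)) / x.2)
    ((h : ℝ) ^ 9 * (1 / 2 ^ h) + D h c) h0 (hsmall c hc))
  apply cnt_mono
  intro n _ hn2
  refine lt_of_le_of_lt ?_ hn2
  have hx0 : (0 : ℝ) < (x.2 : ℝ) := by linarith
  have h5 : (x.2 : ℝ) * Real.log n - c * (Real.log (mul x.1.1) - Real.log (mul x.1.2)) =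
      x.2 * (Real.log n - c * (Real.log (mul x.1.1) - Real.log (mul x.1.2)) / x.2) := by
    field_simp
  rw [h5, abs_mul, abs_of_pos hx0]
  exact le_mul_of_one_le_left (abs_nonneg _) hx2R

/-- The index set for (G2). -/
def idx (h : ℕ) : Finset ((ℕ × ℕ) × ℕ) :=
  (range (4000 * h) ×ˢ range (4000 * h)) ×ˢ Icc 1 (h ^ 9)

lemma card_idx (h : ℕ) : ((idx h).card : ℝ) = (4000 * h) * (4000 * h) * h ^ 9 := by
  unfold idx
  rw [card_product, card_product, card_range, Nat.card_Icc, add_tsub_cancel_right]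
  push_cast
  ring

/-- Condition (G2) fails: small exponents. -/
def Bad2 (h : ℕ) (n : ℕ) : Prop := ∃ x ∈ idx h, ∃ c ∈ Icc 1 (h ^ 9), P2 h x c n

lemma cnt_bad2 {h Y : ℕ} (hh : 1 ≤ h)
    (hsmall : ∀ c : ℕ, 1 ≤ c → (h : ℝ) ^ 9 * (1 / 2 ^ h) + D h c ≤ 1 / 2) :
    cnt (Ioc Y (4 * Y)) (Bad2 h) ≤
      (4000 * h) * (4000 * h) * h ^ 9 * (16 * Y * (h ^ 18 * (1 / 2 ^ h)) +
        16 * Y * (2 * (Nat.factorial 100 : ℝ) / (h : ℝ) ^ 20) + h ^ 9) := by
  have h1 : ∀ x ∈ idx h,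
      cnt (Ioc Y (4 * Y)) (fun n => ∃ c ∈ Icc 1 (h ^ 9), P2 h x c n) ≤
      16 * Y * (h ^ 18 * (1 / 2 ^ h)) +
        16 * Y * (2 * (Nat.factorial 100 : ℝ) / (h : ℝ) ^ 20) + h ^ 9 := by
    intro x hx
    have hx2 : 1 ≤ x.2 := (mem_Icc.mp (mem_product.mp hx).2).1
    refine (cnt_exists_le (Ioc Y (4 * Y)) (Icc 1 (h ^ 9)) (fun c n => P2 h x c n)
      (fun c => 16 * Y * ((h : ℝ) ^ 9 * (1 / 2 ^ h) + D h c) + 1)
      (fun c hc => cnt_P2 hsmall hx2 (mem_Icc.mp hc).1)).trans ?_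
    rw [sum_add_distrib, ← mul_sum, sum_add_distrib, sum_const, sum_const, Nat.card_Icc,
      nsmul_eq_mul, nsmul_eq_mul, add_tsub_cancel_right]
    have h2 := sum_D_le hh (h ^ 9)
    have h4 : (0 : ℝ) ≤ 16 * Y := by positivity
    have h5 := mul_le_mul_of_nonneg_left h2 h4
    push_cast
    have h6 : (h : ℝ) ^ 9 * ((h : ℝ) ^ 9 * (1 / 2 ^ h)) = h ^ 18 * (1 / 2 ^ h) := by ring
    rw [h6]
    linarith
  refine (cnt_exists_le (Ioc Y (4 * Y)) (idx h)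
    (fun x n => ∃ c ∈ Icc 1 (h ^ 9), P2 h x c n) (fun _ => _) h1).trans ?_
  rw [sum_const, nsmul_eq_mul, card_idx]

/-- The pair `(s, s')` is jointly bad. -/
def BadP (h : ℕ) (s s' : ℕ) : Prop :=
  ∃ c ∈ Ioc (h ^ 9) (2 ^ (3 * h)), P1 h s c s'

lemma sum_Ioc_cast_le (h : ℕ) : ∑ c ∈ Ioc (h ^ 9) (2 ^ (3 * h)), (c : ℝ) ≤ 2 ^ (6 * h) := by
  refine le_trans ?_ (sum_Icc_cast_le h)
  apply sum_le_sum_of_subset_of_nonneg
  · intro c hc
    rw [mem_Ioc] at hc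
    rw [mem_Icc]
    omega
  · intro c _ _
    positivity

lemma cnt_badP {h Y : ℕ} (hh : 5 ≤ h) (hY : 3 ≤ Y) (s : ℕ) (hs : 2 ≤ s) :
    cnt (Ioc Y (4 * Y)) (BadP h s) ≤ 144 * Y * (1 / 2 ^ (3 * h)) + 9 * 2 ^ (6 * h) := by
  refine (cnt_exists_le (Ioc Y (4 * Y)) (Ioc (h ^ 9) (2 ^ (3 * h)))
    (fun c n => P1 h s c n) (fun c => 144 * Y * D h c + 9 * (c : ℝ))
    (fun c hc => cnt_P1 (by omega) hY hs (by
      have := (mem_Ioc.mp hc).1
      omega))).trans ?_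
  rw [sum_add_distrib, ← mul_sum, ← mul_sum]
  have h2 := sum_D_tail hh
  have h3 := sum_Ioc_cast_le h
  have h4 : (0 : ℝ) ≤ 144 * Y := by positivity
  have := mul_le_mul_of_nonneg_left h2 h4
  linarith

end Pool.Agent.Helper10.EP
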