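import Mathlib
import Pool.Agent.Helper10.EP.B1
import Pool.Agent.Helper10.EP.B3a
import Pool.Agent.Helper10.EP.B3b

set_option autoImplicit false

/-!
Module B3, part c: numerical inequalities, and the number of good primes in `(Y, 4Y]`.
-/

namespace Pool.Agent.Helper10.EP

open Finset Filter

lemma ineq1 {h Y F p : ℝ} (hh : 0 < h) (hY : 0 ≤ Y) (h1 : 110592 * F ≤ h ^ 18)
    (h2 : 3456 * h ^ 2 * p ≤ Y) :
    4 * h * (144 * Y * (2 * F / h ^ 20) + 9 * p) ≤ Y / (48 * h) := by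
  have e1 : 4 * h * (144 * Y * (2 * F / h ^ 20)) ≤ Y / (96 * h) := by
    have : 4 * h * (144 * Y * (2 * F / h ^ 20)) = 110592 * F * (Y / (96 * h ^ 19)) := by
      field_simp
      ring
    rw [this]
    calc 110592 * F * (Y / (96 * h ^ 19)) ≤ h ^ 18 * (Y / (96 * h ^ 19)) :=
          mul_le_mul_of_nonneg_right h1 (by positivity)
      _ = Y / (96 * h) := by
          field_simp
  have e2 : 4 * h * (9 * p) ≤ Y / (96 * h) := by
    rw [le_div_iff₀ (by positivity)]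
    nlinarith
  have e3 : Y / (48 * h) = Y / (96 * h) + Y / (96 * h) := by
    field_simp
    ring
  rw [e3, mul_add]
  linarith

lemma ineq2 {h Y F q : ℝ} (hh : 0 < h) (hY : 0 ≤ Y) (hq : 0 < q)
    (h1 : 36864000000 * h ^ 30 ≤ q) (h2 : 73728000000 * F ≤ h ^ 8)
    (h3 : 2304000000 * h ^ 21 ≤ Y) :
    (4000 * h) * (4000 * h) * h ^ 9 * (16 * Y * (h ^ 18 * (1 / q)) +
        16 * Y * (2 * F / h ^ 20) + h ^ 9) ≤ Y / (48 * h) := by
  have e1 : (4000 * h) * (4000 * h) * h ^ 9 * (16 * Y * (h ^ 18 * (1 / q))) ≤ Y / (144 * h) := by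
    have : (4000 * h) * (4000 * h) * h ^ 9 * (16 * Y * (h ^ 18 * (1 / q))) =
        36864000000 * h ^ 30 * (Y / (144 * h * q)) := by
      field_simp
      ring
    rw [this]
    calc 36864000000 * h ^ 30 * (Y / (144 * h * q)) ≤ q * (Y / (144 * h * q)) :=
          mul_le_mul_of_nonneg_right h1 (by positivity)
      _ = Y / (144 * h) := by
          field_simp
  have e2 : (4000 * h) * (4000 * h) * h ^ 9 * (16 * Y * (2 * F / h ^ 20)) ≤ Y / (144 * h) := by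
    have : (4000 * h) * (4000 * h) * h ^ 9 * (16 * Y * (2 * F / h ^ 20)) =
        73728000000 * F * (Y / (144 * h ^ 9)) := by
      field_simp
      ring
    rw [this]
    calc 73728000000 * F * (Y / (144 * h ^ 9)) ≤ h ^ 8 * (Y / (144 * h ^ 9)) :=
          mul_le_mul_of_nonneg_right h2 (by positivity)
      _ = Y / (144 * h) := by
          field_simp
  have e3 : (4000 * h) * (4000 * h) * h ^ 9 * h ^ 9 ≤ Y / (144 * h) := by
    rw [le_div_iff₀ (by positivity)]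
    calc (4000 * h) * (4000 * h) * h ^ 9 * h ^ 9 * (144 * h) = 2304000000 * h ^ 21 := by ring
      _ ≤ Y := h3
  have e4 : Y / (48 * h) = Y / (144 * h) + Y / (144 * h) + Y / (144 * h) := by
    field_simp
    ring
  rw [e4, mul_add, mul_add]
  linarith

lemma ineq3 {h Y p : ℝ} (hh : 1 ≤ h) (hp : 0 < p) (hY : p ^ 11 ≤ Y)
    (h1 : 4 * 16002 * 144 * 96 * h ^ 2 ≤ p ^ 2) (h2 : 4 * 16002 * 9 * 96 * h ^ 2 ≤ p ^ 4) :
    4 * (p * (16000 * h + 2)) * (144 * Y * (1 / p ^ 3) + 9 * p ^ 6) ≤ Y / (48 * h) := by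
  have hh0 : 0 < h := by linarith
  have hY0 : 0 < Y := lt_of_lt_of_le (by positivity) hY
  have e0 : 4 * (p * (16000 * h + 2)) * (144 * Y * (1 / p ^ 3) + 9 * p ^ 6) ≤
      4 * (p * (16002 * h)) * (144 * Y * (1 / p ^ 3) + 9 * p ^ 6) := by
    apply mul_le_mul_of_nonneg_right _ (by positivity)
    apply mul_le_mul_of_nonneg_left _ (by norm_num)
    apply mul_le_mul_of_nonneg_left _ hp.le
    linarith
  refine e0.trans ?_
  have e1 : 4 * (p * (16002 * h)) * (144 * Y * (1 / p ^ 3)) ≤ Y / (96 * h) := by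
    have : 4 * (p * (16002 * h)) * (144 * Y * (1 / p ^ 3)) =
        4 * 16002 * 144 * 96 * h ^ 2 * (Y / (96 * h * p ^ 2)) := by
      field_simp
    rw [this]
    calc _ ≤ p ^ 2 * (Y / (96 * h * p ^ 2)) :=
          mul_le_mul_of_nonneg_right h1 (by positivity)
      _ = Y / (96 * h) := by
          field_simp
  have e2 : 4 * (p * (16002 * h)) * (9 * p ^ 6) ≤ Y / (96 * h) := by
    rw [le_div_iff₀ (by positivity)]
    calc 4 * (p * (16002 * h)) * (9 * p ^ 6) * (96 * h) =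
          4 * 16002 * 9 * 96 * h ^ 2 * p ^ 7 := by ring
      _ ≤ p ^ 4 * p ^ 7 := mul_le_mul_of_nonneg_right h2 (by positivity)
      _ = p ^ 11 := by ring
      _ ≤ Y := hY
  have e3 : Y / (48 * h) = Y / (96 * h) + Y / (96 * h) := by
    field_simp
    ring
  rw [e3, mul_add]
  linarith

/-- All the largeness requirements on the level `h`. -/
structure Large (Y₀ : ℕ) (κ : ℝ) (h : ℕ) : Prop where
  h1600 : 1600 ≤ h
  hY₀ : Y₀ ≤ 2 ^ (11 * h)
  hD : ∀ c : ℕ, 1 ≤ c → D h c ≤ κ / 2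
  hsmall : ∀ c : ℕ, 1 ≤ c → (h : ℝ) ^ 9 * (1 / 2 ^ h) + D h c ≤ 1 / 2
  hκ : (1 : ℝ) / 2 ^ h ≤ κ
  e1 : 110592 * (Nat.factorial 100 : ℝ) ≤ (h : ℝ) ^ 18
  e2 : 3456 * (h : ℝ) ^ 2 ≤ 2 ^ h
  e3 : 36864000000 * (h : ℝ) ^ 30 ≤ 2 ^ h
  e4 : 73728000000 * (Nat.factorial 100 : ℝ) ≤ (h : ℝ) ^ 8
  e5 : 2304000000 * (h : ℝ) ^ 21 ≤ 2 ^ h
  e6 : 4 * 16002 * 144 * 96 * (h : ℝ) ^ 2 ≤ 2 ^ h
  e7 : 4 * 16002 * 9 * 96 * (h : ℝ) ^ 2 ≤ 2 ^ h

lemma exists_large (Y₀ : ℕ) (κ : ℝ) (hκ : 0 < κ) : ∃ h₁ : ℕ, ∀ h : ℕ, h₁ ≤ h → Large Y₀ κ h := by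
  rw [← eventually_atTop]
  filter_upwards [eventually_ge_atTop 1600, eventually_ge_atTop Y₀,
    eventually_D_le (κ / 2) (by positivity), eventually_D_le (1 / 4) (by norm_num),
    eventually_pow_le 9 4, eventually_pow_le 0 (1 / κ),
    eventually_const_le 18 (by norm_num) (110592 * (Nat.factorial 100 : ℝ)),
    eventually_pow_le 2 3456, eventually_pow_le 30 36864000000,
    eventually_const_le 8 (by norm_num) (73728000000 * (Nat.factorial 100 : ℝ)),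
    eventually_pow_le 21 2304000000, eventually_pow_le 2 (4 * 16002 * 144 * 96),
    eventually_pow_le 2 (4 * 16002 * 9 * 96)] with h a1 a2 a3 a4 a5 a6 a7 a8 a9 a10 a11 a12 a13
  refine ⟨a1, ?_, a3, ?_, ?_, a7, a8, a9, a10, a11, a12, a13⟩
  · calc Y₀ ≤ h := a2
      _ ≤ 2 ^ h := Nat.lt_two_pow_self.le
      _ ≤ 2 ^ (11 * h) := Nat.pow_le_pow_right (by norm_num) (by omega)
  · intro c hc
    have h1 := a4 c hc
    have h2 : (h : ℝ) ^ 9 * (1 / 2 ^ h) ≤ 1 / 4 := by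
      rw [mul_one_div, div_le_iff₀ (by positivity)]
      linarith
    linarith
  · rw [pow_zero, mul_one] at a6
    rw [div_le_iff₀ (by positivity)]
    rw [div_le_iff₀ hκ] at a6
    linarith [mul_comm κ ((2 : ℝ) ^ h)]

open Classical in
/-- The good primes in `(Y, 4Y]`. -/
noncomputable def good (h : ℕ) (Q : Finset ℕ) (Y : ℕ) : Finset ℕ :=
  (Ioc Y (4 * Y)).filter fun n => n.Prime ∧ ¬ Bad1 h Q n ∧ ¬ Bad2 h n

lemma mem_good {h : ℕ} {Q : Finset ℕ} {Y n : ℕ} : n ∈ good h Q Y ↔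
    (Y < n ∧ n ≤ 4 * Y) ∧ n.Prime ∧ ¬ Bad1 h Q n ∧ ¬ Bad2 h n := by
  classical
  unfold good
  simp only [mem_filter, mem_Ioc]

lemma card_good {Y₀ : ℕ} (hY₀ : ∀ Y : ℕ, Y₀ ≤ Y → (Y : ℝ) / Real.log (4 * Y) ≤
    (((Finset.Ioc Y (4 * Y)).filter Nat.Prime).card : ℝ)) {κ : ℝ} {h : ℕ} (L : Large Y₀ κ h)
    (Q : Finset ℕ) (hQ : ∀ q ∈ Q, q.Prime) (hQc : Q.card ≤ 4 * h) {Y : ℕ}
    (hY1 : 2 ^ (11 * h) ≤ Y) (hY2 : Y ≤ 2 ^ (16 * h)) :
    (Y : ℝ) / (24 * h) ≤ ((good h Q Y).card : ℝ) := by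
  classical
  have h1600 := L.h1600
  have hhR : (1600 : ℝ) ≤ h := by exact_mod_cast h1600
  have hh0 : (0 : ℝ) < h := by linarith
  have hY1R : (2 : ℝ) ^ (11 * h) ≤ Y := by exact_mod_cast hY1
  have hY2R : (Y : ℝ) ≤ 2 ^ (16 * h) := by exact_mod_cast hY2
  have hY0R : (0 : ℝ) < Y := lt_of_lt_of_le (by positivity) hY1R
  have hpow : ∀ k : ℕ, h ≤ k → (2 : ℝ) ^ h ≤ 2 ^ k := fun k hk =>
    pow_le_pow_right₀ (by norm_num) hk
  have hY3 : 3 ≤ Y := by
    refine le_trans ?_ hY1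
    calc 3 ≤ 2 ^ 2 := by norm_num
      _ ≤ 2 ^ (11 * h) := Nat.pow_le_pow_right (by norm_num) (by omega)
  -- primes
  have hp := hY₀ Y (L.hY₀.trans hY1)
  have hlog : Real.log (4 * Y) ≤ 12 * h := by
    have h1 : Real.log (4 * Y) ≤ Real.log ((2 : ℝ) ^ (16 * h + 2)) := by
      apply Real.log_le_log (by positivity)
      rw [pow_add]
      linarith
    rw [Real.log_pow] at h1
    push_cast at h1
    have h2 := Real.log_two_lt_d9
    nlinarith
  have hlog0 : 0 < Real.log (4 * Y) := by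
    apply Real.log_pos
    have : (3 : ℝ) ≤ Y := by exact_mod_cast hY3
    linarith
  have hp2 : (Y : ℝ) / (12 * h) ≤ (((Finset.Ioc Y (4 * Y)).filter Nat.Prime).card : ℝ) :=
    (div_le_div_of_nonneg_left hY0R.le hlog0 hlog).trans hp
  -- bad ones
  have hb1 : cnt (Ioc Y (4 * Y)) (Bad1 h Q) ≤ Y / (48 * h) := by
    refine (cnt_bad1 (by omega) hY3 Q hQ hQc).trans (ineq1 hh0 hY0R.le L.e1 ?_)
    calc 3456 * (h : ℝ) ^ 2 * 2 ^ (6 * h) ≤ 2 ^ h * 2 ^ (6 * h) :=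
          mul_le_mul_of_nonneg_right L.e2 (by positivity)
      _ = 2 ^ (7 * h) := by
          rw [← pow_add]
          congr 1
          ring
      _ ≤ 2 ^ (11 * h) := pow_le_pow_right₀ (by norm_num) (by omega)
      _ ≤ Y := hY1R
  have hb2 : cnt (Ioc Y (4 * Y)) (Bad2 h) ≤ Y / (48 * h) := by
    refine (cnt_bad2 (by omega) L.hsmall).trans (ineq2 hh0 hY0R.le (by positivity) L.e3 L.e4 ?_)
    exact (L.e5.trans (hpow _ (by omega))).trans hY1R
  -- combine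
  have hsub : (Finset.Ioc Y (4 * Y)).filter Nat.Prime ⊆ good h Q Y ∪
      ((Ioc Y (4 * Y)).filter (Bad1 h Q) ∪ (Ioc Y (4 * Y)).filter (Bad2 h)) := by
    intro n hn
    obtain ⟨hn1, hn2⟩ := mem_filter.mp hn
    rw [mem_union, mem_union, mem_filter, mem_filter, mem_good, ← mem_Ioc]
    tauto
  have hcard : (((Finset.Ioc Y (4 * Y)).filter Nat.Prime).card : ℝ) ≤ ((good h Q Y).card : ℝ) +
      (cnt (Ioc Y (4 * Y)) (Bad1 h Q) + cnt (Ioc Y (4 * Y)) (Bad2 h)) := by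
    rw [cnt_eq, cnt_eq]
    have := (card_le_card hsub).trans ((card_union_le _ _).trans
      (Nat.add_le_add_left (card_union_le _ _) _))
    exact_mod_cast this
  have hfin : (Y : ℝ) / (24 * h) = Y / (12 * h) - (Y / (48 * h) + Y / (48 * h)) := by
    field_simp
    ring
  rw [hfin]
  linarith

end Pool.Agent.Helper10.EP
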