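import Mathlib
import Pool.Agent.Helper10.EP.B1
import Pool.Agent.Helper10.EP.B2
import Pool.Agent.Helper10.EP.B3a
import Pool.Agent.Helper10.EP.B3b
import Pool.Agent.Helper10.EP.B3c

set_option autoImplicit false

/-!
Module B3: the step lemma.
-/

namespace Pool.Agent.Helper10.EP

open Finset Filter

/-- The number of cells in a unit interval. -/
def W (h : ℕ) : ℕ := 2 ^ h * (16000 * h + 2)

/-- `Y_i = ⌊2^(16h)/m_i⌋`. -/
def Yi (h i : ℕ) : ℕ := 2 ^ (16 * h) / mul i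

lemma Yi_lower {h i : ℕ} (hh : 1600 ≤ h) (hi : i < 4000 * h) : 2 ^ (11 * h) ≤ Yi h i := by
  unfold Yi
  rw [Nat.le_div_iff_mul_le (mul_pos' i)]
  calc 2 ^ (11 * h) * mul i ≤ 2 ^ (11 * h) * 2 ^ (5 * h - 1) :=
        Nat.mul_le_mul_left _ (mul_le hh hi)
    _ = 2 ^ (11 * h + (5 * h - 1)) := by rw [← pow_add]
    _ ≤ 2 ^ (16 * h) := Nat.pow_le_pow_right (by norm_num) (by omega)

lemma mul_Yi_le (h i : ℕ) : mul i * Yi h i ≤ 2 ^ (16 * h) := Nat.mul_div_le _ _

lemma lt_mul_Yi (h i : ℕ) : 2 ^ (16 * h) < mul i * (Yi h i + 1) :=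
  Nat.lt_mul_div_succ _ (mul_pos' i)

lemma Yi_le (h i : ℕ) : Yi h i ≤ 2 ^ (16 * h) := Nat.div_le_self _ _

lemma lt_mul_s {h i s : ℕ} (hs : Yi h i < s) : 2 ^ (16 * h) < mul i * s :=
  lt_of_lt_of_le (lt_mul_Yi h i) (Nat.mul_le_mul_left _ hs)

lemma mul_s_le {h i s : ℕ} (hs : s ≤ 4 * Yi h i) : mul i * s ≤ 2 ^ (16 * h + 2) := by
  calc mul i * s ≤ mul i * (4 * Yi h i) := Nat.mul_le_mul_left _ hs
    _ = 4 * (mul i * Yi h i) := by ring
    _ ≤ 4 * 2 ^ (16 * h) := Nat.mul_le_mul_left _ (mul_Yi_le h i)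
    _ = 2 ^ (16 * h + 2) := by ring

lemma log_lower {h i s : ℕ} (hs : Yi h i < s) :
    16 * h * Real.log 2 ≤ Real.log ((mul i * s : ℕ) : ℝ) := by
  have h1 : Real.log ((2 : ℝ) ^ (16 * h)) ≤ Real.log ((mul i * s : ℕ) : ℝ) := by
    apply Real.log_le_log (by positivity)
    exact_mod_cast (lt_mul_s hs).le
  rw [Real.log_pow] at h1
  push_cast at h1
  exact_mod_cast h1

lemma log_upper {h i s : ℕ} (hs1 : Yi h i < s) (hs : s ≤ 4 * Yi h i) :
    Real.log ((mul i * s : ℕ) : ℝ) ≤ (16 * h + 2) * Real.log 2 := by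
  have h0 : 0 < mul i * s := lt_of_le_of_lt (Nat.zero_le _) (lt_mul_s hs1)
  have h1 : Real.log ((mul i * s : ℕ) : ℝ) ≤ Real.log ((2 : ℝ) ^ (16 * h + 2)) := by
    apply Real.log_le_log (by exact_mod_cast h0)
    exact_mod_cast mul_s_le hs
  rw [Real.log_pow] at h1
  push_cast at h1 ⊢
  exact h1

/-- The cell of the number `m_i s`. -/
noncomputable def cell (h i s : ℕ) : ℤ :=
  ⌊(W h : ℝ) * Real.log ((mul i * s : ℕ) : ℝ)⌋ + 2 * (i : ℤ)

/-- All cells. -/
noncomputable def cells (h : ℕ) : Finset ℤ :=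
  Icc ⌊(W h : ℝ) * (16 * h * Real.log 2)⌋ (⌊(W h : ℝ) * ((16 * h + 2) * Real.log 2)⌋ + 8000 * h)

lemma card_cells {h : ℕ} (hh : 1600 ≤ h) : ((cells h).card : ℝ) ≤ 4 * W h := by
  have hW : (8000 * (h : ℝ) + 2) ≤ W h := by
    have : 8000 * h + 2 ≤ W h := by
      unfold W
      have : 1 ≤ 2 ^ h := Nat.one_le_two_pow
      nlinarith
    exact_mod_cast this
  have hW0 : (0 : ℝ) ≤ W h := Nat.cast_nonneg _
  have h1 := Int.floor_le ((W h : ℝ) * ((16 * h + 2) * Real.log 2))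
  have h2 := Int.lt_floor_add_one ((W h : ℝ) * (16 * h * Real.log 2))
  have h3 : (W h : ℝ) * (16 * h * Real.log 2) ≤ (W h : ℝ) * ((16 * h + 2) * Real.log 2) := by
    apply mul_le_mul_of_nonneg_left _ hW0
    nlinarith [Real.log_nonneg (show (1 : ℝ) ≤ 2 by norm_num)]
  have h4 := Int.floor_le_floor h3
  unfold cells
  rw [Int.card_Icc]
  have h5 : (0 : ℤ) ≤ ⌊(W h : ℝ) * ((16 * h + 2) * Real.log 2)⌋ + 8000 * h + 1 -
      ⌊(W h : ℝ) * (16 * h * Real.log 2)⌋ := by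
    have : (0 : ℤ) ≤ 8000 * (h : ℤ) := by positivity
    linarith
  have h6 : (((⌊(W h : ℝ) * ((16 * h + 2) * Real.log 2)⌋ + 8000 * h + 1 -
      ⌊(W h : ℝ) * (16 * h * Real.log 2)⌋).toNat : ℕ) : ℝ) =
      ⌊(W h : ℝ) * ((16 * h + 2) * Real.log 2)⌋ + 8000 * h + 1 -
      ⌊(W h : ℝ) * (16 * h * Real.log 2)⌋ := by
    have : (((⌊(W h : ℝ) * ((16 * h + 2) * Real.log 2)⌋ + 8000 * h + 1 -
      ⌊(W h : ℝ) * (16 * h * Real.log 2)⌋).toNat : ℕ) : ℤ) =
      ⌊(W h : ℝ) * ((16 * h + 2) * Real.log 2)⌋ + 8000 * h + 1 -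
      ⌊(W h : ℝ) * (16 * h * Real.log 2)⌋ := Int.toNat_of_nonneg h5
    exact_mod_cast congrArg (fun z : ℤ => (z : ℝ)) this
  rw [h6]
  have h7 := Real.log_two_lt_d9
  nlinarith

lemma cell_mem {h i s : ℕ} (hi : i < 4000 * h) (hs1 : Yi h i < s) (hs : s ≤ 4 * Yi h i) :
    cell h i s ∈ cells h := by
  have hW0 : (0 : ℝ) ≤ W h := Nat.cast_nonneg _
  have h1 := Int.floor_le_floor (mul_le_mul_of_nonneg_left (log_lower hs1) hW0)
  have h2 := Int.floor_le_floor (mul_le_mul_of_nonneg_left (log_upper hs1 hs) hW0)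
  unfold cell cells
  rw [mem_Icc]
  constructor
  · have : (0 : ℤ) ≤ 2 * (i : ℤ) := by positivity
    linarith
  · have : 2 * (i : ℤ) ≤ 8000 * h := by omega
    linarith

lemma W_pos (h : ℕ) : 0 < W h := by
  unfold W
  positivity

lemma W_le {Y₀ : ℕ} {κ : ℝ} {h : ℕ} (L : Large Y₀ κ h) {Y : ℕ} (hY : 2 ^ (11 * h) ≤ Y) :
    (W h : ℝ) ≤ Y := by
  have hhR : (1600 : ℝ) ≤ h := by exact_mod_cast L.h1600
  have h1 : (16000 * (h : ℝ) + 2) ≤ 2 ^ h := by
    have := L.e2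
    nlinarith
  have h2 : (2 : ℝ) ^ (11 * h) ≤ Y := by exact_mod_cast hY
  unfold W
  push_cast
  calc (2 : ℝ) ^ h * (16000 * h + 2) ≤ 2 ^ h * 2 ^ h :=
        mul_le_mul_of_nonneg_left h1 (by positivity)
    _ = 2 ^ (2 * h) := by
        rw [← pow_add]
        congr 1
        ring
    _ ≤ 2 ^ (11 * h) := pow_le_pow_right₀ (by norm_num) (by omega)
    _ ≤ Y := h2

lemma card_cell {Y₀ : ℕ} {κ : ℝ} {h : ℕ} (L : Large Y₀ κ h) (Q : Finset ℕ) {i : ℕ}
    (hi : i < 4000 * h) (k : ℤ) :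
    (((good h Q (Yi h i)).filter fun s => cell h i s = k).card : ℝ) ≤
      17 * Yi h i / W h := by
  have hY := Yi_lower L.h1600 hi
  have hWY := W_le L hY
  have hW0 : (0 : ℝ) < W h := by exact_mod_cast W_pos h
  have hW2 : (2 : ℝ) ≤ W h := by
    have : 2 ≤ W h := by
      unfold W
      have : 1 ≤ 2 ^ h := Nat.one_le_two_pow
      nlinarith
    exact_mod_cast this
  set x : ℝ := ((k : ℝ) - 2 * i) / W h - Real.log (mul i) with hx
  have h1 : (((good h Q (Yi h i)).filter fun s => cell h i s = k).card : ℝ) ≤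
      cnt (Ioc (Yi h i) (4 * Yi h i)) (fun n : ℕ => |Real.log n - x| < 1 / W h) := by
    classical
    rw [cnt_eq]
    have hsub : ((good h Q (Yi h i)).filter fun s => cell h i s = k) ⊆
        (Ioc (Yi h i) (4 * Yi h i)).filter (fun n : ℕ => |Real.log n - x| < 1 / W h) := by
      intro s hs
      obtain ⟨hs1, hs2⟩ := mem_filter.mp hs
      obtain ⟨⟨hs3, hs4⟩, hs5, _⟩ := mem_good.mp hs1
      refine mem_filter.mpr ⟨mem_Ioc.mpr ⟨hs3, hs4⟩, ?_⟩
      have hm0 : (0 : ℝ) < mul i := by exact_mod_cast mul_pos' i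
      have hs0 : (0 : ℝ) < s := by exact_mod_cast hs5.pos
      have hlog : Real.log ((mul i * s : ℕ) : ℝ) = Real.log (mul i) + Real.log s := by
        push_cast
        rw [Real.log_mul hm0.ne' hs0.ne']
      have hk : (k : ℝ) = ⌊(W h : ℝ) * Real.log ((mul i * s : ℕ) : ℝ)⌋ + 2 * i := by
        rw [← hs2]
        unfold cell
        push_cast
        ring
      have h2 := Int.floor_le ((W h : ℝ) * Real.log ((mul i * s : ℕ) : ℝ))
      have h3 := Int.lt_floor_add_one ((W h : ℝ) * Real.log ((mul i * s : ℕ) : ℝ))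
      rw [hlog] at h2 h3 hk
      have h4 : Real.log s - x = ((W h : ℝ) * (Real.log (mul i) + Real.log s) - (k - 2 * i)) /
          W h := by
        rw [hx]
        field_simp
        ring
      change |Real.log s - x| < 1 / W h
      rw [h4, abs_div, abs_of_pos hW0]
      apply div_lt_div_of_pos_right _ hW0
      rw [abs_lt]
      constructor <;> linarith
    exact_mod_cast card_le_card hsub
  refine h1.trans ((cnt_log_near (Yi h i) x (1 / W h) (by positivity) ?_).trans ?_)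
  · exact one_div_le_one_div_of_le (by norm_num) hW2
  · rw [le_div_iff₀ hW0, add_mul, mul_assoc, one_div_mul_cancel hW0.ne']
    linarith

/-- The joint separation condition for small exponents. -/
lemma last_cond {Y₀ : ℕ} {κ : ℝ} {h : ℕ} (L : Large Y₀ κ h)
    (hgap : ∀ i j : ℕ, i ≠ j → κ ≤ |Real.log (mul i) - Real.log (mul j)|) {i j s s' : ℕ}
    (hi : i < 4000 * h) (hj : j < 4000 * h) (hij : i ≠ j) (hs : 2 ^ (11 * h) ≤ s)
    (hs' : 0 < s') (hnb : ¬ Bad2 h s)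
    (hd : |Real.log ((mul j * s' : ℕ) : ℝ) - Real.log ((mul i * s : ℕ) : ℝ)| < 1 / 2 ^ (h + 1))
    (b c : ℕ) (hc : 1 ≤ c) (hcJ : c ≤ h ^ 9) :
    D h c ≤ |(b : ℝ) * Real.log s - c * Real.log s'| := by
  have h1600 := L.h1600
  have hhR : (1600 : ℝ) ≤ h := by exact_mod_cast h1600
  have hmi : (0 : ℝ) < mul i := by exact_mod_cast mul_pos' i
  have hmj : (0 : ℝ) < mul j := by exact_mod_cast mul_pos' j
  have hs0 : 0 < s := lt_of_lt_of_le (by positivity) hs
  have hsR : (0 : ℝ) < s := by exact_mod_cast hs0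
  have hsR' : (0 : ℝ) < s' := by exact_mod_cast hs'
  have hli : Real.log ((mul i * s : ℕ) : ℝ) = Real.log (mul i) + Real.log s := by
    push_cast
    rw [Real.log_mul hmi.ne' hsR.ne']
  have hlj : Real.log ((mul j * s' : ℕ) : ℝ) = Real.log (mul j) + Real.log s' := by
    push_cast
    rw [Real.log_mul hmj.ne' hsR'.ne']
  rw [hli, hlj] at hd
  have hδ : (1 : ℝ) / 2 ^ (h + 1) = (1 / 2 ^ h) / 2 := by
    rw [pow_succ]
    field_simp
  rw [hδ] at hd
  have hδ0 : (0 : ℝ) < 1 / 2 ^ h := by positivity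
  have hδ1 : (1 : ℝ) / 2 ^ h ≤ 1 := by
    rw [div_le_one (by positivity)]
    exact one_le_pow₀ (by norm_num)
  have hκδ := L.hκ
  have hDc := L.hD c hc
  have hDs := D_le_half (h := h) (by omega) hc
  have hD0 := D_pos h c
  have hcR : (1 : ℝ) ≤ c := by exact_mod_cast hc
  have hcJR : (c : ℝ) ≤ (h : ℝ) ^ 9 := by exact_mod_cast hcJ
  have hnn : ∀ x ∈ idx h, ∀ c ∈ Icc 1 (h ^ 9), (h : ℝ) ^ 9 * (1 / 2 ^ h) + D h c ≤
      |(x.2 : ℝ) * Real.log s - c * (Real.log (mul x.1.1) - Real.log (mul x.1.2))| := by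
    intro x hx c hc
    by_contra hcon
    exact hnb ⟨x, hx, c, hc, not_le.mp hcon⟩
  have hcI : c ∈ Icc 1 (h ^ 9) := mem_Icc.mpr ⟨hc, hcJ⟩
  -- names
  generalize hμ : Real.log (mul i) - Real.log (mul j) = μ at *
  generalize hδ' : (1 : ℝ) / 2 ^ h = δ at *
  set d := Real.log (mul j) + Real.log s' - (Real.log (mul i) + Real.log s) with hdd
  have hls : Real.log s' = Real.log s + μ + d := by rw [hdd, ← hμ]; ring
  have hcd : |(c : ℝ) * d| ≤ (h : ℝ) ^ 9 * δ / 2 := by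
    rw [abs_mul, abs_of_pos (by linarith : (0 : ℝ) < c)]
    calc (c : ℝ) * |d| ≤ c * (δ / 2) := mul_le_mul_of_nonneg_left hd.le (by linarith)
      _ ≤ (h : ℝ) ^ 9 * (δ / 2) := mul_le_mul_of_nonneg_right hcJR (by linarith)
      _ = _ := by ring
  have hJδ : 0 ≤ (h : ℝ) ^ 9 * δ := by positivity
  rcases lt_trichotomy b c with hbc | hbc | hbc
  · -- negative `b - c`
    obtain ⟨e, rfl⟩ : ∃ e, c = b + e := ⟨c - b, by omega⟩
    have hx : ((j, i), e) ∈ idx h := by
      unfold idx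
      rw [mem_product, mem_product, mem_range, mem_range, mem_Icc]
      exact ⟨⟨hj, hi⟩, by dsimp only; omega, by dsimp only; omega⟩
    have h1 := hnn _ hx _ hcI
    dsimp only at h1
    have h2 : Real.log (mul j) - Real.log (mul i) = -μ := by rw [← hμ]; ring
    rw [h2] at h1
    have h3 : (b : ℝ) * Real.log s - ((b + e : ℕ) : ℝ) * Real.log s' =
        -((e : ℝ) * Real.log s - ((b + e : ℕ) : ℝ) * (-μ)) - ((b + e : ℕ) : ℝ) * d := by
      rw [hls]
      push_cast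
      ring
    rw [h3]
    have h4 := abs_sub_abs_le_abs_sub (-((e : ℝ) * Real.log s - ((b + e : ℕ) : ℝ) * (-μ)))
      (((b + e : ℕ) : ℝ) * d)
    rw [abs_neg] at h4
    linarith
  · -- equal exponents
    rw [hbc]
    have h3 : (c : ℝ) * Real.log s - c * Real.log s' = -(c * (μ + d)) := by
      rw [hls]
      ring
    rw [h3, abs_neg, abs_mul, abs_of_pos (by linarith : (0 : ℝ) < c)]
    have h4 : κ ≤ |μ| := by
      have := hgap i j hij
      rwa [hμ] at this
    have h5 : |μ| - |d| ≤ |μ + d| := by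
      have := abs_sub_abs_le_abs_sub μ (-d)
      rwa [abs_neg, sub_neg_eq_add] at this
    have h6 : |μ + d| ≤ c * |μ + d| := le_mul_of_one_le_left (abs_nonneg _) hcR
    linarith
  · -- positive `b - c`
    obtain ⟨e, rfl⟩ : ∃ e, b = c + e := ⟨b - c, by omega⟩
    have h3 : ((c + e : ℕ) : ℝ) * Real.log s - (c : ℝ) * Real.log s' =
        ((e : ℝ) * Real.log s - (c : ℝ) * μ) - (c : ℝ) * d := by
      rw [hls]
      push_cast
      ring
    rw [h3]
    have h4 := abs_sub_abs_le_abs_sub ((e : ℝ) * Real.log s - (c : ℝ) * μ) ((c : ℝ) * d)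
    by_cases he : e ≤ h ^ 9
    · have hx : ((i, j), e) ∈ idx h := by
        unfold idx
        rw [mem_product, mem_product, mem_range, mem_range, mem_Icc]
        exact ⟨⟨hi, hj⟩, by dsimp only; omega, he⟩
      have h1 := hnn _ hx _ hcI
      dsimp only at h1
      rw [hμ] at h1
      linarith
    · have heR : (h : ℝ) ^ 9 ≤ e := by
        have : h ^ 9 ≤ e := (not_le.mp he).le
        exact_mod_cast this
      have hlogs : 7.6 * (h : ℝ) ≤ Real.log s := by
        have h5 : Real.log ((2 : ℝ) ^ (11 * h)) ≤ Real.log s := by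
          apply Real.log_le_log (by positivity)
          exact_mod_cast hs
        rw [Real.log_pow] at h5
        push_cast at h5
        have h6 := Real.log_two_gt_d9
        nlinarith
      have hμ1 : μ ≤ 3.5 * h := by
        have := log_mul_le h1600 hi
        have := log_mul_nonneg j
        linarith
      have h7 : (h : ℝ) ^ 9 * (7.6 * h) ≤ e * Real.log s := by
        calc (h : ℝ) ^ 9 * (7.6 * h) ≤ e * (7.6 * h) :=
              mul_le_mul_of_nonneg_right heR (by positivity)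
          _ ≤ e * Real.log s := mul_le_mul_of_nonneg_left hlogs (by positivity)
      have h8 : (c : ℝ) * μ ≤ (h : ℝ) ^ 9 * (3.5 * h) := by
        calc (c : ℝ) * μ ≤ c * (3.5 * h) := mul_le_mul_of_nonneg_left hμ1 (by linarith)
          _ ≤ _ := mul_le_mul_of_nonneg_right hcJR (by positivity)
      have h9 : (1 : ℝ) ≤ (h : ℝ) ^ 9 := one_le_pow₀ (by linarith)
      have h10 : (h : ℝ) ^ 9 * δ ≤ (h : ℝ) ^ 9 := mul_le_of_le_one_right (by positivity) hδ1
      have h11 : (h : ℝ) ^ 9 * 1600 ≤ (h : ℝ) ^ 9 * h := mul_le_mul_of_nonneg_left hhR (by positivity)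
      have h12 := le_abs_self ((e : ℝ) * Real.log s - (c : ℝ) * μ)
      nlinarith

theorem step : ∃ h₁ : ℕ, ∀ h : ℕ, h₁ ≤ h → ∀ Q : Finset ℕ, (∀ q ∈ Q, q.Prime) →
    Q.card ≤ 4 * h →
    ∃ s s' m m' : ℕ, s.Prime ∧ s'.Prime ∧ 2 ^ (10 * h) ≤ s ∧ 2 ^ (10 * h) ≤ s' ∧
      m * s ≤ 2 ^ (17 * h) ∧ m' * s' ≤ 2 ^ (17 * h) ∧
      (∃ a b, m = 2 ^ a * 3 ^ b) ∧ (∃ a b, m' = 2 ^ a * 3 ^ b) ∧
      1 / (2 ^ h * (16000 * h + 2)) ≤
        |Real.log ((m' * s' : ℕ) : ℝ) - Real.log ((m * s : ℕ) : ℝ)| ∧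
      |Real.log ((m' * s' : ℕ) : ℝ) - Real.log ((m * s : ℕ) : ℝ)| < 1 / 2 ^ (h + 1) ∧
      (∀ r : ℕ, r = s ∨ r = s' → ∀ q ∈ Q, ∀ b c : ℕ, 1 ≤ b → 1 ≤ c → c ≤ 2 ^ (3 * h) →
        Real.exp (-((c : ℝ) * h) ^ ((1 : ℝ) / 5)) ≤ |(c : ℝ) * Real.log r - b * Real.log q|) ∧
      (∀ b c : ℕ, 1 ≤ b → 1 ≤ c → c ≤ 2 ^ (3 * h) →
        Real.exp (-((c : ℝ) * h) ^ ((1 : ℝ) / 5)) ≤
          |(b : ℝ) * Real.log s - c * Real.log s'|) := by
  obtain ⟨Y₀, hY₀⟩ := card_primes_ge
  obtain ⟨κ, hκ0, hgap⟩ := exists_log_mul_gap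
  obtain ⟨h₁, hh₁⟩ := exists_large Y₀ κ hκ0
  refine ⟨h₁, fun h hh Q hQ hQc => ?_⟩
  have L := hh₁ h hh
  have h1600 := L.h1600
  have hhR : (1600 : ℝ) ≤ h := by exact_mod_cast h1600
  have hh0 : (0 : ℝ) < h := by linarith
  have hW0 : (0 : ℝ) < W h := by exact_mod_cast W_pos h
  have hWR : (W h : ℝ) = 2 ^ h * (16000 * h + 2) := by
    unfold W
    push_cast
    ring
  -- the pigeonhole
  have key : ∃ i ∈ range (4000 * h), ∃ j ∈ range (4000 * h), i ≠ j ∧
      ∃ s ∈ good h Q (Yi h i), ∃ s' ∈ good h Q (Yi h j), cell h i s = cell h j s' ∧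
        ¬ BadP h s s' := by
    apply pigeon (range (4000 * h)) (fun i => good h Q (Yi h i)) (cell h) (cells h) _ (BadP h)
      (fun i => 17 * Yi h i / W h)
      (fun i => 144 * Yi h i * (1 / 2 ^ (3 * h)) + 9 * 2 ^ (6 * h))
    · intro i hi
      have hY := Yi_lower h1600 (mem_range.mp hi)
      have : (0 : ℝ) < Yi h i := by
        have : 0 < Yi h i := lt_of_lt_of_le (by positivity) hY
        exact_mod_cast this
      positivity
    · intro i _
      positivity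
    · intro i hi k
      exact card_cell L Q (mem_range.mp hi) k
    · intro i _ j hj _ s hs
      obtain ⟨_, hs5, _⟩ := mem_good.mp hs
      have hY := Yi_lower h1600 (mem_range.mp hj)
      have hY3 : 3 ≤ Yi h j := by
        refine le_trans ?_ hY
        calc 3 ≤ 2 ^ 2 := by norm_num
          _ ≤ 2 ^ (11 * h) := Nat.pow_le_pow_right (by norm_num) (by omega)
      refine le_trans ?_ (cnt_badP (by omega) hY3 s hs5.two_le)
      classical
      rw [cnt_eq]
      have hsub : ((good h Q (Yi h j)).filter fun s' => BadP h s s') ⊆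
          (Ioc (Yi h j) (4 * Yi h j)).filter (BadP h s) := by
        intro n hn
        obtain ⟨hn1, hn2⟩ := mem_filter.mp hn
        obtain ⟨hn3, _⟩ := mem_good.mp hn1
        exact mem_filter.mpr ⟨mem_Ioc.mpr hn3, hn2⟩
      have := card_le_card hsub
      convert (Nat.cast_le (α := ℝ)).mpr this
    · have hcc := card_cells h1600
      have hterm : ∀ i ∈ range (4000 * h), (W h : ℝ) / (816 * h) ≤
          (((good h Q (Yi h i)).card : ℝ) - (cells h).card *
            (144 * Yi h i * (1 / 2 ^ (3 * h)) + 9 * 2 ^ (6 * h))) / (17 * Yi h i / W h) := by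
        intro i hi
        have hY := Yi_lower h1600 (mem_range.mp hi)
        have hYR : (2 : ℝ) ^ (11 * h) ≤ Yi h i := by exact_mod_cast hY
        have hY0 : (0 : ℝ) < Yi h i := lt_of_lt_of_le (by positivity) hYR
        have h1 := card_good hY₀ L Q hQ hQc hY (Yi_le h i)
        have h2 : (cells h).card * (144 * Yi h i * (1 / 2 ^ (3 * h)) + 9 * 2 ^ (6 * h)) ≤
            (Yi h i : ℝ) / (48 * h) := by
          have hp1 : (1 : ℝ) ≤ 2 ^ h := one_le_pow₀ (by norm_num)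
          have h3 := ineq3 (h := (h : ℝ)) (Y := (Yi h i : ℝ)) (p := (2 : ℝ) ^ h) (by linarith)
            (by positivity) (by rw [← pow_mul, mul_comm h 11]; exact hYR)
            (L.e6.trans (by
              calc (2 : ℝ) ^ h = (2 ^ h) ^ 1 := by rw [pow_one]
                _ ≤ (2 ^ h) ^ 2 := pow_le_pow_right₀ hp1 (by norm_num)))
            (L.e7.trans (by
              calc (2 : ℝ) ^ h = (2 ^ h) ^ 1 := by rw [pow_one]
                _ ≤ (2 ^ h) ^ 4 := pow_le_pow_right₀ hp1 (by norm_num)))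
          rw [← pow_mul, ← pow_mul, mul_comm h 3, mul_comm h 6, ← hWR] at h3
          refine le_trans ?_ h3
          exact mul_le_mul_of_nonneg_right hcc (by positivity)
        have h4 : (Yi h i : ℝ) / (24 * h) = Yi h i / (48 * h) + Yi h i / (48 * h) := by
          field_simp
          ring
        have h5 : (Yi h i : ℝ) / (48 * h) ≤ ((good h Q (Yi h i)).card : ℝ) - (cells h).card *
            (144 * Yi h i * (1 / 2 ^ (3 * h)) + 9 * 2 ^ (6 * h)) := by
          linarith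
        have h6 : (W h : ℝ) / (816 * h) = (Yi h i : ℝ) / (48 * h) / (17 * Yi h i / W h) := by
          field_simp
          norm_num
        rw [h6]
        exact div_le_div_of_nonneg_right h5 (by positivity)
      have hsum := sum_le_sum hterm
      rw [sum_const, card_range, nsmul_eq_mul] at hsum
      refine lt_of_lt_of_le ?_ hsum
      have h7 : ((4000 * h : ℕ) : ℝ) * ((W h : ℝ) / (816 * h)) = 4000 / 816 * W h := by
        push_cast
        field_simp
      rw [h7]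
      linarith
    · intro i hi s hs
      obtain ⟨⟨h1, h2⟩, _⟩ := mem_good.mp hs
      exact cell_mem (mem_range.mp hi) h1 h2
  obtain ⟨i, hi, j, hj, hij, s, hs, s', hs', hcell, hnb⟩ := key
  rw [mem_range] at hi hj
  obtain ⟨⟨hs1, hs2⟩, hsp, hsb1, hsb2⟩ := mem_good.mp hs
  obtain ⟨⟨hs1', hs2'⟩, hsp', hsb1', hsb2'⟩ := mem_good.mp hs'
  have hYi := Yi_lower h1600 hi
  have hYj := Yi_lower h1600 hj
  have h10 : (2 : ℕ) ^ (10 * h) ≤ 2 ^ (11 * h) := Nat.pow_le_pow_right (by norm_num) (by omega)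
  have h17 : (2 : ℕ) ^ (16 * h + 2) ≤ 2 ^ (17 * h) :=
    Nat.pow_le_pow_right (by norm_num) (by omega)
  -- the distance
  have hfi1 := Int.floor_le ((W h : ℝ) * Real.log ((mul i * s : ℕ) : ℝ))
  have hfi2 := Int.lt_floor_add_one ((W h : ℝ) * Real.log ((mul i * s : ℕ) : ℝ))
  have hfj1 := Int.floor_le ((W h : ℝ) * Real.log ((mul j * s' : ℕ) : ℝ))
  have hfj2 := Int.lt_floor_add_one ((W h : ℝ) * Real.log ((mul j * s' : ℕ) : ℝ))
  have hceq : ((⌊(W h : ℝ) * Real.log ((mul i * s : ℕ) : ℝ)⌋ : ℤ) : ℝ) + 2 * (i : ℝ) =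
      ((⌊(W h : ℝ) * Real.log ((mul j * s' : ℕ) : ℝ)⌋ : ℤ) : ℝ) + 2 * (j : ℝ) := by
    unfold cell at hcell
    exact_mod_cast congrArg (fun z : ℤ => (z : ℝ)) hcell
  set u := Real.log ((mul i * s : ℕ) : ℝ) with hu
  set v := Real.log ((mul j * s' : ℕ) : ℝ) with hv
  have hdist1 : 1 / (W h : ℝ) ≤ |v - u| := by
    rw [div_le_iff₀ hW0]
    have h1 : |v - u| * W h = |W h * v - W h * u| := by
      rw [← mul_sub, abs_mul, abs_of_pos hW0, mul_comm]
    rw [h1]
    rcases lt_or_gt_of_ne hij with h2 | h2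
    · have h3 : (i : ℝ) + 1 ≤ j := by exact_mod_cast h2
      rw [abs_sub_comm]
      refine le_trans ?_ (le_abs_self _)
      linarith
    · have h3 : (j : ℝ) + 1 ≤ i := by exact_mod_cast h2
      refine le_trans ?_ (le_abs_self _)
      linarith
  have hdist2 : |v - u| < 1 / 2 ^ (h + 1) := by
    have h1 : |v - u| * W h < 8000 * h + 1 := by
      have h1 : |v - u| * W h = |W h * v - W h * u| := by
        rw [← mul_sub, abs_mul, abs_of_pos hW0, mul_comm]
      rw [h1, abs_lt]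
      have h3 : (i : ℝ) < 4000 * h := by exact_mod_cast hi
      have h4 : (j : ℝ) < 4000 * h := by exact_mod_cast hj
      have h5 : (0 : ℝ) ≤ i := Nat.cast_nonneg i
      have h6 : (0 : ℝ) ≤ j := Nat.cast_nonneg j
      constructor <;> linarith
    have h2 : (8000 * (h : ℝ) + 1) = 1 / 2 ^ (h + 1) * W h := by
      rw [hWR, pow_succ]
      field_simp
      ring
    rw [h2] at h1
    exact lt_of_mul_lt_mul_right h1 hW0.le
  refine ⟨s, s', mul i, mul j, hsp, hsp', h10.trans (hYi.trans hs1.le),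
    h10.trans (hYj.trans hs1'.le), (mul_s_le hs2).trans h17, (mul_s_le hs2').trans h17,
    ⟨_, _, rfl⟩, ⟨_, _, rfl⟩, ?_, hdist2, ?_, ?_⟩
  · rw [← hWR]
    exact hdist1
  · intro r hr q hq b c _ hc1 hc2
    have hnot : ¬ Bad1 h Q r := by
      rcases hr with rfl | rfl
      · exact hsb1
      · exact hsb1'
    by_contra hcon
    exact hnot ⟨q, hq, c, mem_Icc.mpr ⟨hc1, hc2⟩, b, not_le.mp hcon⟩
  · intro b c _ hc1 hc2
    by_cases hcJ : c ≤ h ^ 9
    · exact last_cond L hgap hi hj hij (hYi.trans hs1.le) hsp'.pos hsb2 hdist2 b c hc1 hcJ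
    · by_contra hcon
      have hcon2 := not_le.mp hcon
      rw [abs_sub_comm] at hcon2
      exact hnb ⟨c, mem_Ioc.mpr ⟨not_le.mp hcJ, hc2⟩, b, hcon2⟩

end Pool.Agent.Helper10.EP
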