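import Mathlib

set_option autoImplicit false

namespace Pool.Agent.Helper10.EP

lemma density_aux {α β d e : ℝ} (hα : 0 < α) (_hβ : 0 < β) (u v : ℕ)
    (hd : d = u * α - v * β) (hd0 : 0 < d) (hde : d < e) :
    ∃ T : ℝ, ∀ t : ℝ, T ≤ t → ∃ a b : ℕ, 1 ≤ a ∧ 1 ≤ b ∧
      t < a * α + b * β ∧ a * α + b * β < t + e := by
  set k₀ : ℕ := ⌈α / d⌉₊ + 1 with hk₀
  set b₀ : ℕ := v * k₀ + 1 with hb₀
  refine ⟨b₀ * β + α, fun t ht => ?_⟩
  have hx0 : 0 ≤ (t - b₀ * β) / α := div_nonneg (by linarith) hα.le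
  set a₀ : ℕ := ⌊(t - b₀ * β) / α⌋₊ with ha₀
  have h1 : (a₀ : ℝ) ≤ (t - b₀ * β) / α := Nat.floor_le hx0
  have h2 : (t - b₀ * β) / α < a₀ + 1 := Nat.lt_floor_add_one _
  have ha1 : 1 ≤ a₀ := by
    rw [ha₀]
    apply Nat.le_floor
    rw [le_div_iff₀ hα]
    push_cast
    linarith
  rw [le_div_iff₀ hα] at h1
  rw [div_lt_iff₀ hα] at h2
  set z₀ : ℝ := a₀ * α + b₀ * β with hz₀
  have hz1 : 0 ≤ (t - z₀) / d := div_nonneg (by linarith) hd0.le
  set k : ℕ := ⌊(t - z₀) / d⌋₊ + 1 with hk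
  have h3 : ((⌊(t - z₀) / d⌋₊ : ℕ) : ℝ) ≤ (t - z₀) / d := Nat.floor_le hz1
  have h4 : (t - z₀) / d < (⌊(t - z₀) / d⌋₊ : ℕ) + 1 := Nat.lt_floor_add_one _
  have hkr : (k : ℝ) = (⌊(t - z₀) / d⌋₊ : ℕ) + 1 := by rw [hk]; push_cast; ring
  rw [← hkr, div_lt_iff₀ hd0] at h4
  have h5 : ((k : ℝ) - 1) * d ≤ t - z₀ := by
    rw [hkr]
    rw [le_div_iff₀ hd0] at h3
    linarith
  have hkk : k ≤ k₀ := by
    rw [hk, hk₀]
    have h6 : (t - z₀) / d ≤ α / d := by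
      gcongr
      linarith
    have := Nat.floor_le_ceil (α / d)
    have h7 : ⌊(t - z₀) / d⌋₊ ≤ ⌊α / d⌋₊ := Nat.floor_le_floor h6
    omega
  have hvb : v * k ≤ v * k₀ := Nat.mul_le_mul_left v hkk
  refine ⟨a₀ + k * u, b₀ - v * k, by omega, by omega, ?_, ?_⟩
  · rw [Nat.cast_sub (by omega)]
    push_cast
    have e1 : ((a₀ : ℝ) + k * u) * α + ((b₀ : ℝ) - v * k) * β = z₀ + k * d := by
      rw [hd, hz₀]; ring
    rw [e1]
    linarith
  · rw [Nat.cast_sub (by omega)]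
    push_cast
    have e1 : ((a₀ : ℝ) + k * u) * α + ((b₀ : ℝ) - v * k) * β = z₀ + k * d := by
      rw [hd, hz₀]; ring
    rw [e1]
    linarith

/-- The numbers `a log 2 + b log 3` with `a, b ≥ 1` are eventually `e`-dense. -/
theorem base_density (e : ℝ) (he : 0 < e) : ∃ T : ℝ, ∀ t : ℝ, T ≤ t → ∃ a b : ℕ, 1 ≤ a ∧ 1 ≤ b ∧
    t < a * Real.log 2 + b * Real.log 3 ∧ a * Real.log 2 + b * Real.log 3 < t + e := by
  have h2 : 0 < Real.log 2 := Real.log_pos (by norm_num)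
  have h3 : 0 < Real.log 3 := Real.log_pos (by norm_num)
  have h23 : Real.log 2 < Real.log 3 := Real.log_lt_log (by norm_num) (by norm_num)
  set n : ℕ := ⌈Real.log 2 / e⌉₊ with hn
  obtain ⟨j, k, hk0, _, hjk⟩ := Real.exists_int_int_abs_mul_sub_le (Real.log 3 / Real.log 2)
    (n := n + 1) (by omega)
  have hn1 : Real.log 2 / e ≤ n := Nat.le_ceil _
  have hk1 : (1 : ℝ) ≤ k := by exact_mod_cast hk0
  -- scaled inequality
  have h4 : |(k : ℝ) * Real.log 3 - j * Real.log 2| < e := by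
    have e1 : (k : ℝ) * Real.log 3 - j * Real.log 2
        = (k * (Real.log 3 / Real.log 2) - j) * Real.log 2 := by field_simp
    rw [e1, abs_mul, abs_of_pos h2]
    rw [div_le_iff₀ he] at hn1
    have h5 : |(k : ℝ) * (Real.log 3 / Real.log 2) - j| * Real.log 2
        ≤ 1 / ((n + 1 : ℕ) + 1) * Real.log 2 := by gcongr
    refine lt_of_le_of_lt h5 ?_
    rw [one_div, inv_mul_lt_iff₀ (by positivity)]
    push_cast
    nlinarith
  have hj0 : 0 < j := by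
    have h6 : |(k : ℝ) * (Real.log 3 / Real.log 2) - j| < 1 := by
      refine lt_of_le_of_lt hjk ?_
      rw [div_lt_one (by positivity)]
      push_cast
      have : (0 : ℝ) ≤ n := Nat.cast_nonneg n
      linarith
    have h7 : 1 ≤ Real.log 3 / Real.log 2 := by
      rw [le_div_iff₀ h2]; linarith
    have h8 : 1 ≤ (k : ℝ) * (Real.log 3 / Real.log 2) := by nlinarith
    have h9 := (abs_lt.mp h6).2
    have : (0 : ℝ) < j := by linarith
    exact_mod_cast this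
  obtain ⟨k', rfl⟩ := Int.eq_ofNat_of_zero_le hk0.le
  obtain ⟨j', rfl⟩ := Int.eq_ofNat_of_zero_le hj0.le
  have hk' : 0 < k' := by exact_mod_cast hk0
  have hj' : 0 < j' := by exact_mod_cast hj0
  simp only [Int.cast_natCast] at h4
  have hne : (k' : ℝ) * Real.log 3 - j' * Real.log 2 ≠ 0 := by
    intro h
    have e1 : Real.log (3 ^ k' : ℝ) = Real.log (2 ^ j' : ℝ) := by
      rw [Real.log_pow, Real.log_pow]; linarith
    have e2 : (3 ^ k' : ℝ) = 2 ^ j' := Real.log_injOn_pos (Set.mem_Ioi.mpr (by positivity))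
      (Set.mem_Ioi.mpr (by positivity)) e1
    have e3 : 3 ^ k' = 2 ^ j' := by exact_mod_cast e2
    have e4 : (3 ^ k') % 2 = 1 := by
      rw [Nat.pow_mod]; simp
    have e5 : (2 ^ j') % 2 = 0 := by
      rw [Nat.pow_mod]; simp [hj'.ne']
    omega
  rw [abs_lt] at h4
  rcases lt_or_gt_of_ne hne with h | h
  · -- `j log 2 - k log 3 > 0`
    obtain ⟨T, hT⟩ := density_aux (d := (j' : ℝ) * Real.log 2 - k' * Real.log 3) (e := e) h2 h3
      j' k' rfl (by linarith) (by linarith)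
    exact ⟨T, hT⟩
  · obtain ⟨T, hT⟩ := density_aux (d := (k' : ℝ) * Real.log 3 - j' * Real.log 2) (e := e) h3 h2
      k' j' rfl (by linarith) (by linarith)
    refine ⟨T, fun t ht => ?_⟩
    obtain ⟨a, b, ha, hb, h5, h6⟩ := hT t ht
    exact ⟨b, a, hb, ha, by linarith, by linarith⟩

end Pool.Agent.Helper10.EP
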