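import Pool.Agent.Helper10.EP.Defs
import Pool.Agent.Helper10.EP.A5

/-!
Separation of powers of different primes.
-/

namespace Pool.Agent.Helper10.EP

open Finset

/-- `a ≤ b → exp(-b^(1/5)) ≤ exp(-a^(1/5))` for `0 ≤ a`. -/
theorem exp_root_anti (a b : ℝ) (ha : 0 ≤ a) (hab : a ≤ b) :
    Real.exp (-b ^ ((1 : ℝ) / 5)) ≤ Real.exp (-a ^ ((1 : ℝ) / 5)) := by
  apply Real.exp_le_exp.mpr
  apply neg_le_neg
  exact Real.rpow_le_rpow ha hab (by norm_num)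

theorem exp_root_six (c X : ℝ) (hc : 1 ≤ c) (hX : c ≤ X) :
    Real.exp (-X ^ ((1 : ℝ) / 5)) ≤ Real.exp (-c ^ ((1 : ℝ) / 6)) := by
  apply Real.exp_le_exp.mpr
  apply neg_le_neg
  calc c ^ ((1 : ℝ) / 6) ≤ c ^ ((1 : ℝ) / 5) := Real.rpow_le_rpow_of_exponent_le hc (by norm_num)
    _ ≤ X ^ ((1 : ℝ) / 5) := Real.rpow_le_rpow (by linarith) hX (by norm_num)

/-- The case where one prime is new at level `h`. -/
theorem sep_new (C₀ : ℕ)
    (hgel : ∀ p q : ℕ, p.Prime → q.Prime → p ≠ q → ∀ b c : ℕ, 1 ≤ b → C₀ ≤ c →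
      p ≤ c ^ 10 → q ≤ c ^ 10 →
      Real.exp (-(c : ℝ) ^ ((1 : ℝ) / 6)) ≤ |(c : ℝ) * Real.log p - b * Real.log q|)
    (h r q e f : ℕ) (hh : 1 ≤ h) (hC : C₀ ≤ 2 ^ (3 * h)) (hr : r.Prime) (hq : q.Prime)
    (hr1 : 2 ^ (10 * h) ≤ r) (hr2 : r ≤ 2 ^ (17 * h)) (hq2 : q ≤ 2 ^ (17 * h)) (hrq : r ≠ q)
    (he : 1 ≤ e) (hf : 1 ≤ f)
    (hstep : e ≤ 2 ^ (3 * h) →
      Real.exp (-((e : ℝ) * h) ^ ((1 : ℝ) / 5)) ≤ |(e : ℝ) * Real.log r - f * Real.log q|)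
    (X : ℝ) (hX : (e : ℝ) * Real.log r - 1 ≤ X) :
    Real.exp (-X ^ ((1 : ℝ) / 5)) ≤ |(e : ℝ) * Real.log r - f * Real.log q| := by
  have hhR : (1 : ℝ) ≤ h := by exact_mod_cast hh
  have heR : (1 : ℝ) ≤ e := by exact_mod_cast he
  have hlr : 2 * (h : ℝ) ≤ Real.log r := by
    have h1 : Real.log ((2 : ℝ) ^ (10 * h)) ≤ Real.log r :=
      Real.log_le_log (by positivity) (by exact_mod_cast hr1)
    rw [Real.log_pow] at h1
    push_cast at h1
    have h2 := Real.log_two_gt_d9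
    nlinarith
  have heh : (1 : ℝ) ≤ (e : ℝ) * h := by nlinarith
  have hXe : (e : ℝ) * h ≤ X := by nlinarith
  rcases le_or_gt e (2 ^ (3 * h)) with hle | hgt
  · exact (exp_root_anti _ _ (by positivity) hXe).trans (hstep hle)
  · have hpow : 2 ^ (17 * h) ≤ e ^ 10 := by
      calc 2 ^ (17 * h) ≤ 2 ^ (3 * h * 10) := Nat.pow_le_pow_right (by norm_num) (by omega)
        _ = (2 ^ (3 * h)) ^ 10 := by rw [pow_mul]
        _ ≤ e ^ 10 := Nat.pow_le_pow_left hgt.le 10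
    have h1 := hgel r q hr hq hrq f e hf (hC.trans hgt.le) (hr2.trans hpow) (hq2.trans hpow)
    refine (exp_root_six _ _ heR ?_).trans h1
    nlinarith

/-- The case where both primes are at most `B` and the exponent is large. -/
theorem sep_old (C₀ : ℕ)
    (hgel : ∀ p q : ℕ, p.Prime → q.Prime → p ≠ q → ∀ b c : ℕ, 1 ≤ b → C₀ ≤ c →
      p ≤ c ^ 10 → q ≤ c ^ 10 →
      Real.exp (-(c : ℝ) ^ ((1 : ℝ) / 6)) ≤ |(c : ℝ) * Real.log p - b * Real.log q|)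
    (B : ℕ) : ∃ X₀ : ℝ, ∀ p q : ℕ, p.Prime → q.Prime → p ≠ q → p ≤ B → q ≤ B →
      ∀ b c : ℕ, 1 ≤ b → X₀ ≤ (c : ℝ) * Real.log p →
        Real.exp (-((c : ℝ) * Real.log p) ^ ((1 : ℝ) / 5)) ≤
          |(c : ℝ) * Real.log p - b * Real.log q| := by
  refine ⟨((C₀ + B + 64 : ℕ) : ℝ) * Real.log (B + 2), ?_⟩
  intro p q hp hq hpq hpB hqB b c hb hX
  have hlogB : 0 < Real.log ((B : ℝ) + 2) := Real.log_pos (by
    have : (0 : ℝ) ≤ B := Nat.cast_nonneg _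
    linarith)
  have hlp : Real.log p ≤ Real.log ((B : ℝ) + 2) := by
    apply Real.log_le_log (by exact_mod_cast hp.pos)
    have : (p : ℝ) ≤ B := by exact_mod_cast hpB
    linarith
  have hlp0 : 0 ≤ Real.log p := Real.log_nonneg (by exact_mod_cast hp.one_le)
  have hc : C₀ + B + 64 ≤ c := by
    have h1 : ((C₀ + B + 64 : ℕ) : ℝ) * Real.log (B + 2) ≤ c * Real.log (B + 2) :=
      hX.trans (mul_le_mul_of_nonneg_left hlp (Nat.cast_nonneg _))
    have h2 := le_of_mul_le_mul_right h1 hlogB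
    exact_mod_cast h2
  have hcpow : c ≤ c ^ 10 := Nat.le_self_pow (by norm_num) c
  have h1 := hgel p q hp hq hpq b c hb (by omega) (by omega) (by omega)
  refine le_trans ?_ h1
  have hcR : (64 : ℝ) ≤ c := by exact_mod_cast (show 64 ≤ c by omega)
  have hl2 : (1 : ℝ) / 2 ≤ Real.log p := half_le_log_prime p hp
  apply Real.exp_le_exp.mpr
  apply neg_le_neg
  have h3 : (c : ℝ) / 2 ≤ c * Real.log p := by nlinarith
  calc (c : ℝ) ^ ((1 : ℝ) / 6) ≤ ((c : ℝ) / 2) ^ ((1 : ℝ) / 5) := by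
        have h4 : ((c : ℝ) ^ ((1 : ℝ) / 6)) = ((c : ℝ) ^ ((5 : ℝ) / 6)) ^ ((1 : ℝ) / 5) := by
          rw [← Real.rpow_mul (by linarith)]
          congr 1
          norm_num
        rw [h4]
        apply Real.rpow_le_rpow (by positivity) _ (by norm_num)
        have h5 : (c : ℝ) = (c : ℝ) ^ ((5 : ℝ) / 6) * (c : ℝ) ^ ((1 : ℝ) / 6) := by
          rw [← Real.rpow_add (by linarith)]
          norm_num
        have h6 : (2 : ℝ) ≤ (c : ℝ) ^ ((1 : ℝ) / 6) := by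
          calc (2 : ℝ) = ((2 : ℝ) ^ (6 : ℕ)) ^ ((1 : ℝ) / 6) := by
                rw [← Real.rpow_natCast, ← Real.rpow_mul (by norm_num)]
                norm_num
            _ ≤ (c : ℝ) ^ ((1 : ℝ) / 6) :=
                Real.rpow_le_rpow (by positivity) (by linarith) (by norm_num)
        have h7 : 0 < (c : ℝ) ^ ((5 : ℝ) / 6) := by positivity
        nlinarith
    _ ≤ ((c : ℝ) * Real.log p) ^ ((1 : ℝ) / 5) :=
        Real.rpow_le_rpow (by positivity) h3 (by norm_num)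

end Pool.Agent.Helper10.EP
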