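import Pool.Agent.Helper10.EP.Defs
import Pool.Agent.Helper10.EP.B3

/-!
The construction of the sequence of finite sets of primes.
-/

namespace Pool.Agent.Helper10.EP

open Finset

/-- The properties of the two new primes at level `h`. -/
structure StepP (h : ℕ) (Q : Finset ℕ) (s s' m m' : ℕ) : Prop where
  hs : s.Prime
  hs' : s'.Prime
  s1 : 2 ^ (10 * h) ≤ s
  s1' : 2 ^ (10 * h) ≤ s'
  s2 : m * s ≤ 2 ^ (17 * h)
  s2' : m' * s' ≤ 2 ^ (17 * h)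
  hm : ∃ a b, m = 2 ^ a * 3 ^ b
  hm' : ∃ a b, m' = 2 ^ a * 3 ^ b
  g1 : 1 / (2 ^ h * (16000 * (h : ℝ) + 2)) ≤
    |Real.log ((m' * s' : ℕ) : ℝ) - Real.log ((m * s : ℕ) : ℝ)|
  g2 : |Real.log ((m' * s' : ℕ) : ℝ) - Real.log ((m * s : ℕ) : ℝ)| < 1 / 2 ^ (h + 1)
  old : ∀ r : ℕ, r = s ∨ r = s' → ∀ q ∈ Q, ∀ b c : ℕ, 1 ≤ b → 1 ≤ c → c ≤ 2 ^ (3 * h) →
    Real.exp (-((c : ℝ) * h) ^ ((1 : ℝ) / 5)) ≤ |(c : ℝ) * Real.log r - b * Real.log q|
  new : ∀ b c : ℕ, 1 ≤ b → 1 ≤ c → c ≤ 2 ^ (3 * h) →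
    Real.exp (-((c : ℝ) * h) ^ ((1 : ℝ) / 5)) ≤ |(b : ℝ) * Real.log s - c * Real.log s'|

theorem StepP.le (h : ℕ) (Q : Finset ℕ) (s s' m m' : ℕ) (H : StepP h Q s s' m m') :
    s ≤ 2 ^ (17 * h) := by
  obtain ⟨a, b, hm⟩ := H.hm
  have : 1 ≤ m := by rw [hm]; exact Nat.one_le_iff_ne_zero.mpr (by positivity)
  calc s = 1 * s := (one_mul s).symm
    _ ≤ m * s := Nat.mul_le_mul_right s this
    _ ≤ _ := H.s2

theorem StepP.le' (h : ℕ) (Q : Finset ℕ) (s s' m m' : ℕ) (H : StepP h Q s s' m m') :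
    s' ≤ 2 ^ (17 * h) := by
  obtain ⟨a, b, hm⟩ := H.hm'
  have : 1 ≤ m' := by rw [hm]; exact Nat.one_le_iff_ne_zero.mpr (by positivity)
  calc s' = 1 * s' := (one_mul s').symm
    _ ≤ m' * s' := Nat.mul_le_mul_right s' this
    _ ≤ _ := H.s2'

/-- The four numbers given by the step lemma. -/
theorem stepP : ∃ h₁ : ℕ, ∀ (h : ℕ) (Q : Finset ℕ), ∃ x : (ℕ × ℕ) × (ℕ × ℕ),
    h₁ ≤ h → (∀ q ∈ Q, q.Prime) → Q.card ≤ 4 * h → StepP h Q x.1.1 x.1.2 x.2.1 x.2.2 := by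
  obtain ⟨h₁, H⟩ := step
  refine ⟨h₁, fun h Q => ?_⟩
  by_cases hc : h₁ ≤ h ∧ (∀ q ∈ Q, q.Prime) ∧ Q.card ≤ 4 * h
  · obtain ⟨s, s', m, m', a1, a2, a3, a4, a5, a6, a7, a8, a9, a10, a11, a12⟩ :=
      H h hc.1 Q hc.2.1 hc.2.2
    exact ⟨((s, s'), (m, m')), fun _ _ _ => ⟨a1, a2, a3, a4, a5, a6, a7, a8, a9, a10, a11, a12⟩⟩
  · exact ⟨((0, 0), (0, 0)), fun b1 b2 b3 => absurd ⟨b1, b2, b3⟩ hc⟩

/-- The sequence. -/
theorem exists_seq (P₀ : Finset ℕ) (hP₀ : ∀ p ∈ P₀, p.Prime) (C₀ : ℕ) :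
    ∃ (h0 : ℕ) (Q : ℕ → Finset ℕ) (s s' m m' : ℕ → ℕ),
      1 ≤ h0 ∧ C₀ ≤ 2 ^ (3 * h0) ∧ Q 0 = P₀ ∧
      (∀ n, Q (n + 1) = insert (s n) (insert (s' n) (Q n))) ∧
      (∀ n, ∀ q ∈ Q n, q.Prime) ∧ (∀ n, ∀ q ∈ Q n, q ≤ 2 ^ (17 * (h0 + n))) ∧
      ∀ n, StepP (h0 + n) (Q n) (s n) (s' n) (m n) (m' n) := by
  obtain ⟨h₁, H⟩ := stepP
  choose F hF using H
  obtain ⟨h0, hh0⟩ : ∃ h0 : ℕ, h0 = h₁ + 1 + P₀.card + C₀ + P₀.sup id := ⟨_, rfl⟩
  let Q : ℕ → Finset ℕ := fun n =>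
    Nat.rec P₀ (fun k R => insert (F (h0 + k) R).1.1 (insert (F (h0 + k) R).1.2 R)) n
  have hQ0 : Q 0 = P₀ := rfl
  have hQs : ∀ n, Q (n + 1) =
      insert (F (h0 + n) (Q n)).1.1 (insert (F (h0 + n) (Q n)).1.2 (Q n)) := fun n => rfl
  have hcard : ∀ n, (Q n).card ≤ P₀.card + 2 * n := by
    intro n
    induction n with
    | zero => simp [hQ0]
    | succ n ih =>
      rw [hQs]
      have h1 := Finset.card_insert_le (F (h0 + n) (Q n)).1.1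
        (insert (F (h0 + n) (Q n)).1.2 (Q n))
      have h2 := Finset.card_insert_le (F (h0 + n) (Q n)).1.2 (Q n)
      omega
  have hpow : ∀ n : ℕ, n ≤ 2 ^ n := fun n => (Nat.lt_two_pow_self).le
  have main : ∀ n, (∀ q ∈ Q n, q.Prime) ∧ (∀ q ∈ Q n, q ≤ 2 ^ (17 * (h0 + n))) ∧
      StepP (h0 + n) (Q n) (F (h0 + n) (Q n)).1.1 (F (h0 + n) (Q n)).1.2
        (F (h0 + n) (Q n)).2.1 (F (h0 + n) (Q n)).2.2 := by
    intro n
    induction n with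
    | zero =>
      have hp : ∀ q ∈ Q 0, q.Prime := by rw [hQ0]; exact hP₀
      refine ⟨hp, ?_, ?_⟩
      · intro q hq
        rw [hQ0] at hq
        have h1 : q ≤ P₀.sup id := Finset.le_sup (f := id) hq
        have h2 := hpow (17 * (h0 + 0))
        omega
      · apply hF _ _ (by omega) hp
        have := hcard 0
        omega
    | succ n ih =>
      obtain ⟨i1, i2, i3⟩ := ih
      have hp : ∀ q ∈ Q (n + 1), q.Prime := by
        intro q hq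
        rw [hQs] at hq
        simp only [Finset.mem_insert] at hq
        rcases hq with rfl | rfl | hq
        · exact i3.hs
        · exact i3.hs'
        · exact i1 q hq
      refine ⟨hp, ?_, ?_⟩
      · intro q hq
        rw [hQs] at hq
        simp only [Finset.mem_insert] at hq
        have h3 : q ≤ 2 ^ (17 * (h0 + n)) := by
          rcases hq with rfl | rfl | hq
          · exact StepP.le _ _ _ _ _ _ i3
          · exact StepP.le' _ _ _ _ _ _ i3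
          · exact i2 q hq
        exact h3.trans (Nat.pow_le_pow_right (by norm_num) (by omega))
      · apply hF _ _ (by omega) hp
        have := hcard (n + 1)
        omega
  refine ⟨h0, Q, fun n => (F (h0 + n) (Q n)).1.1, fun n => (F (h0 + n) (Q n)).1.2,
    fun n => (F (h0 + n) (Q n)).2.1, fun n => (F (h0 + n) (Q n)).2.2, by omega, ?_, hQ0, hQs,
    fun n => (main n).1, fun n => (main n).2.1, fun n => (main n).2.2⟩
  have := hpow (3 * h0)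
  omega

end Pool.Agent.Helper10.EP
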