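import Mathlib

/-!
Basic definitions: numbers all of whose prime factors lie in a given set.
-/

namespace Pool.Agent.Helper10.EP

/-- `SUnit P` is the set of positive integers all of whose prime factors lie in `P`. -/
def SUnit (P : Set ℕ) : Set ℕ := {n | 0 < n ∧ ∀ p : ℕ, p.Prime → p ∣ n → p ∈ P}

/-- `x < y` are consecutive elements of `SUnit P`. -/
def Consecutive (P : Set ℕ) (x y : ℕ) : Prop :=
  x ∈ SUnit P ∧ y ∈ SUnit P ∧ x < y ∧ ∀ z ∈ SUnit P, z ≤ x ∨ y ≤ z

/-- `n` has two distinct prime factors -/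
def Two (n : ℕ) : Prop := ∃ p q : ℕ, p.Prime ∧ q.Prime ∧ p ≠ q ∧ p ∣ n ∧ q ∣ n

/-- every interval `(t, t + d)`, `t ≥ T`, contains the logarithm of an element of `SUnit P` that is
not a prime power -/
def DenseAt (P : Set ℕ) (T d : ℝ) : Prop :=
  ∀ t : ℝ, T ≤ t → ∃ z : ℕ, z ∈ SUnit P ∧ Two z ∧ t < Real.log z ∧ Real.log z < t + d

end Pool.Agent.Helper10.EP
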