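import Mathlib
import Pool.Agent.Helper10.EP.Defs
import Pool.Agent.Helper10.EP.BaseDensity

set_option autoImplicit false

namespace Pool.Agent.Helper10.EP

theorem base_dense (P : Set ℕ) (h2 : 2 ∈ P) (h3 : 3 ∈ P) (d : ℝ) (hd : 0 < d) :
    ∃ T : ℝ, DenseAt P T d := by
  obtain ⟨T, hT⟩ := base_density d hd
  refine ⟨T, fun t ht => ?_⟩
  obtain ⟨a, b, ha, hb, h4, h5⟩ := hT t ht
  have hlog : Real.log ((2 ^ a * 3 ^ b : ℕ) : ℝ) = a * Real.log 2 + b * Real.log 3 := by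
    push_cast
    rw [Real.log_mul (by positivity) (by positivity), Real.log_pow, Real.log_pow]
  refine ⟨2 ^ a * 3 ^ b, ⟨by positivity, ?_⟩, ⟨2, 3, Nat.prime_two, Nat.prime_three, by norm_num,
    ?_, ?_⟩, ?_, ?_⟩
  · intro p hp hdvd
    rcases (Nat.Prime.dvd_mul hp).mp hdvd with h | h
    · have := hp.dvd_of_dvd_pow h
      rw [(Nat.prime_dvd_prime_iff_eq hp Nat.prime_two).mp this]; exact h2
    · have := hp.dvd_of_dvd_pow h
      rw [(Nat.prime_dvd_prime_iff_eq hp Nat.prime_three).mp this]; exact h3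
  · exact dvd_mul_of_dvd_left (dvd_pow_self 2 (by omega)) _
  · exact dvd_mul_of_dvd_right (dvd_pow_self 3 (by omega)) _
  · rw [hlog]; exact h4
  · rw [hlog]; exact h5

lemma SUnit.mul {P : Set ℕ} {a b : ℕ} (ha : a ∈ SUnit P) (hb : b ∈ SUnit P) :
    a * b ∈ SUnit P := by
  refine ⟨Nat.mul_pos ha.1 hb.1, fun p hp h => ?_⟩
  rcases (Nat.Prime.dvd_mul hp).mp h with h | h
  · exact ha.2 p hp h
  · exact hb.2 p hp h

lemma SUnit.pow {P : Set ℕ} {a : ℕ} (ha : a ∈ SUnit P) (n : ℕ) : a ^ n ∈ SUnit P :=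
  ⟨Nat.pow_pos ha.1, fun p hp h => ha.2 p hp (hp.dvd_of_dvd_pow h)⟩

lemma SUnit.mono {P P' : Set ℕ} (h : P ⊆ P') {a : ℕ} (ha : a ∈ SUnit P) : a ∈ SUnit P' :=
  ⟨ha.1, fun p hp hd => h (ha.2 p hp hd)⟩

lemma Two.mul_right {a b : ℕ} (ha : Two a) : Two (a * b) := by
  obtain ⟨p, q, hp, hq, hpq, h1, h2⟩ := ha
  exact ⟨p, q, hp, hq, hpq, dvd_mul_of_dvd_left h1 b, dvd_mul_of_dvd_left h2 b⟩

theorem density_step (P P' : Set ℕ) (hP : P ⊆ P') (T d d' U : ℝ) (K : ℕ) (_hd : 0 < d)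
    (hD : DenseAt P T d) (u v : ℕ) (hu : u ∈ SUnit P') (hv : v ∈ SUnit P')
    (hU : Real.log u ≤ U) (_hd1 : 0 < d') (hd2 : d' ≤ Real.log v - Real.log u)
    (hd3 : Real.log v - Real.log u < d / 2) (hK : d ≤ K * d') :
    DenseAt P' (T + K * U + d) (d / 2) := by
  intro t ht
  have hKU : (K : ℝ) * Real.log u ≤ K * U := by gcongr
  obtain ⟨z, hz, hz2, h1, h2⟩ := hD (t - K * Real.log u - d) (by linarith)
  set D : ℝ := Real.log v - Real.log u with hDdef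
  have hz0 : (0 : ℝ) < z := by exact_mod_cast hz.1
  have hu0 : (0 : ℝ) < u := by exact_mod_cast hu.1
  have hv0 : (0 : ℝ) < v := by exact_mod_cast hv.1
  set x : ℕ → ℕ := fun j => z * (u ^ (K - j) * v ^ j) with hx
  have hlog : ∀ j, j ≤ K → Real.log (x j) = Real.log z + K * Real.log u + j * D := by
    intro j hj
    rw [hx]
    push_cast
    rw [Real.log_mul hz0.ne' (by positivity), Real.log_mul (by positivity) (by positivity),
      Real.log_pow, Real.log_pow, Nat.cast_sub hj, hDdef]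
    ring
  have hex : ∃ j, j ≤ K ∧ t < Real.log (x j) := by
    refine ⟨K, le_rfl, ?_⟩
    rw [hlog K le_rfl]
    have : (K : ℝ) * d' ≤ K * D := by gcongr
    linarith
  classical
  set j := Nat.find hex with hj
  obtain ⟨hjK, hjt⟩ := Nat.find_spec hex
  have hj0 : j ≠ 0 := by
    intro h0
    have h3 : t < Real.log (x j) := hjt
    rw [hlog j hjK, h0] at h3
    push_cast at h3
    linarith
  have hprev : Real.log (x (j - 1)) ≤ t := by
    have h3 := Nat.find_min hex (m := j - 1) (by omega)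
    have hjK' : j ≤ K := hjK
    by_contra hcon
    push Not at hcon
    exact h3 ⟨by omega, hcon⟩
  refine ⟨x j, ?_, ?_, hjt, ?_⟩
  · exact SUnit.mul (SUnit.mono hP hz) (SUnit.mul (SUnit.pow hu _) (SUnit.pow hv _))
  · exact hz2.mul_right
  · have hjK' : j ≤ K := hjK
    rw [hlog (j - 1) (by omega)] at hprev
    have h4 : Real.log (x j) = Real.log z + K * Real.log u + j * D := hlog j hjK
    rw [h4]
    have h5 : ((j - 1 : ℕ) : ℝ) = j - 1 := by
      rw [Nat.cast_sub (by omega)]; push_cast; ring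
    rw [h5] at hprev
    linarith

theorem level_choice (T : ℕ → ℝ) (h0 : ℕ) (C : ℝ)
    (hT : ∀ n, T (n + 1) ≤ T n + C * ((h0 + n : ℕ) : ℝ) ^ 2) (P : Set ℕ)
    (hD : ∀ n, DenseAt P (T n) (1 / 2 ^ (h0 + n)))
    (hinf : Filter.Tendsto T Filter.atTop Filter.atTop) :
    ∃ t0 : ℝ, ∀ t : ℝ, t0 ≤ t → ∃ z : ℕ, z ∈ SUnit P ∧ Two z ∧ t < Real.log z ∧
      Real.log z < t + Real.exp (-t ^ ((1 : ℝ) / 5)) := by
  classical
  -- growth of `T`
  have hgrow : ∀ n, T n ≤ |T 0| + |C| * (n * ((h0 + n : ℕ) : ℝ) ^ 2) := by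
    intro n
    induction n with
    | zero => simp [le_abs_self]
    | succ n ih =>
      have h1 := hT n
      have h2 : C * ((h0 + n : ℕ) : ℝ) ^ 2 ≤ |C| * ((h0 + n : ℕ) : ℝ) ^ 2 := by
        gcongr; exact le_abs_self C
      have h3 : ((h0 + n : ℕ) : ℝ) ^ 2 ≤ ((h0 + (n + 1) : ℕ) : ℝ) ^ 2 := by
        gcongr; omega
      have h4 : (n : ℝ) * ((h0 + n : ℕ) : ℝ) ^ 2 + ((h0 + n : ℕ) : ℝ) ^ 2
          ≤ ((n + 1 : ℕ) : ℝ) * ((h0 + (n + 1) : ℕ) : ℝ) ^ 2 := by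
        push_cast at h3 ⊢
        have hn0 : (0 : ℝ) ≤ n := Nat.cast_nonneg n
        nlinarith
      have h5 : |C| * ((n : ℝ) * ((h0 + n : ℕ) : ℝ) ^ 2 + ((h0 + n : ℕ) : ℝ) ^ 2)
          ≤ |C| * (((n + 1 : ℕ) : ℝ) * ((h0 + (n + 1) : ℕ) : ℝ) ^ 2) := by gcongr
      linarith
  set A : ℝ := |T 0| + 2 * |C| with hA
  have hA0 : 0 ≤ A := by positivity
  set n₀ : ℕ := ⌈7 * A⌉₊ + 1 with hn₀
  have hn₀A : 7 * A ≤ n₀ := by
    rw [hn₀]; push_cast
    have := Nat.le_ceil (7 * A)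
    linarith
  refine ⟨1 + ∑ i ∈ Finset.range (n₀ + 1), |T i|, fun t ht => ?_⟩
  have htT : ∀ i ≤ n₀, T i ≤ t := by
    intro i hi
    have h1 : |T i| ≤ ∑ i ∈ Finset.range (n₀ + 1), |T i| :=
      Finset.single_le_sum (f := fun i => |T i|) (fun _ _ => abs_nonneg _)
        (Finset.mem_range.mpr (by omega))
    have h2 := le_abs_self (T i)
    linarith
  have ht1 : 1 ≤ t := by
    have : 0 ≤ ∑ i ∈ Finset.range (n₀ + 1), |T i| := Finset.sum_nonneg fun _ _ => abs_nonneg _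
    linarith
  have hex : ∃ n, t < T n := (hinf.eventually_gt_atTop t).exists
  set N := Nat.find hex with hN
  have hNt : t < T N := Nat.find_spec hex
  have hNn : n₀ < N := by
    by_contra hcon
    push Not at hcon
    have := htT N hcon
    linarith
  obtain ⟨n, hn⟩ : ∃ n, N = n + 1 := ⟨N - 1, by omega⟩
  have hTn : T n ≤ t := by
    have := Nat.find_min hex (m := n) (by omega)
    push Not at this
    exact this
  have hTn1 : t < T (n + 1) := by rw [← hn]; exact hNt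
  obtain ⟨z, hz, hz2, h1, h2⟩ := hD n t hTn
  refine ⟨z, hz, hz2, h1, h2.trans_le ?_⟩
  -- comparison of the meshes
  set x : ℝ := ((h0 + n : ℕ) : ℝ) with hx
  have hxn : (n : ℝ) ≤ x := by rw [hx]; push_cast; linarith [(Nat.cast_nonneg h0 : (0 : ℝ) ≤ h0)]
  have hnn : (n₀ : ℝ) ≤ n := by exact_mod_cast (by omega : n₀ ≤ n)
  have hx1 : 1 ≤ x := by
    have : (1 : ℝ) ≤ n₀ := by rw [hn₀]; push_cast; linarith [(Nat.cast_nonneg ⌈7 * A⌉₊ : (0:ℝ) ≤ _)]
    linarith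
  have hxA : 7 * A ≤ x := by linarith
  have ht5 : t ≤ (x * Real.log 2) ^ 5 := by
    have g1 := hT n
    have g2 := hgrow n
    have g3 : C * x ^ 2 ≤ |C| * x ^ 2 := by gcongr; exact le_abs_self C
    have g4 : |C| * ((n : ℝ) * x ^ 2) ≤ |C| * (x * x ^ 2) := by gcongr
    have g5 : |C| * x ^ 2 ≤ |C| * x ^ 3 := by
      have : x ^ 2 ≤ x ^ 3 := pow_le_pow_right₀ hx1 (by norm_num)
      gcongr
    have g6 : |T 0| ≤ |T 0| * x ^ 3 := by
      have : 1 ≤ x ^ 3 := one_le_pow₀ hx1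
      nlinarith [abs_nonneg (T 0)]
    have g7 : t ≤ A * x ^ 3 := by
      have e : |C| * (x * x ^ 2) = |C| * x ^ 3 := by ring
      rw [hA]
      linarith
    have hl2 := Real.log_two_gt_d9
    have g8 : (0.15 : ℝ) ≤ Real.log 2 ^ 5 := by
      calc (0.15 : ℝ) ≤ 0.6931471803 ^ 5 := by norm_num
        _ ≤ _ := by gcongr
    have g9 : A * x ^ 3 ≤ 0.15 * x ^ 5 := by
      have hx3 : 0 < x ^ 3 := by positivity
      have : A ≤ 0.15 * x ^ 2 := by nlinarith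
      calc A * x ^ 3 ≤ (0.15 * x ^ 2) * x ^ 3 := by gcongr
        _ = _ := by ring
    calc t ≤ A * x ^ 3 := g7
      _ ≤ 0.15 * x ^ 5 := g9
      _ ≤ Real.log 2 ^ 5 * x ^ 5 := by gcongr
      _ = _ := by ring
  have ht6 : t ^ ((1 : ℝ) / 5) ≤ x * Real.log 2 := by
    have hxl : 0 ≤ x * Real.log 2 := by positivity
    calc t ^ ((1 : ℝ) / 5) ≤ ((x * Real.log 2) ^ 5) ^ ((1 : ℝ) / 5) :=
          Real.rpow_le_rpow (by linarith) ht5 (by norm_num)
      _ = x * Real.log 2 := by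
          rw [← Real.rpow_natCast, ← Real.rpow_mul hxl]
          norm_num
  have e : (1 : ℝ) / 2 ^ (h0 + n) = Real.exp (-(x * Real.log 2)) := by
    rw [Real.exp_neg, mul_comm, Real.exp_mul, Real.exp_log (by norm_num), hx, Real.rpow_natCast,
      one_div]
  rw [e]
  have : Real.exp (-(x * Real.log 2)) ≤ Real.exp (-t ^ ((1 : ℝ) / 5)) :=
    Real.exp_le_exp.mpr (by linarith)
  linarith

end Pool.Agent.Helper10.EP
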