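import Pool.Agent.Helper10.EP.C1
import Pool.Agent.Helper10.EP.C2
import Pool.Agent.Helper10.EP.Density

/-!
The assembly.
-/

namespace Pool.Agent.Helper10.EP

open Finset

/-- All the separation statements together. -/
theorem sep_all (h0 : ℕ) (Q : ℕ → Finset ℕ) (s s' m m' : ℕ → ℕ) (hh0 : 1 ≤ h0) (C₀ : ℕ)
    (hgel : ∀ p q : ℕ, p.Prime → q.Prime → p ≠ q → ∀ b c : ℕ, 1 ≤ b → C₀ ≤ c →
      p ≤ c ^ 10 → q ≤ c ^ 10 →
      Real.exp (-(c : ℝ) ^ ((1 : ℝ) / 6)) ≤ |(c : ℝ) * Real.log p - b * Real.log q|)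
    (hC : C₀ ≤ 2 ^ (3 * h0))
    (hQs : ∀ n, Q (n + 1) = insert (s n) (insert (s' n) (Q n)))
    (hprime : ∀ n, ∀ q ∈ Q n, q.Prime) (hle : ∀ n, ∀ q ∈ Q n, q ≤ 2 ^ (17 * (h0 + n)))
    (hst : ∀ n, StepP (h0 + n) (Q n) (s n) (s' n) (m n) (m' n)) :
    ∃ X₀ : ℝ, ∀ p q : ℕ, (∃ n, p ∈ Q n) → (∃ n, q ∈ Q n) → p ≠ q → ∀ e f : ℕ, 1 ≤ e → 1 ≤ f →
      X₀ ≤ (e : ℝ) * Real.log p →
      Real.exp (-((e : ℝ) * Real.log p) ^ ((1 : ℝ) / 5)) ≤
        |(e : ℝ) * Real.log p - f * Real.log q| := by
  obtain ⟨X₀, hX₀⟩ := sep_old C₀ hgel (2 ^ (17 * h0))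
  have hmono : ∀ n k, n ≤ k → Q n ⊆ Q k := by
    intro n k hnk
    induction k, hnk using Nat.le_induction with
    | base => exact subset_rfl
    | succ k _ ih =>
      refine ih.trans ?_
      rw [hQs]
      exact (subset_insert _ _).trans (subset_insert _ _)
  refine ⟨X₀, ?_⟩
  rintro p q ⟨np, hnp⟩ ⟨nq, hnq⟩ hpq e f he hf hX
  have hex : ∃ n, p ∈ Q n ∧ q ∈ Q n :=
    ⟨max np nq, hmono _ _ (le_max_left _ _) hnp, hmono _ _ (le_max_right _ _) hnq⟩
  classical
  obtain ⟨n, hn, hmin⟩ : ∃ n, (p ∈ Q n ∧ q ∈ Q n) ∧ ∀ k, k < n → ¬ (p ∈ Q k ∧ q ∈ Q k) :=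
    ⟨Nat.find hex, Nat.find_spec hex, fun k hk => Nat.find_min hex hk⟩
  have hlogp : 0 ≤ Real.log p := Real.log_nonneg (by exact_mod_cast (hprime _ _ hnp).one_le)
  have heR : (1 : ℝ) ≤ e := by exact_mod_cast he
  have hel0 : 0 ≤ (e : ℝ) * Real.log p := by positivity
  -- the trivial case
  rcases le_or_gt 1 |(e : ℝ) * Real.log p - f * Real.log q| with htriv | hlt
  · refine le_trans ?_ htriv
    rw [Real.exp_le_one_iff]
    have := Real.rpow_nonneg hel0 ((1 : ℝ) / 5)
    linarith
  have hlt' := abs_lt.mp hlt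
  rcases n with _ | n
  · exact hX₀ p q (hprime _ _ hnp) (hprime _ _ hnq) hpq (hle 0 p hn.1) (hle 0 q hn.2) f e hf hX
      |>.trans le_rfl
  · have hst' := hst n
    have hnot := hmin n (Nat.lt_succ_self n)
    have hpQ := hn.1
    have hqQ := hn.2
    rw [hQs] at hpQ hqQ
    simp only [Finset.mem_insert] at hpQ hqQ
    have hC' : C₀ ≤ 2 ^ (3 * (h0 + n)) :=
      hC.trans (Nat.pow_le_pow_right (by norm_num) (by omega))
    have hh : 1 ≤ h0 + n := by omega
    have hs2 := StepP.le _ _ _ _ _ _ hst'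
    have hs2' := StepP.le' _ _ _ _ _ _ hst'
    have hpp := hprime _ _ hnp
    have hqp := hprime _ _ hnq
    by_cases hp : p ∈ Q n
    · have hq : q ∉ Q n := fun hq => hnot ⟨hp, hq⟩
      have hr : q = s n ∨ q = s' n := by
        rcases hqQ with h | h | h
        · exact Or.inl h
        · exact Or.inr h
        · exact absurd h hq
      have h1 : 2 ^ (10 * (h0 + n)) ≤ q := by
        rcases hr with h | h
        · rw [h]; exact hst'.s1
        · rw [h]; exact hst'.s1'
      have h2 : q ≤ 2 ^ (17 * (h0 + n)) := by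
        rcases hr with h | h
        · rw [h]; exact hs2
        · rw [h]; exact hs2'
      have h3 := sep_new C₀ hgel (h0 + n) q p f e hh hC' hqp hpp h1 h2 (hle n p hp) (Ne.symm hpq)
        hf he (fun hf' => hst'.old q hr p hp e f he hf hf') ((e : ℝ) * Real.log p)
        (by linarith [hlt'.1])
      rw [abs_sub_comm] at h3
      exact h3
    · have hr : p = s n ∨ p = s' n := by
        rcases hpQ with h | h | h
        · exact Or.inl h
        · exact Or.inr h
        · exact absurd h hp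
      have h1 : 2 ^ (10 * (h0 + n)) ≤ p := by
        rcases hr with h | h
        · rw [h]; exact hst'.s1
        · rw [h]; exact hst'.s1'
      have h2 : p ≤ 2 ^ (17 * (h0 + n)) := by
        rcases hr with h | h
        · rw [h]; exact hs2
        · rw [h]; exact hs2'
      by_cases hq : q ∈ Q n
      · exact sep_new C₀ hgel (h0 + n) p q e f hh hC' hpp hqp h1 h2 (hle n q hq) hpq
          he hf (fun he' => hst'.old p hr q hq f e hf he he') ((e : ℝ) * Real.log p)
          (by linarith)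
      · have hr' : q = s n ∨ q = s' n := by
          rcases hqQ with h | h | h
          · exact Or.inl h
          · exact Or.inr h
          · exact absurd h hq
        have h1' : 2 ^ (10 * (h0 + n)) ≤ q := by
          rcases hr' with h | h
          · rw [h]; exact hst'.s1
          · rw [h]; exact hst'.s1'
        have h2' : q ≤ 2 ^ (17 * (h0 + n)) := by
          rcases hr' with h | h
          · rw [h]; exact hs2
          · rw [h]; exact hs2'
        rcases hr with hr | hr
        · -- `p = s`, `q = s'`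
          have hq' : q = s' n := by
            rcases hr' with h | h
            · exact absurd (hr.trans h.symm) hpq
            · exact h
          have h3 := sep_new C₀ hgel (h0 + n) q p f e hh hC' hqp hpp h1' h2' h2 (Ne.symm hpq)
            hf he (fun hf' => by
              have h4 := hst'.new e f he hf hf'
              rw [abs_sub_comm, ← hr, ← hq'] at h4
              exact h4) ((e : ℝ) * Real.log p)
            (by linarith [hlt'.1])
          rw [abs_sub_comm] at h3
          exact h3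
        · have hq' : q = s n := by
            rcases hr' with h | h
            · exact h
            · exact absurd (hr.trans h.symm) hpq
          exact sep_new C₀ hgel (h0 + n) p q e f hh hC' hpp hqp h1 h2 h2' hpq
            he hf (fun he' => by
              have h4 := hst'.new f e hf he he'
              rw [abs_sub_comm, ← hr, ← hq'] at h4
              exact h4) ((e : ℝ) * Real.log p)
            (by linarith)

theorem SUnit_mono {P P' : Set ℕ} (h : P ⊆ P') : SUnit P ⊆ SUnit P' :=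
  fun _ hn => ⟨hn.1, fun p hp hpn => h (hn.2 p hp hpn)⟩

theorem DenseAt.mono {P P' : Set ℕ} {T T' d : ℝ} (hP : P ⊆ P') (hT : T ≤ T')
    (h : DenseAt P T d) : DenseAt P' T' d := by
  intro t ht
  obtain ⟨z, h1, h2, h3, h4⟩ := h t (hT.trans ht)
  exact ⟨z, SUnit_mono hP h1, h2, h3, h4⟩

theorem mem_SUnit_mul {P : Set ℕ} {a b : ℕ} (ha : a ∈ SUnit P) (hb : b ∈ SUnit P) :
    a * b ∈ SUnit P := by
  refine ⟨Nat.mul_pos ha.1 hb.1, fun p hp hpab => ?_⟩
  rcases (Nat.Prime.dvd_mul hp).mp hpab with h | h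
  · exact ha.2 p hp h
  · exact hb.2 p hp h

theorem mem_SUnit_prime {P : Set ℕ} {p : ℕ} (hp : p.Prime) (h : p ∈ P) : p ∈ SUnit P := by
  refine ⟨hp.pos, fun q hq hqp => ?_⟩
  rw [(Nat.prime_dvd_prime_iff_eq hq hp).mp hqp]
  exact h

theorem mem_SUnit_pow {P : Set ℕ} {a : ℕ} (ha : a ∈ SUnit P) (k : ℕ) : a ^ k ∈ SUnit P := by
  refine ⟨Nat.pow_pos ha.1, fun p hp hpa => ha.2 p hp (hp.dvd_of_dvd_pow hpa)⟩

/-- The density statements. -/
theorem dens_all (h0 : ℕ) (Q : ℕ → Finset ℕ) (s s' m m' : ℕ → ℕ) (hh0 : 1 ≤ h0)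
    (h2 : 2 ∈ Q 0) (h3 : 3 ∈ Q 0)
    (hQs : ∀ n, Q (n + 1) = insert (s n) (insert (s' n) (Q n)))
    (hst : ∀ n, StepP (h0 + n) (Q n) (s n) (s' n) (m n) (m' n)) :
    ∃ T : ℕ → ℝ, (∀ n, T (n + 1) = T n + 272035 * ((h0 + n : ℕ) : ℝ) ^ 2) ∧
      ∀ n, DenseAt (Q n : Set ℕ) (T n) (1 / 2 ^ (h0 + n)) := by
  obtain ⟨T0, hT0⟩ := base_dense (Q 0 : Set ℕ) (by exact_mod_cast h2) (by exact_mod_cast h3)
    (1 / 2 ^ h0) (by positivity)
  have hmono1 : ∀ n, Q n ⊆ Q (n + 1) := by
    intro n
    rw [hQs]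
    exact (subset_insert _ _).trans (subset_insert _ _)
  have hmem : ∀ n, 2 ∈ Q n ∧ 3 ∈ Q n := by
    intro n
    induction n with
    | zero => exact ⟨h2, h3⟩
    | succ n ih => exact ⟨hmono1 n ih.1, hmono1 n ih.2⟩
  refine ⟨fun n => T0 + ∑ i ∈ range n, 272035 * ((h0 + i : ℕ) : ℝ) ^ 2, ?_, ?_⟩
  · intro n
    simp only [Finset.sum_range_succ]
    ring
  · intro n
    induction n with
    | zero => simpa using hT0
    | succ n ih =>
      have H := hst n
      have hsub : (Q n : Set ℕ) ⊆ (Q (n + 1) : Set ℕ) := by exact_mod_cast hmono1 n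
      have hsQ : s n ∈ (Q (n + 1) : Set ℕ) := by
        rw [hQs]; simp
      have hsQ' : s' n ∈ (Q (n + 1) : Set ℕ) := by
        rw [hQs]; simp
      have h2Q : 2 ∈ SUnit (Q (n + 1) : Set ℕ) :=
        mem_SUnit_prime Nat.prime_two (by exact_mod_cast (hmem (n + 1)).1)
      have h3Q : 3 ∈ SUnit (Q (n + 1) : Set ℕ) :=
        mem_SUnit_prime Nat.prime_three (by exact_mod_cast (hmem (n + 1)).2)
      have hms : m n * s n ∈ SUnit (Q (n + 1) : Set ℕ) := by
        obtain ⟨a, b, hab⟩ := H.hm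
        rw [hab]
        exact mem_SUnit_mul (mem_SUnit_mul (mem_SUnit_pow h2Q a) (mem_SUnit_pow h3Q b))
          (mem_SUnit_prime H.hs hsQ)
      have hms' : m' n * s' n ∈ SUnit (Q (n + 1) : Set ℕ) := by
        obtain ⟨a, b, hab⟩ := H.hm'
        rw [hab]
        exact mem_SUnit_mul (mem_SUnit_mul (mem_SUnit_pow h2Q a) (mem_SUnit_pow h3Q b))
          (mem_SUnit_prime H.hs' hsQ')
      have hlog : ∀ x : ℕ, x ∈ SUnit (Q (n + 1) : Set ℕ) → x ≤ 2 ^ (17 * (h0 + n)) →
          Real.log x ≤ 17 * ((h0 + n : ℕ) : ℝ) := by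
        intro x hx hxl
        have hx0 : (0 : ℝ) < x := by exact_mod_cast hx.1
        have e1 : Real.log x ≤ Real.log ((2 : ℝ) ^ (17 * (h0 + n))) :=
          Real.log_le_log hx0 (by exact_mod_cast hxl)
        rw [Real.log_pow] at e1
        have e2 := Real.log_two_lt_d9
        have e3 : (0 : ℝ) ≤ ((17 * (h0 + n) : ℕ) : ℝ) := Nat.cast_nonneg _
        have e4 : ((17 * (h0 + n) : ℕ) : ℝ) * Real.log 2 ≤ ((17 * (h0 + n) : ℕ) : ℝ) * 1 :=
          mul_le_mul_of_nonneg_left (by linarith) e3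
        push_cast at e1 e4 ⊢
        linarith
      -- the two elements in increasing order
      obtain ⟨u, v, hu, hv, hUl, g1, g2⟩ : ∃ u v : ℕ, u ∈ SUnit (Q (n + 1) : Set ℕ) ∧
          v ∈ SUnit (Q (n + 1) : Set ℕ) ∧ Real.log u ≤ 17 * ((h0 + n : ℕ) : ℝ) ∧
          1 / (2 ^ (h0 + n) * (16000 * ((h0 + n : ℕ) : ℝ) + 2)) ≤ Real.log v - Real.log u ∧
          Real.log v - Real.log u < 1 / 2 ^ (h0 + n + 1) := by
        have g1 := H.g1
        have g2 := H.g2
        rcases le_total (Real.log ((m n * s n : ℕ) : ℝ)) (Real.log ((m' n * s' n : ℕ) : ℝ)) with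
          h | h
        · rw [abs_of_nonneg (by linarith)] at g1 g2
          exact ⟨_, _, hms, hms', hlog _ hms H.s2, g1, g2⟩
        · rw [abs_of_nonpos (by linarith)] at g1 g2
          exact ⟨_, _, hms', hms, hlog _ hms' H.s2', by linarith, by linarith⟩
      have hd : (0 : ℝ) < 1 / 2 ^ (h0 + n) := by positivity
      have hhalf : (1 : ℝ) / 2 ^ (h0 + n) / 2 = 1 / 2 ^ (h0 + n + 1) := by
        rw [pow_succ]; field_simp
      have key := density_step (Q n : Set ℕ) (Q (n + 1) : Set ℕ) hsub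
        (T0 + ∑ i ∈ range n, 272035 * ((h0 + i : ℕ) : ℝ) ^ 2) (1 / 2 ^ (h0 + n))
        (1 / (2 ^ (h0 + n) * (16000 * ((h0 + n : ℕ) : ℝ) + 2))) (17 * ((h0 + n : ℕ) : ℝ))
        (16000 * (h0 + n) + 2) hd ih u v hu hv hUl (by positivity) g1
        (by rw [hhalf]; exact g2)
        (by
          push_cast
          rw [mul_one_div, div_le_div_iff₀ (by positivity) (by positivity)]
          apply le_of_eq
          ring)
      rw [hhalf] at key
      refine DenseAt.mono subset_rfl ?_ key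
      simp only [Finset.sum_range_succ]
      have hR : (1 : ℝ) ≤ ((h0 + n : ℕ) : ℝ) := by exact_mod_cast (by omega : 1 ≤ h0 + n)
      have hd1 : (1 : ℝ) / 2 ^ (h0 + n) ≤ 1 := by
        rw [div_le_one (by positivity)]
        exact one_le_pow₀ (by norm_num)
      have e5 : ((16000 * (h0 + n) + 2 : ℕ) : ℝ) = 16000 * ((h0 + n : ℕ) : ℝ) + 2 := by
        push_cast; ring
      rw [e5]
      nlinarith

/-- Main theorem of the assembly. -/
theorem main (P₀ : Finset ℕ) (hP₀ : ∀ p ∈ P₀, p.Prime) :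
    ∃ P : Set ℕ, (P₀ : Set ℕ) ⊆ P ∧ P.Infinite ∧ (∀ p ∈ P, p.Prime) ∧
      {xy : ℕ × ℕ | Consecutive P xy.1 xy.2 ∧ IsPrimePow xy.1 ∧ IsPrimePow xy.2}.Finite := by
  classical
  obtain ⟨C₀, hgel⟩ := gelfond
  have hP₁ : ∀ p ∈ insert 2 (insert 3 P₀), p.Prime := by
    intro p hp
    simp only [Finset.mem_insert] at hp
    rcases hp with rfl | rfl | hp
    · exact Nat.prime_two
    · exact Nat.prime_three
    · exact hP₀ p hp
  obtain ⟨h0, Q, s, s', m, m', hh0, hC, hQ0, hQs, hprime, hle, hst⟩ :=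
    exists_seq (insert 2 (insert 3 P₀)) hP₁ C₀
  have h2 : 2 ∈ Q 0 := by rw [hQ0]; simp
  have h3 : 3 ∈ Q 0 := by rw [hQ0]; simp
  obtain ⟨X₀, hX₀⟩ := sep_all h0 Q s s' m m' hh0 C₀ hgel hC hQs hprime hle hst
  obtain ⟨T, hT, hD⟩ := dens_all h0 Q s s' m m' hh0 h2 h3 hQs hst
  set P : Set ℕ := {p | ∃ n, p ∈ Q n} with hPdef
  have hsub : ∀ n, (Q n : Set ℕ) ⊆ P := fun n p hp => ⟨n, by exact_mod_cast hp⟩
  have hPprime : ∀ p ∈ P, p.Prime := by
    rintro p ⟨n, hn⟩
    exact hprime n p hn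
  have hD' : ∀ n, DenseAt P (T n) (1 / 2 ^ (h0 + n)) := fun n =>
    DenseAt.mono (hsub n) le_rfl (hD n)
  have hTinf : Filter.Tendsto T Filter.atTop Filter.atTop := by
    have h1 : ∀ n : ℕ, T 0 + n ≤ T n := by
      intro n
      induction n with
      | zero => simp
      | succ n ih =>
        rw [hT]
        have hR : (1 : ℝ) ≤ ((h0 + n : ℕ) : ℝ) := by exact_mod_cast (by omega : 1 ≤ h0 + n)
        push_cast at hR ih ⊢
        nlinarith
    refine Filter.tendsto_atTop_mono h1 ?_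
    exact Filter.tendsto_atTop_add_const_left _ _ tendsto_natCast_atTop_atTop
  obtain ⟨t0, ht0⟩ := level_choice T h0 272035 (fun n => (hT n).le) P hD' hTinf
  refine ⟨P, ?_, ?_, hPprime, ?_⟩
  · refine subset_trans ?_ (hsub 0)
    rw [hQ0]
    intro p hp
    simp only [Finset.coe_insert, Set.mem_insert_iff]
    exact Or.inr (Or.inr hp)
  · rw [Set.infinite_iff_exists_gt]
    intro a
    refine ⟨s a, hsub (a + 1) ?_, ?_⟩
    · rw [hQs]; simp
    · have h1 := (hst a).s1
      have h5 : a < 2 ^ a := Nat.lt_two_pow_self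
      have h6 : 2 ^ a ≤ 2 ^ (10 * (h0 + a)) := Nat.pow_le_pow_right (by norm_num) (by omega)
      omega
  · obtain ⟨X₁, hX₁⟩ : ∃ X₁ : ℝ, X₁ = max (max X₀ t0) 1 := ⟨_, rfl⟩
    obtain ⟨N, hN⟩ := exists_nat_ge (Real.exp X₁)
    apply Set.Finite.subset (s := Set.Iic N ×ˢ Set.Iic (2 * N))
    · exact (Set.finite_Iic N).prod (Set.finite_Iic (2 * N))
    rintro ⟨x, y⟩ ⟨⟨hx, hy, hxy, hcons⟩, hpx, hpy⟩
    simp only at hx hy hxy hcons hpx hpy
    have h2P : 2 ∈ P := hsub 0 h2
    have hy2 : y ≤ 2 * x := by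
      have h5 : 2 * x ∈ SUnit P := mem_SUnit_mul (mem_SUnit_prime Nat.prime_two h2P) hx
      have h6 := hx.1
      rcases hcons _ h5 with h | h
      · omega
      · exact h
    have hx0 : (0 : ℝ) < x := by exact_mod_cast hx.1
    have hy0 : (0 : ℝ) < y := by exact_mod_cast hy.1
    have hlogx : Real.log x < X₁ := by
      by_contra hcon
      push Not at hcon
      rw [hX₁] at hcon
      have c1 : X₀ ≤ Real.log x := ((le_max_left X₀ t0).trans (le_max_left _ _)).trans hcon
      have c2 : t0 ≤ Real.log x := ((le_max_right X₀ t0).trans (le_max_left _ _)).trans hcon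
      have c3 : 1 ≤ Real.log x := (le_max_right (max X₀ t0) 1).trans hcon
      obtain ⟨z, hz, -, hz1, hz2⟩ := ht0 _ c2
      have hz0 : (0 : ℝ) < z := by exact_mod_cast hz.1
      have hzx : x < z := by
        have := (Real.log_lt_log_iff hx0 hz0).mp hz1
        exact_mod_cast this
      have hyz : y ≤ z := by
        rcases hcons z hz with h | h
        · omega
        · exact h
      have hlyz : Real.log y ≤ Real.log z := Real.log_le_log hy0 (by exact_mod_cast hyz)
      have hlxy : Real.log x < Real.log y := Real.log_lt_log hx0 (by exact_mod_cast hxy)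
      rw [isPrimePow_nat_iff] at hpx hpy
      obtain ⟨p, e, hp, he, hpe⟩ := hpx
      obtain ⟨q, f, hq, hf, hqf⟩ := hpy
      have hpP : p ∈ P := hx.2 p hp (by rw [← hpe]; exact dvd_pow_self p (by omega))
      have hqP : q ∈ P := hy.2 q hq (by rw [← hqf]; exact dvd_pow_self q (by omega))
      have hlx : Real.log x = e * Real.log p := by
        rw [← hpe]; push_cast; rw [Real.log_pow]
      have hly : Real.log y = f * Real.log q := by
        rw [← hqf]; push_cast; rw [Real.log_pow]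
      by_cases hpq : p = q
      · -- the same prime
        subst hpq
        have hef : e < f := by
          by_contra hcon2
          push Not at hcon2
          have : y ≤ x := by
            rw [← hpe, ← hqf]
            exact Nat.pow_le_pow_right hp.pos hcon2
          omega
        have hl2 : Real.log 2 ≤ Real.log p :=
          Real.log_le_log (by norm_num) (by exact_mod_cast hp.two_le)
        have hl2' := Real.log_two_gt_d9
        have hef' : (e : ℝ) + 1 ≤ f := by exact_mod_cast hef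
        have d1 : Real.log x + Real.log 2 ≤ Real.log y := by
          rw [hlx, hly]
          nlinarith
        have d2 : Real.exp (-(Real.log x) ^ ((1 : ℝ) / 5)) ≤ Real.exp (-1) := by
          apply Real.exp_le_exp.mpr
          have : (1 : ℝ) ≤ (Real.log x) ^ ((1 : ℝ) / 5) := Real.one_le_rpow c3 (by norm_num)
          linarith
        have d3 : Real.exp (-1) < 0.6 := by
          have := Real.exp_neg_one_lt_d9
          linarith
        linarith
      · have d1 := hX₀ p q hpP hqP hpq e f (by omega) (by omega) (by rw [← hlx]; exact c1)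
        rw [← hlx, ← hly, abs_sub_comm, abs_of_pos (by linarith)] at d1
        linarith
    have hxN : x ≤ N := by
      have h5 : (x : ℝ) < Real.exp X₁ := (Real.log_lt_iff_lt_exp hx0).mp hlogx
      have h6 : (x : ℝ) < N := lt_of_lt_of_le h5 hN
      have h7 : x < N := by exact_mod_cast h6
      exact h7.le
    simp only [Set.mem_prod, Set.mem_Iic]
    constructor
    · exact hxN
    · omega

end Pool.Agent.Helper10.EP
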